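import Pool.Agent.Lib.MP_bfaad3_co.Perm

/-! From a genus zero labelled map to a bound for the word of one face. -/

set_option autoImplicit false
set_option linter.unusedSectionVars false

namespace Pool.Agent.Lib.VK.Conv

open Equiv Pool.Agent.Lib.MP_bfaad3_co

section Lists
variable {D : Type} [Fintype D] [DecidableEq D]

/-- `l` lists one cycle of `φ` in order (or is empty) -/
def Face (φ : Perm D) (l : List D) : Prop := l.Nodup ∧ l.map φ = l.rotate 1

/-- the cycle of `x`, starting at `x` -/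
noncomputable def fl (φ : Perm D) (x : D) : List D :=
  List.iterate φ x (Function.minimalPeriod φ x)

theorem map_iter (f : D → D) (n : ℕ) (x : D) :
    (List.iterate f x n).map f = List.iterate f (f x) n := by
  induction n generalizing x with
  | zero => rfl
  | succ n ih => rw [List.iterate, List.map_cons, ih, List.iterate]

theorem iter_succ (f : D → D) (n : ℕ) (x : D) :
    List.iterate f x (n + 1) = List.iterate f x n ++ [f^[n] x] := by
  induction n generalizing x with
  | zero => rfl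
  | succ n ih => rw [List.iterate, ih, List.iterate, List.cons_append, Function.iterate_succ_apply]

theorem Face.rot {φ : Perm D} {l : List D} (h : Face φ l) (n : ℕ) : Face φ (l.rotate n) := by
  refine ⟨List.nodup_rotate.2 h.1, ?_⟩
  rw [List.map_rotate, h.2, List.rotate_rotate, List.rotate_rotate, Nat.add_comm]

theorem Face.swap {φ : Perm D} {l m : List D} (h : Face φ (l ++ m)) : Face φ (m ++ l) := by
  have := h.rot l.length
  rwa [List.rotate_append_length_eq] at this

theorem Face.mem {φ : Perm D} {l : List D} (h : Face φ l) {d : D} (hd : d ∈ l) : φ d ∈ l := by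
  have : φ d ∈ l.map φ := List.mem_map_of_mem hd
  rwa [h.2, List.mem_rotate] at this

theorem face_cons {φ : Perm D} {x : D} {t : List D} :
    Face φ (x :: t) ↔ (x :: t).Nodup ∧ (x :: t).map φ = t ++ [x] := by
  unfold Face
  rw [List.rotate_cons_succ, List.rotate_zero]

theorem fl_face (φ : Perm D) (x : D) : ∃ t, fl φ x = x :: t ∧ Face φ (x :: t) := by
  have hp : 0 < Function.minimalPeriod φ x :=
    Function.minimalPeriod_pos_of_mem_periodicPts (φ.injective.mem_periodicPts x)
  obtain ⟨m, hm⟩ : ∃ m, Function.minimalPeriod φ x = m + 1 := ⟨_, (Nat.succ_pred_eq_of_pos hp).symm⟩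
  have e : fl φ x = x :: List.iterate φ (φ x) m := by unfold fl; rw [hm, List.iterate]
  refine ⟨_, e, face_cons.2 ⟨?_, ?_⟩⟩
  · rw [← e]
    unfold fl
    rw [List.nodup_iff_injective_getElem]
    intro i j hij
    simp only [List.getElem_iterate] at hij
    have hi := i.2
    have hj := j.2
    simp only [List.length_iterate] at hi hj
    exact Fin.ext (Function.iterate_injOn_Iio_minimalPeriod hi hj hij)
  · have e2 : x :: List.iterate φ (φ x) m = List.iterate φ x (m + 1) := rfl
    rw [e2, map_iter, iter_succ, ← Function.iterate_succ_apply, Nat.succ_eq_add_one,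
      ← hm, Function.iterate_minimalPeriod]

theorem face_iter {φ : Perm D} {x y : D} {t : List D} (h : (x :: t).map φ = t ++ [y]) :
    x :: t = List.iterate φ x (t.length + 1) ∧ φ^[t.length + 1] x = y := by
  induction t generalizing x with
  | nil =>
    simp only [List.map_cons, List.map_nil, List.nil_append, List.cons.injEq, and_true] at h
    exact ⟨rfl, h⟩
  | cons z t ih =>
    rw [List.map_cons, List.cons_append, List.cons.injEq] at h
    obtain ⟨h1, h2⟩ := ih h.2
    rw [List.length_cons, List.iterate, Function.iterate_succ_apply, h.1]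
    exact ⟨by rw [← h1], h2⟩

theorem Face.sc {φ : Perm D} {x : D} {t : List D} (h : Face φ (x :: t)) (d : D) :
    d ∈ x :: t ↔ φ.SameCycle x d := by
  constructor
  · intro hd
    rw [(face_iter (face_cons.1 h).2).1, List.mem_iterate] at hd
    obtain ⟨m, -, rfl⟩ := hd
    exact ⟨(m : ℤ), by rw [zpow_natCast, Perm.coe_pow]⟩
  · intro hd
    obtain ⟨n, rfl⟩ := hd.exists_nat_pow_eq
    clear hd
    induction n with
    | zero => exact List.mem_cons_self
    | succ n ih => rw [perm_pow_step]; exact h.mem ih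

theorem Face.fl_eq {φ : Perm D} {x : D} {t : List D} (h : Face φ (x :: t)) : fl φ x = x :: t := by
  obtain ⟨s, e, hs⟩ := fl_face φ x
  have hl : (x :: s).length = (x :: t).length := by
    rw [← List.toFinset_card_of_nodup h.1, ← List.toFinset_card_of_nodup hs.1]
    congr 1
    ext d
    rw [List.mem_toFinset, List.mem_toFinset, h.sc, hs.sc]
  rw [e, (face_iter (face_cons.1 h).2).1, (face_iter (face_cons.1 hs).2).1]
  simp only [List.length_cons] at hl
  rw [hl]

theorem mem_fl (φ : Perm D) (x d : D) : d ∈ fl φ x ↔ φ.SameCycle x d := by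
  obtain ⟨s, e, hs⟩ := fl_face φ x
  rw [e, hs.sc]

theorem map_swap_of {x y : D} {t : List D} (hx : x ∉ t) (hy : y ∉ t) : t.map (swap x y) = t := by
  conv_rhs => rw [← List.map_id t]
  refine List.map_congr_left fun d hd => ?_
  exact swap_apply_of_ne_of_ne (fun e => hx (e ▸ hd)) (fun e => hy (e ▸ hd))

theorem Face.merge {φ : Perm D} {x y : D} {s t : List D} (hs : Face φ (x :: s))
    (ht : Face φ (y :: t)) (h : ¬ φ.SameCycle x y) :
    Face (Equiv.swap x y * φ) ((x :: s) ++ (y :: t)) := by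
  have dj : ∀ d, d ∈ x :: s → d ∈ y :: t → False := fun d h1 h2 =>
    h (((hs.sc d).1 h1).trans ((ht.sc d).1 h2).symm)
  obtain ⟨n1, m1⟩ := face_cons.1 hs
  obtain ⟨n2, m2⟩ := face_cons.1 ht
  refine face_cons.2 ⟨?_, ?_⟩
  · exact List.nodup_append.2 ⟨n1, n2, fun a ha b hb e => dj a ha (e ▸ hb)⟩
  · have e : ∀ l : List D, l.map (Equiv.swap x y * φ) = (l.map φ).map (Equiv.swap x y) := by
      intro l
      rw [List.map_map]
      rfl
    have a1 : x ∉ s := (List.nodup_cons.1 n1).1
    have a2 : y ∉ t := (List.nodup_cons.1 n2).1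
    have a3 : y ∉ s := fun k => dj y (List.mem_cons_of_mem _ k) List.mem_cons_self
    have a4 : x ∉ t := fun k => dj x List.mem_cons_self (List.mem_cons_of_mem _ k)
    change List.map _ ((x :: s) ++ (y :: t)) = _
    rw [List.map_append, e, e, m1, m2, List.map_append, List.map_append, map_swap_of a1 a3,
      map_swap_of a4 a2]
    simp

theorem fl_merge {φ : Perm D} {x y : D} (h : ¬ φ.SameCycle x y) :
    fl (swap x y * φ) x = fl φ x ++ fl φ y := by
  obtain ⟨s, e1, hs⟩ := fl_face φ x
  obtain ⟨t, e2, ht⟩ := fl_face φ y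
  rw [e1, e2]
  exact (hs.merge ht h).fl_eq

theorem fl_other {φ : Perm D} {x y z : D} (hx : ¬ φ.SameCycle z x) (hy : ¬ φ.SameCycle z y) :
    fl (swap x y * φ) z = fl φ z := by
  obtain ⟨s, e1, hs⟩ := fl_face φ z
  rw [e1]
  refine Face.fl_eq ⟨hs.1, ?_⟩
  rw [← hs.2]
  refine List.map_congr_left fun d hd => ?_
  have k := (hs.sc _).1 (hs.mem hd)
  exact swap_apply_of_ne_of_ne (fun e => hx (e ▸ k)) (fun e => hy (e ▸ k))

theorem fl_rot {φ : Perm D} {x y : D} (h : φ.SameCycle x y) :
    ∃ l m, fl φ x = l ++ m ∧ fl φ y = m ++ l := by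
  obtain ⟨s, e1, hs⟩ := fl_face φ x
  obtain ⟨l, m, e⟩ := List.append_of_mem ((hs.sc y).2 h)
  refine ⟨l, y :: m, e1.trans e, ?_⟩
  rw [e] at hs
  exact hs.swap.fl_eq

theorem not_sc_split {φ : Perm D} {x y : D} (hxy : x ≠ y) (h : φ.SameCycle x y) :
    ¬ (swap x y * φ).SameCycle x y := by
  intro hc
  have h1 := cyc_swap_same _ x y hxy hc
  have h2 := cyc_swap_same _ x y hxy h
  rw [cyc_mul_comm, ← mul_assoc, swap_mul_self, one_mul] at h1
  rw [cyc_mul_comm] at h2
  have h3 := cyc_mul_comm (swap x y) φ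
  omega

theorem gen0_comm {a b : Perm D} (h : Gen0 a b) : Gen0 b a := by
  have h2 : comp b a ≤ comp a b :=
    perm_card_le fun u v k => perm_conn_le (perm_conn_b b a) (perm_conn_a b a) k
  have := cyc_mul_comm a b
  unfold Gen0 at h ⊢
  omega

/-- two darts on one face and at one vertex are separated by the cut -/
theorem not_conn_split {φ α : Perm D} (h : Gen0 φ α) {x y : D} (hxy : x ≠ y)
    (h1 : φ.SameCycle x y) (h2 : (φ * α).SameCycle x y) : ¬ conn (swap x y * φ) α x y := by
  intro hc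
  have a1 := cyc_swap_same _ x y hxy h1
  have a2 := cyc_swap_same _ x y hxy h2
  rw [cyc_mul_comm] at a1 a2
  rw [← mul_assoc] at a2
  have a3 := euler_le (swap x y * φ) α
  have a4 := (perm_comp_step (a := φ) (b := α) (a' := swap x y * φ) (b' := α) x y
    (fun u => by
      have k := perm_conn_a (swap x y * φ) α u
      have k' := perm_mrg_swap (conn (swap x y * φ) α) x y ((swap x y * φ) u)
      rw [Perm.mul_apply, swap_apply_self] at k'
      exact (perm_mrg _ _ _).trans' (Or.inl k) k')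
    (fun u => Or.inl (perm_conn_b _ _ u))).2 hc
  unfold Gen0 at h
  omega

end Lists

section Main
variable {D : Type} [Fintype D] [DecidableEq D] {F : Type*} [Group F]

/-- a subadditive conjugation invariant function -/
structure Nm (N : F → ℕ∞) : Prop where
  one : N 1 = 0
  mul : ∀ g h, N (g * h) ≤ N g + N h
  inv : ∀ g, N g⁻¹ ≤ N g
  cj : ∀ g h, N (g * h) ≤ N (h * g)

/-- the value of the face of `x`, read from `x` -/
noncomputable def W (φ : Perm D) (val : D → F) (x : D) : F := ((fl φ x).map val).prod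

/-- the set of darts of the face of `x` -/
noncomputable def O (φ : Perm D) (x : D) : Finset D := (fl φ x).toFinset

theorem mem_O (φ : Perm D) (x d : D) : d ∈ O φ x ↔ φ.SameCycle x d := by
  unfold O
  rw [List.mem_toFinset, mem_fl]

theorem O_eq {φ : Perm D} {x y : D} (h : φ.SameCycle x y) : O φ x = O φ y := by
  ext d
  rw [mem_O, mem_O]
  exact ⟨fun k => h.symm.trans k, fun k => h.trans k⟩

theorem Nm.sc {N : F → ℕ∞} (hN : Nm N) {φ : Perm D} (val : D → F) {x y : D}
    (h : φ.SameCycle x y) : N (W φ val x) = N (W φ val y) := by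
  obtain ⟨l, m, e1, e2⟩ := fl_rot h
  unfold W
  rw [e1, e2, List.map_append, List.map_append, List.prod_append, List.prod_append]
  exact le_antisymm (hN.cj _ _) (hN.cj _ _)

theorem Nm.left {N : F → ℕ∞} (hN : Nm N) (g h : F) : N g ≤ N (g * h) + N h := by
  have := hN.mul (g * h) h⁻¹
  rw [mul_inv_cancel_right] at this
  exact this.trans (add_le_add le_rfl (hN.inv h))

theorem W_merge {φ : Perm D} (val : D → F) {x y : D} (h : ¬ φ.SameCycle x y) :
    W (swap x y * φ) val x = W φ val x * W φ val y := by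
  unfold W
  rw [fl_merge h, List.map_append, List.prod_append]

theorem O_merge {φ : Perm D} {x y : D} (h : ¬ φ.SameCycle x y) :
    O (swap x y * φ) x = O φ x ∪ O φ y := by
  unfold O
  rw [fl_merge h, List.toFinset_append]

theorem O_disj {φ : Perm D} {x y : D} (h : ¬ φ.SameCycle x y) : Disjoint (O φ x) (O φ y) :=
  Finset.disjoint_left.2 fun _ h1 h2 =>
    h (((mem_O _ _ _).1 h1).trans ((mem_O _ _ _).1 h2).symm)

theorem O_sub {φ : Perm D} {S : Finset D} (hS : ∀ d ∈ S, φ d ∈ S) {x : D} (hx : x ∈ S) :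
    O φ x ⊆ S := by
  intro d hd
  obtain ⟨n, rfl⟩ := ((mem_O _ _ _).1 hd).exists_nat_pow_eq
  clear hd
  induction n with
  | zero => exact hx
  | succ n ih => rw [perm_pow_step]; exact hS _ ih

/-- the statement proved by induction -/
def Bd (N : F → ℕ∞) (val : D → F) (α φ : Perm D) : Prop :=
  ∀ S : Finset D, (∀ d ∈ S, φ d ∈ S) → (∀ d ∈ S, α d ∈ S) → ∀ (c : D → ℕ∞) (o : D), o ∈ S →
    (∀ z ∈ S, ¬ φ.SameCycle o z → N (W φ val z) ≤ ∑ d ∈ O φ z, c d) →
    N (W φ val o) ≤ ∑ d ∈ S \ O φ o, c d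

theorem swap_mem {S : Finset D} {x y d : D} (hx : x ∈ S) (hy : y ∈ S) (hd : d ∈ S) :
    swap x y d ∈ S := by
  rw [swap_apply_def]
  split_ifs <;> assumption

theorem step_merge {N : F → ℕ∞} (hN : Nm N) (val : D → F) {α φ : Perm D} {x y : D}
    (h : ¬ φ.SameCycle x y) (ih : Bd N val α (swap x y * φ))
    {S : Finset D} (h1 : ∀ d ∈ S, φ d ∈ S) (h2 : ∀ d ∈ S, α d ∈ S) (hx : x ∈ S) (hy : y ∈ S)
    (c : D → ℕ∞) {o : D} (ho : o ∈ S) (hoy : ¬ φ.SameCycle o y)
    (hc : ∀ z ∈ S, ¬ φ.SameCycle o z → N (W φ val z) ≤ ∑ d ∈ O φ z, c d) :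
    N (W φ val o) ≤ ∑ d ∈ S \ O φ o, c d := by
  have h1' : ∀ d ∈ S, (swap x y * φ) d ∈ S := fun d hd => swap_mem hx hy (h1 d hd)
  have hm : ∀ d, (swap x y * φ).SameCycle x d ↔ φ.SameCycle x d ∨ φ.SameCycle y d := by
    intro d
    rw [← mem_O, O_merge h, Finset.mem_union, mem_O, mem_O]
  have oth : ∀ z, ¬ φ.SameCycle x z → ¬ φ.SameCycle y z →
      W (swap x y * φ) val z = W φ val z ∧ O (swap x y * φ) z = O φ z := by
    intro z k1 k2
    unfold W O
    rw [fl_other (fun k => k1 k.symm) (fun k => k2 k.symm)]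
    exact ⟨rfl, rfl⟩
  by_cases hox : φ.SameCycle o x
  · have k := ih S h1' h2 c x hx (fun z hz hn => by
      rw [hm, not_or] at hn
      rw [(oth z hn.1 hn.2).1, (oth z hn.1 hn.2).2]
      exact hc z hz fun k => hn.1 (hox.symm.trans k))
    rw [W_merge val h, O_merge h] at k
    rw [hN.sc val hox, O_eq hox]
    refine (hN.left _ (W φ val y)).trans ((add_le_add k (hc y hy hoy)).trans ?_)
    rw [← Finset.sum_union]
    · refine Finset.sum_le_sum_of_subset fun d hd => ?_
      rw [Finset.mem_union, Finset.mem_sdiff, Finset.mem_union] at hd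
      rw [Finset.mem_sdiff]
      rcases hd with hd | hd
      · exact ⟨hd.1, fun k => hd.2 (Or.inl k)⟩
      · exact ⟨O_sub h1 hy hd, fun k => Finset.disjoint_left.1 (O_disj h) k hd⟩
    · exact Finset.disjoint_left.2 fun d k1 k2 =>
        (Finset.mem_sdiff.1 k1).2 (Finset.mem_union_right _ k2)
  · have eo := oth o (fun k => hox k.symm) (fun k => hoy k.symm)
    have k := ih S h1' h2 c o ho (fun z hz hn => by
      by_cases hz' : (swap x y * φ).SameCycle x z
      · rw [← hN.sc val hz', ← O_eq hz', W_merge val h, O_merge h, Finset.sum_union (O_disj h)]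
        exact (hN.mul _ _).trans (add_le_add (hc x hx hox) (hc y hy hoy))
      · rw [hm, not_or] at hz'
        rw [(oth z hz'.1 hz'.2).1, (oth z hz'.1 hz'.2).2]
        refine hc z hz fun k => hn ?_
        rw [← mem_O, eo.2, mem_O]
        exact k)
    rwa [eo.1, eo.2] at k

open Classical in
/-- the component of `y` -/
noncomputable def Cp (φ α : Perm D) (y : D) : Finset D := Finset.univ.filter fun d => conn φ α y d

theorem mem_Cp (φ α : Perm D) (y d : D) : d ∈ Cp φ α y ↔ conn φ α y d := by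
  unfold Cp
  simp

theorem Cp_sub {φ α : Perm D} {S : Finset D} (h1 : ∀ d ∈ S, φ d ∈ S) (h2 : ∀ d ∈ S, α d ∈ S)
    {y : D} (hy : y ∈ S) : Cp φ α y ⊆ S := by
  have inv : ∀ (a : Perm D), (∀ d ∈ S, a d ∈ S) → ∀ d, d ∈ S ↔ a d ∈ S := fun a ha d =>
    ⟨ha d, fun k => O_sub ha k ((mem_O _ _ _).2 (perm_sc_step a d).symm)⟩
  intro d hd
  have := perm_conn_le (s := Setoid.ker fun d => d ∈ S) (fun u => propext (inv φ h1 u))
    (fun u => propext (inv α h2 u)) ((mem_Cp _ _ _ _).1 hd)
  exact (Setoid.ker_def.1 this) ▸ hy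

theorem step_split {N : F → ℕ∞} (hN : Nm N) (val : D → F) {α ψ : Perm D} {x y : D}
    (hn : ¬ conn ψ α x y) (ih : Bd N val α ψ)
    {S : Finset D} (h1 : ∀ d ∈ S, ψ d ∈ S) (h2 : ∀ d ∈ S, α d ∈ S) (hx : x ∈ S) (hy : y ∈ S)
    (c : D → ℕ∞) {o : D} (ho : o ∈ S) (hoy : ¬ conn ψ α y o)
    (hc : ∀ z ∈ S, ¬ (swap x y * ψ).SameCycle o z →
      N (W (swap x y * ψ) val z) ≤ ∑ d ∈ O (swap x y * ψ) z, c d) :
    N (W (swap x y * ψ) val o) ≤ ∑ d ∈ S \ O (swap x y * ψ) o, c d := by
  have cs : ∀ {u v : D}, ψ.SameCycle u v → conn ψ α u v := fun k => perm_sc_le (perm_conn_a _ _) k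
  have h : ¬ ψ.SameCycle x y := fun k => hn (cs k)
  have hm : ∀ d, (swap x y * ψ).SameCycle x d ↔ ψ.SameCycle x d ∨ ψ.SameCycle y d := by
    intro d
    rw [← mem_O, O_merge h, Finset.mem_union, mem_O, mem_O]
  have oth : ∀ z, ¬ ψ.SameCycle x z → ¬ ψ.SameCycle y z →
      W (swap x y * ψ) val z = W ψ val z ∧ O (swap x y * ψ) z = O ψ z := by
    intro z k1 k2
    unfold W O
    rw [fl_other (fun k => k1 k.symm) (fun k => k2 k.symm)]
    exact ⟨rfl, rfl⟩
  have T1 : ∀ d ∈ Cp ψ α y, ψ d ∈ Cp ψ α y := fun d hd =>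
    (mem_Cp _ _ _ _).2 ((conn ψ α).trans' ((mem_Cp _ _ _ _).1 hd) (perm_conn_a _ _ d))
  have T2 : ∀ d ∈ Cp ψ α y, α d ∈ Cp ψ α y := fun d hd =>
    (mem_Cp _ _ _ _).2 ((conn ψ α).trans' ((mem_Cp _ _ _ _).1 hd) (perm_conn_b _ _ d))
  have TS : Cp ψ α y ⊆ S := Cp_sub h1 h2 hy
  have yT : y ∈ Cp ψ α y := (mem_Cp _ _ _ _).2 ((conn ψ α).refl' y)
  have U1 : ∀ d ∈ S \ Cp ψ α y, ψ d ∈ S \ Cp ψ α y := fun d hd => by
    rw [Finset.mem_sdiff, mem_Cp] at hd ⊢
    exact ⟨h1 d hd.1, fun k => hd.2 ((conn ψ α).trans' k ((conn ψ α).symm' (perm_conn_a _ _ d)))⟩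
  have U2 : ∀ d ∈ S \ Cp ψ α y, α d ∈ S \ Cp ψ α y := fun d hd => by
    rw [Finset.mem_sdiff, mem_Cp] at hd ⊢
    exact ⟨h2 d hd.1, fun k => hd.2 ((conn ψ α).trans' k ((conn ψ α).symm' (perm_conn_b _ _ d)))⟩
  have xU : x ∈ S \ Cp ψ α y := by
    rw [Finset.mem_sdiff, mem_Cp]
    exact ⟨hx, fun k => hn ((conn ψ α).symm' k)⟩
  have oU : o ∈ S \ Cp ψ α y := by
    rw [Finset.mem_sdiff, mem_Cp]
    exact ⟨ho, hoy⟩
  have nx : ∀ z ∈ Cp ψ α y, ¬ ψ.SameCycle x z := fun z hz k =>
    hn ((conn ψ α).trans' (cs k) ((conn ψ α).symm' ((mem_Cp _ _ _ _).1 hz)))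
  have ny : ∀ z ∈ S \ Cp ψ α y, ¬ ψ.SameCycle y z := fun z hz k =>
    (Finset.mem_sdiff.1 hz).2 ((mem_Cp _ _ _ _).2 (cs k))
  have so : ∀ z ∈ Cp ψ α y, ¬ ψ.SameCycle y z → ¬ (swap x y * ψ).SameCycle o z := by
    intro z hz k1 k2
    have := (mem_O _ _ _).2 k2.symm
    rw [(oth z (nx z hz) k1).2] at this
    exact (Finset.mem_sdiff.1 oU).2 (O_sub T1 hz this)
  have ky : N (W ψ val y) ≤ ∑ d ∈ Cp ψ α y \ O ψ y, c d :=
    ih _ T1 T2 c y yT fun z hz k => by
      rw [← (oth z (nx z hz) k).1, ← (oth z (nx z hz) k).2]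
      exact hc z (TS hz) (so z hz k)
  by_cases hox : ψ.SameCycle x o
  · have hox' : (swap x y * ψ).SameCycle x o := (hm o).2 (Or.inl hox)
    have kx : N (W ψ val x) ≤ ∑ d ∈ (S \ Cp ψ α y) \ O ψ x, c d :=
      ih _ U1 U2 c x xU fun z hz k => by
        rw [← (oth z k (ny z hz)).1, ← (oth z k (ny z hz)).2]
        refine hc z (Finset.mem_sdiff.1 hz).1 fun k' => ?_
        rcases (hm z).1 (hox'.trans k') with j | j
        · exact k j
        · exact ny z hz j
    rw [← hN.sc val hox', ← O_eq hox', W_merge val h, O_merge h]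
    refine (hN.mul _ _).trans ((add_le_add kx ky).trans ?_)
    rw [← Finset.sum_union]
    · refine Finset.sum_le_sum_of_subset fun d hd => ?_
      rw [Finset.mem_union] at hd
      rw [Finset.mem_sdiff, Finset.mem_union, mem_O, mem_O]
      rcases hd with hd | hd
      · rw [Finset.mem_sdiff, mem_O] at hd
        exact ⟨(Finset.mem_sdiff.1 hd.1).1, fun k => k.elim hd.2 (ny d hd.1)⟩
      · rw [Finset.mem_sdiff, mem_O] at hd
        exact ⟨TS hd.1, fun k => k.elim (nx d hd.1) hd.2⟩
    · exact Finset.disjoint_left.2 fun d k1 k2 =>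
        (Finset.mem_sdiff.1 (Finset.mem_sdiff.1 k1).1).2 (Finset.mem_sdiff.1 k2).1
  · have eo := oth o hox (ny o oU)
    have hox' : ¬ (swap x y * ψ).SameCycle o x := fun k =>
      ((hm o).1 k.symm).elim hox (ny o oU)
    have kx := hc x hx hox'
    rw [W_merge val h, O_merge h, Finset.sum_union (O_disj h)] at kx
    have sy : ∑ d ∈ O ψ y, c d + ∑ d ∈ Cp ψ α y \ O ψ y, c d = ∑ d ∈ Cp ψ α y, c d := by
      rw [add_comm, Finset.sum_sdiff (O_sub T1 yT)]
    have sm : ∀ A : Finset D, ∑ d ∈ A, (c d + if d = x then ∑ e ∈ Cp ψ α y, c e else 0) =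
        ∑ d ∈ A, c d + if x ∈ A then ∑ e ∈ Cp ψ α y, c e else 0 := fun A => by
      rw [Finset.sum_add_distrib, Finset.sum_ite_eq']
    have k := ih _ U1 U2 (fun d => c d + if d = x then ∑ e ∈ Cp ψ α y, c e else 0) o oU
      fun z hz k => by
        rw [sm]
        by_cases hxz : ψ.SameCycle x z
        · rw [← hN.sc val hxz, ← O_eq hxz, if_pos ((mem_O _ _ _).2 (Perm.SameCycle.refl _ _)),
            ← sy, ← add_assoc]
          exact (hN.left _ _).trans (add_le_add kx ky)
        · refine le_trans ?_ le_self_add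
          rw [← (oth z hxz (ny z hz)).1, ← (oth z hxz (ny z hz)).2]
          refine hc z (Finset.mem_sdiff.1 hz).1 fun k' => k ?_
          rw [← mem_O, ← eo.2, mem_O]
          exact k'
    rw [sm] at k
    rw [eo.1, eo.2]
    refine k.trans (le_trans (add_le_add le_rfl (d := ∑ e ∈ Cp ψ α y, c e) ?_) ?_)
    · split_ifs
      · exact le_rfl
      · exact zero_le
    · rw [← Finset.sum_union]
      · refine Finset.sum_le_sum_of_subset fun d hd => ?_
        rw [Finset.mem_union] at hd
        rw [Finset.mem_sdiff]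
        rcases hd with hd | hd
        · rw [Finset.mem_sdiff] at hd
          exact ⟨(Finset.mem_sdiff.1 hd.1).1, hd.2⟩
        · exact ⟨TS hd, fun k => (Finset.mem_sdiff.1 (O_sub U1 oU k)).2 hd⟩
      · exact Finset.disjoint_left.2 fun d k1 k2 =>
          (Finset.mem_sdiff.1 (Finset.mem_sdiff.1 k1).1).2 k2

theorem conv {N : F → ℕ∞} (hN : Nm N) (val : D → F) {α : Perm D} (hα : ∀ d, α (α d) = d)
    (hf : ∀ d, α d ≠ d) (hv : ∀ d, val (α d) = (val d)⁻¹) (φ : Perm D) (h : Gen0 φ α) :
    Bd N val α φ := by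
  induction hn : Nat.card D - cyc (φ * α) using Nat.strong_induction_on generalizing φ with
  | _ n ih =>
  intro S h1 h2 c o ho hc
  by_cases hb : ∀ x ∈ S, φ (α x) = x
  · have e1 : φ o = α o := by
      have := hb _ (h2 o ho)
      rwa [hα] at this
    have e : fl φ o = [o, α o] := by
      refine Face.fl_eq (face_cons.2 ⟨?_, ?_⟩)
      · simp [(hf o).symm]
      · simp [e1, hb o ho]
    have : W φ val o = 1 := by
      unfold W
      rw [e]
      simp [hv]
    rw [this, hN.one]
    exact zero_le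
  · push Not at hb
    obtain ⟨x, hx, hxy⟩ := hb
    obtain ⟨y, hy⟩ : ∃ y, y = φ (α x) := ⟨_, rfl⟩
    rw [← hy] at hxy
    have yS : y ∈ S := hy ▸ h1 _ (h2 x hx)
    have sv : (φ * α).SameCycle x y := hy ▸ perm_sc_step (φ * α) x
    have g' := gen0_face φ α h x y sv
    have a2 := cyc_swap_same _ x y hxy.symm sv
    rw [cyc_mul_comm, ← mul_assoc] at a2
    have a3 := perm_cyc_le_card (swap x y * φ * α)
    have IH := ih _ (by omega) (swap x y * φ) g' rfl
    by_cases hs : φ.SameCycle x y
    · have nc := not_conn_split h hxy.symm hs sv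
      have h1' : ∀ d ∈ S, (swap x y * φ) d ∈ S := fun d hd => swap_mem hx yS (h1 d hd)
      have e : swap x y * (swap x y * φ) = φ := by rw [← mul_assoc, swap_mul_self, one_mul]
      by_cases hoy : conn (swap x y * φ) α y o
      · have := step_split hN val (x := y) (y := x) (fun k => nc ((conn _ _).symm' k)) IH h1' h2
          yS hx c ho (fun k => nc ((conn _ _).trans' k ((conn _ _).symm' hoy)))
        rw [swap_comm y x, e] at this
        exact this hc
      · have := step_split hN val nc IH h1' h2 hx yS c ho hoy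
        rw [e] at this
        exact this hc
    · by_cases hoy : φ.SameCycle o y
      · rw [swap_comm] at IH
        exact step_merge hN val (fun k => hs k.symm) IH h1 h2 yS hx c ho
          (fun k => hs (k.symm.trans hoy)) hc
      · exact step_merge hN val hs IH h1 h2 hx yS c ho hoy hc

theorem Face.W_eq {φ : Perm D} (val : D → F) {x : D} {t : List D} (h : Face φ (x :: t)) :
    W φ val x = ((x :: t).map val).prod := by
  unfold W
  rw [h.fl_eq]

theorem Face.split {φ : Perm D} {x y : D} {s t : List D} (h : Face φ ((x :: s) ++ (y :: t))) :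
    Face (Equiv.swap x y * φ) (x :: s) := by
  obtain ⟨n, m⟩ := face_cons.1 h
  change ((x :: s) ++ (y :: t)).Nodup at n
  change ((x :: s) ++ (y :: t)).map φ = _ at m
  obtain ⟨n1, -, n3⟩ := List.nodup_append.1 n
  have e : (x :: s).map φ = s ++ [y] := by
    rw [List.map_append] at m
    have m' : (x :: s).map φ ++ (y :: t).map φ = (s ++ [y]) ++ (t ++ [x]) := by
      rw [m]
      simp
    exact (List.append_inj m' (by simp)).1
  refine face_cons.2 ⟨n1, ?_⟩
  have e2 : (x :: s).map (Equiv.swap x y * φ) = ((x :: s).map φ).map (Equiv.swap x y) := by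
    rw [List.map_map]
    rfl
  rw [e2, e, List.map_append, map_swap_of (List.nodup_cons.1 n1).1
    (fun k => n3 y (List.mem_cons_of_mem _ k) y List.mem_cons_self rfl)]
  simp

open Classical in
theorem nm_ind (K : Subgroup F) [hK : K.Normal] : Nm fun g : F => if g ∈ K then (0 : ℕ∞) else ⊤ := by
  refine ⟨by simp, fun g h => ?_, fun g => by simp, fun g h => ?_⟩
  · by_cases a : g ∈ K
    · by_cases b : h ∈ K
      · simp [K.mul_mem a b]
      · simp [b]
    · simp [a]
  · by_cases a : h * g ∈ K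
    · simp [hK.mem_comm a]
    · simp [a]

/-- if all faces of an invariant set but one lie in a normal subgroup, so does the last one -/
theorem conv_mem (K : Subgroup F) [K.Normal] (val : D → F) {α φ : Perm D}
    (hα : ∀ d, α (α d) = d) (hf : ∀ d, α d ≠ d) (hv : ∀ d, val (α d) = (val d)⁻¹)
    (h : Gen0 φ α) {S : Finset D} (h1 : ∀ d ∈ S, φ d ∈ S) (h2 : ∀ d ∈ S, α d ∈ S) {o : D}
    (ho : o ∈ S) (hc : ∀ z ∈ S, ¬ φ.SameCycle o z → W φ val z ∈ K) : W φ val o ∈ K := by
  classical
  have := conv (nm_ind K) val hα hf hv φ h S h1 h2 (fun _ => 0) o ho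
    (fun z hz k => by simp [hc z hz k])
  by_contra k
  simp [k] at this

/-- a face (not the outer one) that passes twice through one vertex: both arcs are trivial -/
theorem selfglue (K : Subgroup F) [hK : K.Normal] (val : D → F) {α φ : Perm D}
    (hα : ∀ d, α (α d) = d) (hf : ∀ d, α d ≠ d) (hv : ∀ d, val (α d) = (val d)⁻¹)
    (h : Gen0 φ α) (o : D) (hc : ∀ z, ¬ φ.SameCycle o z → W φ val z ∈ K)
    {x y : D} {s t : List D} (hF : Face φ ((x :: s) ++ (y :: t))) (hox : ¬ φ.SameCycle o x)
    (hxy : (φ * α).SameCycle x y) :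
    ((x :: s).map val).prod ∈ K ∧ ((y :: t).map val).prod ∈ K := by
  have f1 := hF.split
  have f2 := hF.swap.split
  rw [swap_comm] at f2
  have hs : φ.SameCycle x y := (Face.sc (t := s ++ y :: t) hF y).1 (by simp)
  have ne : x ≠ y := fun e =>
    (List.nodup_append.1 hF.1).2.2 x List.mem_cons_self y List.mem_cons_self e
  have nc := not_conn_split h ne hs hxy
  have g' := gen0_face φ α h x y hxy
  have tot : ((x :: s).map val).prod * ((y :: t).map val).prod ∈ K := by
    have := hc x hox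
    rw [Face.W_eq val (t := s ++ y :: t) hF] at this
    rw [← List.prod_append, ← List.map_append]
    exact this
  have cs : ∀ {u v : D}, (swap x y * φ).SameCycle u v → conn (swap x y * φ) α u v := fun k =>
    perm_sc_le (perm_conn_a _ _) k
  have e : swap x y * (swap x y * φ) = φ := by rw [← mul_assoc, swap_mul_self, one_mul]
  have key : ∀ w, (w = x ∨ w = y) → ¬ conn (swap x y * φ) α w o → W (swap x y * φ) val w ∈ K := by
    intro w hw hn
    refine conv_mem K val hα hf hv g' (S := Cp (swap x y * φ) α w) (fun d hd =>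
      (mem_Cp _ _ _ _).2 ((conn _ _).trans' ((mem_Cp _ _ _ _).1 hd) (perm_conn_a _ _ d)))
      (fun d hd =>
      (mem_Cp _ _ _ _).2 ((conn _ _).trans' ((mem_Cp _ _ _ _).1 hd) (perm_conn_b _ _ d)))
      ((mem_Cp _ _ _ _).2 ((conn _ _).refl' w)) fun z hz k => ?_
    rw [mem_Cp] at hz
    have zx : ¬ (swap x y * φ).SameCycle z x := fun j => by
      rcases hw with rfl | rfl
      · exact k j.symm
      · exact nc ((conn _ _).symm' ((conn _ _).trans' hz (cs j)))
    have zy : ¬ (swap x y * φ).SameCycle z y := fun j => by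
      rcases hw with rfl | rfl
      · exact nc ((conn _ _).trans' hz (cs j))
      · exact k j.symm
    have e1 := fl_other zx zy
    rw [e] at e1
    have e2 : W (swap x y * φ) val z = W φ val z := by
      unfold W
      rw [e1]
    rw [e2]
    refine hc z fun j => hn ((conn _ _).trans' hz (cs ?_))
    rw [← mem_fl, ← e1, mem_fl]
    exact j.symm
  by_cases hyo : conn (swap x y * φ) α y o
  · have k := key x (Or.inl rfl) fun j => nc ((conn _ _).trans' j ((conn _ _).symm' hyo))
    rw [f1.W_eq] at k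
    exact ⟨k, (K.mul_mem_cancel_left k).1 tot⟩
  · have k := key y (Or.inr rfl) hyo
    rw [f2.W_eq] at k
    exact ⟨(K.mul_mem_cancel_right k).1 tot, k⟩

/-- budgets placed on the first darts of the listed faces -/
noncomputable def bud (M : List D → ℕ∞) : List (List D) → D → ℕ∞
  | [], _ => 0
  | l :: ls, d => (if l.head? = some d then M l else 0) + bud M ls d

omit [Fintype D] in
theorem bud_sum (M : List D → ℕ∞) (ls : List (List D)) (A : Finset D) :
    ∑ d ∈ A, bud M ls d ≤ (ls.map M).sum := by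
  induction ls with
  | nil => simp [bud]
  | cons l ls ih =>
    simp only [bud, List.map_cons, List.sum_cons, Finset.sum_add_distrib]
    refine add_le_add ?_ ih
    cases l with
    | nil => simp
    | cons x t =>
      simp only [List.head?_cons, Option.some.injEq, Finset.sum_ite_eq]
      split_ifs
      · exact le_rfl
      · exact zero_le

omit [Fintype D] in
theorem bud_ge (M : List D → ℕ∞) {ls : List (List D)} {x : D} {t : List D} (h : x :: t ∈ ls) :
    M (x :: t) ≤ bud M ls x := by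
  induction ls with
  | nil => simp at h
  | cons l ls ih =>
    rcases List.mem_cons.1 h with rfl | h
    · simp [bud]
    · exact (ih h).trans le_add_self

/-- the outer face is bounded by the sum over the listed faces -/
theorem conv_list {N : F → ℕ∞} (hN : Nm N) (val : D → F) {α φ : Perm D}
    (hα : ∀ d, α (α d) = d) (hf : ∀ d, α d ≠ d) (hv : ∀ d, val (α d) = (val d)⁻¹)
    (h : Gen0 φ α) {l0 : List D} (h0 : Face φ l0) (ls : List (List D))
    (hl : ∀ l ∈ ls, Face φ l) (hcov : ∀ d, d ∈ l0 ∨ ∃ l ∈ ls, d ∈ l) :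
    N (l0.map val).prod ≤ (ls.map fun l => N (l.map val).prod).sum := by
  cases l0 with
  | nil => simp [hN.one]
  | cons o t0 =>
    rw [← h0.W_eq]
    refine (conv hN val hα hf hv φ h Finset.univ (fun _ _ => Finset.mem_univ _)
      (fun _ _ => Finset.mem_univ _) (bud (fun l => N (l.map val).prod) ls) o (Finset.mem_univ _)
      fun z _ k => ?_).trans (bud_sum _ _ _)
    rcases hcov z with j | ⟨l, j1, j2⟩
    · exact absurd ((h0.sc z).1 j) k
    · cases l with
      | nil => simp at j2
      | cons x t =>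
        have sc := ((hl _ j1).sc z).1 j2
        rw [← hN.sc val sc, (hl _ j1).W_eq]
        exact (bud_ge _ j1).trans (Finset.single_le_sum (fun _ _ => zero_le)
          ((mem_O _ _ _).2 sc.symm))

end Main

end Pool.Agent.Lib.VK.Conv
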