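import Pool.Agent.Lib.MP_bfaad3_co.Perm

/-!
# Spherical diagrams as pairs of permutations: faces as lists of darts
-/

namespace Pool.Agent.Lib.VK

open Equiv Pool.Agent.Lib.MP_bfaad3_co

variable {D : Type}

/-- the lists in `fs` are the cycles of `φ` -/
structure Fs (φ : Perm D) (fs : Multiset (List D)) : Prop where
  rot : ∀ l ∈ fs, l.map φ = l.rotate 1
  nd : (fs.bind fun l => (l : Multiset D)).Nodup
  all : ∀ d, ∃ l ∈ fs, d ∈ l

theorem rot_cons (a : D) (A : List D) : (a :: A).rotate 1 = A ++ [a] := by simp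

theorem Fs.nil {φ : Perm D} {T : Multiset (List D)} : Fs φ ([] ::ₘ T) ↔ Fs φ T := by
  refine ⟨fun h => ⟨fun l hl => h.rot l (by simp [hl]), by simpa using h.nd, fun d => ?_⟩,
    fun h => ⟨fun l hl => ?_, by simpa using h.nd, fun d => ?_⟩⟩
  · simpa using h.all d
  · rcases Multiset.mem_cons.1 hl with rfl | hl
    · rfl
    · exact h.rot l hl
  · simpa using h.all d

theorem Fs.swap {φ : Perm D} {A B : List D} {T : Multiset (List D)} (h : Fs φ ((A ++ B) ::ₘ T)) :
    Fs φ ((B ++ A) ::ₘ T) := by
  refine ⟨fun l hl => ?_, ?_, fun d => ?_⟩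
  · rcases Multiset.mem_cons.1 hl with rfl | hl
    · have h1 := h.rot (A ++ B) (by simp)
      rw [← List.rotate_append_length_eq A B, List.map_rotate, h1, List.rotate_rotate,
        List.rotate_rotate, add_comm]
    · exact h.rot l (by simp [hl])
  · have := h.nd
    simp only [Multiset.cons_bind, ← Multiset.coe_add] at this ⊢
    rwa [add_comm (B : Multiset D)]
  · have := h.all d
    simp only [Multiset.mem_cons, exists_eq_or_imp, List.mem_append] at this ⊢
    rwa [or_comm (a := d ∈ B)]

theorem sc_of_map {φ : Perm D} {a b : D} {A : List D} (h : (a :: A).map φ = A ++ [b]) :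
    φ.SameCycle a b := by
  induction A generalizing a with
  | nil => exact ⟨1, by simpa using h⟩
  | cons c A ih =>
    simp only [List.map_cons, List.cons_append, List.cons.injEq] at h
    exact Perm.SameCycle.trans ⟨1, by simpa using h.1⟩ (ih (by simpa using h.2))

variable [DecidableEq D]

theorem map_swap {a b : D} {A : List D} (ha : a ∉ A) (hb : b ∉ A) : A.map (swap a b) = A := by
  conv_rhs => rw [← List.map_id A]
  exact List.map_congr_left fun x hx =>
    swap_apply_of_ne_of_ne (fun e => ha (e ▸ hx)) fun e => hb (e ▸ hx)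

theorem rot_other {φ : Perm D} {a b : D} {l : List D} (h : l.map φ = l.rotate 1) (ha : a ∉ l)
    (hb : b ∉ l) : l.map (swap a b * φ : Perm D) = l.rotate 1 := by
  rw [Perm.coe_mul, ← List.map_map, h]
  exact map_swap (by simpa using ha) (by simpa using hb)

omit [DecidableEq D] in
theorem nd_facts {a b : D} {A B : List D} {T : Multiset (List D)}
    (h : (((a :: A ++ b :: B) ::ₘ T).bind fun l => (l : Multiset D)).Nodup) :
    a ∉ A ∧ b ∉ A ∧ a ∉ B ∧ b ∉ B ∧ ∀ l ∈ T, a ∉ l ∧ b ∉ l := by
  rw [Multiset.cons_bind, Multiset.nodup_add, Multiset.coe_nodup] at h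
  obtain ⟨h1, -, h2⟩ := h
  rw [Multiset.disjoint_left] at h2
  simp only [List.cons_append, List.nodup_cons, List.mem_append, List.mem_cons, not_or,
    List.nodup_append] at h1
  refine ⟨h1.1.1, fun hb => h1.2.2.2 b hb b (Or.inl rfl) rfl, h1.1.2.2, h1.2.2.1.1,
    fun l hl => ⟨fun hx => ?_, fun hx => ?_⟩⟩
  · exact h2 (a := a) (by simp) (Multiset.mem_bind.2 ⟨l, hl, hx⟩)
  · exact h2 (a := b) (by simp) (Multiset.mem_bind.2 ⟨l, hl, hx⟩)

omit [DecidableEq D] in
theorem bind_two (A B : List D) (T : Multiset (List D)) :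
    ((A ::ₘ B ::ₘ T).bind fun l => (l : Multiset D)) =
      ((A ++ B) ::ₘ T).bind fun l => (l : Multiset D) := by
  simp only [Multiset.cons_bind, ← Multiset.coe_add, add_assoc]

theorem Fs.merge {φ : Perm D} {a b : D} {A B : List D} {T : Multiset (List D)}
    (h : Fs φ ((a :: A) ::ₘ (b :: B) ::ₘ T)) :
    Fs (Equiv.swap a b * φ) ((a :: A ++ b :: B) ::ₘ T) := by
  have nd := h.nd
  rw [bind_two] at nd
  obtain ⟨n1, n2, n3, n4, n5⟩ := nd_facts nd
  refine ⟨fun l hl => ?_, nd, fun d => by simpa [or_assoc] using h.all d⟩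
  rcases Multiset.mem_cons.1 hl with rfl | hl
  · have h1 := h.rot (a :: A) (by simp)
    have h2 := h.rot (b :: B) (by simp)
    rw [Perm.coe_mul, ← List.map_map, List.map_append, h1, h2, List.cons_append, rot_cons,
      rot_cons, rot_cons]
    simp [map_swap n1 n2, map_swap n3 n4]
  · exact rot_other (h.rot l (by simp [hl])) (n5 l hl).1 (n5 l hl).2

theorem Fs.split {φ : Perm D} {a b : D} {A B : List D} {T : Multiset (List D)}
    (h : Fs φ ((a :: A ++ b :: B) ::ₘ T)) :
    Fs (Equiv.swap a b * φ) ((a :: A) ::ₘ (b :: B) ::ₘ T) ∧ φ.SameCycle a b := by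
  obtain ⟨n1, n2, n3, n4, n5⟩ := nd_facts h.nd
  have h1 := h.rot (a :: A ++ b :: B) (by simp)
  rw [List.map_append, List.cons_append, rot_cons,
    show A ++ b :: B ++ [a] = (A ++ [b]) ++ (B ++ [a]) by simp] at h1
  obtain ⟨h2, h3⟩ := List.append_inj h1 (by simp)
  refine ⟨⟨fun l hl => ?_, by rw [bind_two]; exact h.nd,
    fun d => by simpa [or_assoc] using h.all d⟩, sc_of_map h2⟩
  rcases Multiset.mem_cons.1 hl with rfl | hl
  · rw [Perm.coe_mul, ← List.map_map, h2, rot_cons]
    simp [map_swap n1 n2]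
  rcases Multiset.mem_cons.1 hl with rfl | hl
  · rw [Perm.coe_mul, ← List.map_map, h3, rot_cons]
    simp [map_swap n3 n4]
  · exact rot_other (h.rot l (by simp [hl])) (n5 l hl).1 (n5 l hl).2

variable [Finite D]

theorem gen0_split' {a b : Perm D} (h : Gen0 a b) {x y : D} (hs : a.SameCycle x y) :
    Gen0 (swap x y * a) b := by
  rw [swap_mul_eq_mul_swap]
  exact gen0_split a b h _ _ (by simpa using hs)

theorem gen0_join {a b : Perm D} (h : Gen0 a b) {x y : D} (hs : ¬ conn a b x y) :
    Gen0 (swap x y * a) b := by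
  have s1 : ¬ a.SameCycle x y := fun k => hs (perm_sc_le (perm_conn_a a b) k)
  have s2 : ¬ (a * b).SameCycle x y := fun k => hs (perm_sc_le (perm_conn_ab a b) k)
  have h1 := cyc_swap_diff a x y s1
  have h2 := cyc_swap_diff _ x y s2
  have h3 := perm_card_eq_succ (conn a b) x y hs
  have hxy : conn (swap x y * a) b x y := perm_sc_le (perm_conn_a _ _) (perm_sc_swap' a x y s1)
  have h4 : comp (swap x y * a) b ≤ Nat.card (Quotient (perm_mrg (conn a b) x y)) := by
    have key : ∀ u v, conn a b u v → conn (swap x y * a) b u v := fun u v huv => by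
      refine perm_conn_le (fun w => ?_) (perm_conn_b _ _) huv
      have k := perm_conn_a (swap x y * a) b w
      have k' := perm_mrg_le hxy (perm_mrg_swap (conn (swap x y * a) b) x y ((swap x y * a) w))
      rw [Perm.mul_apply, swap_apply_self] at k'
      exact (conn _ _).trans' k k'
    refine perm_card_le fun u v huv => ?_
    rcases huv with k | ⟨k1, k2⟩ | ⟨k1, k2⟩
    · exact key u v k
    · exact (conn _ _).trans' (key _ _ k1) ((conn _ _).trans' hxy ((conn _ _).symm' (key _ _ k2)))
    · exact (conn _ _).trans' (key _ _ k1)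
        ((conn _ _).trans' ((conn _ _).symm' hxy) ((conn _ _).symm' (key _ _ k2)))
  have e : cyc (swap x y * a * b) = cyc (a * b * swap x y) := by
    rw [mul_assoc, cyc_mul_comm]
  have e' := cyc_mul_comm (swap x y) a
  unfold Gen0 at h ⊢
  unfold comp at h
  omega

omit [DecidableEq D] in
theorem cyc_sum_ge {E : Type} [Finite E] (a : Perm D) (a' : Perm E) :
    cyc a + cyc a' ≤ cyc (Equiv.sumCongr a a') := by
  unfold cyc
  rw [← Nat.card_sum]
  let f : D ⊕ E → Quotient (Perm.SameCycle.setoid a) ⊕ Quotient (Perm.SameCycle.setoid a') :=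
    Sum.map (Quotient.mk _) (Quotient.mk _)
  refine Nat.card_le_card_of_surjective (Quotient.lift f fun u v huv => ?_) ?_
  · refine perm_sc_le (s := Setoid.ker f) (fun w => ?_) huv
    rcases w with w | w
    · exact congrArg Sum.inl (Quotient.sound (perm_sc_step a w))
    · exact congrArg Sum.inr (Quotient.sound (perm_sc_step a' w))
  · rintro (q | q) <;> obtain ⟨w, rfl⟩ := Quotient.exists_rep q
    · exact ⟨Quotient.mk _ (Sum.inl w), rfl⟩
    · exact ⟨Quotient.mk _ (Sum.inr w), rfl⟩

omit [DecidableEq D] in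
theorem comp_sum_le {E : Type} [Finite E] (a b : Perm D) (a' b' : Perm E) :
    comp (Equiv.sumCongr a a') (Equiv.sumCongr b b') ≤ comp a b + comp a' b' := by
  unfold comp
  rw [← Nat.card_sum]
  refine Nat.card_le_card_of_surjective (Sum.elim
    (Quotient.map (sa := conn a b) Sum.inl fun u v huv => ?_)
    (Quotient.map (sa := conn a' b') Sum.inr fun u v huv => ?_)) fun q => ?_
  · exact perm_conn_le (s := Setoid.comap Sum.inl (conn (sumCongr a a') (sumCongr b b')))
      (fun w => perm_conn_a _ _ (Sum.inl w)) (fun w => perm_conn_b _ _ (Sum.inl w)) huv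
  · exact perm_conn_le (s := Setoid.comap Sum.inr (conn (sumCongr a a') (sumCongr b b')))
      (fun w => perm_conn_a _ _ (Sum.inr w)) (fun w => perm_conn_b _ _ (Sum.inr w)) huv
  · obtain ⟨w | w, rfl⟩ := Quotient.exists_rep q
    · exact ⟨Sum.inl (Quotient.mk _ w), rfl⟩
    · exact ⟨Sum.inr (Quotient.mk _ w), rfl⟩

omit [DecidableEq D] in
theorem gen0_sum {E : Type} [Finite E] {a b : Perm D} {a' b' : Perm E} (h : Gen0 a b)
    (h' : Gen0 a' b') : Gen0 (Equiv.sumCongr a a') (Equiv.sumCongr b b') := by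
  have h1 := cyc_sum_ge a a'
  have h2 := cyc_sum_ge b b'
  have h3 := cyc_sum_ge (a * b) (a' * b')
  have h4 := comp_sum_le a b a' b'
  have e : (Equiv.sumCongr a a' * Equiv.sumCongr b b' : Perm (D ⊕ E)) =
      Equiv.sumCongr (a * b) (a' * b') := Perm.sumCongr_mul a a' b b'
  unfold Gen0 at *
  rw [e, Nat.card_sum]
  omega

theorem gen0_bool : Gen0 (swap false true) (swap false true) := by
  have h1 : 1 ≤ cyc (swap false true) := Nat.card_pos
  have h2 : Nat.card Bool ≤ cyc (1 : Perm Bool) :=
    Nat.card_le_card_of_surjective (Quotient.lift id fun u v huv => by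
      simpa using (Perm.sameCycle_one.1 huv)) fun q => ⟨Quotient.mk _ q, rfl⟩
  have h3 : comp (swap false true) (swap false true) ≤ 1 := by
    have k : conn (swap false true) (swap false true) false true := perm_conn_a _ _ false
    refine Finite.card_le_one_iff_subsingleton.2 ⟨fun p q => ?_⟩
    obtain ⟨u, rfl⟩ := Quotient.exists_rep p
    obtain ⟨v, rfl⟩ := Quotient.exists_rep q
    refine Quotient.sound ?_
    cases u <;> cases v
    · exact (conn _ _).refl' _
    · exact k
    · exact (conn _ _).symm' k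
    · exact (conn _ _).refl' _
  unfold Gen0
  rw [swap_mul_self]
  omega

end Pool.Agent.Lib.VK
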