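import Pool.Agent.Lib.VK.Sph

/-!
# Counting in genus zero maps and the reading of a face from a dart
-/

namespace Pool.Agent.Lib.VK

open Equiv Pool.Agent.Lib.MP_bfaad3_co Function

variable {D : Type}

theorem per_pos [Finite D] (σ : Perm D) (d : D) : 0 < minimalPeriod σ d :=
  minimalPeriod_pos_of_mem_periodicPts (σ.injective.mem_periodicPts d)

theorem cyc_le_sum [Fintype D] (σ : Perm D) (c : D → ℤ) (N : ℤ)
    (h : ∀ d, N ≤ ∑ i ∈ Finset.range (minimalPeriod σ d), c (σ^[i] d)) :
    N * cyc σ ≤ ∑ d, c d := by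
  classical
  letI : Fintype (Quotient (Perm.SameCycle.setoid σ)) := Fintype.ofFinite _
  rw [← Finset.sum_fiberwise Finset.univ (Quotient.mk (Perm.SameCycle.setoid σ)) c, cyc,
    Nat.card_eq_fintype_card, ← Finset.card_univ, mul_comm, ← nsmul_eq_mul]
  refine Finset.card_nsmul_le_sum _ _ _ fun q _ => ?_
  obtain ⟨d, rfl⟩ := Quotient.exists_rep q
  refine (h d).trans (le_of_eq (Finset.sum_bij (fun i _ => σ^[i] d) (fun i _ => ?_)
    (fun i hi j hj e => ?_) (fun b hb => ?_) fun _ _ => rfl))
  · exact Finset.mem_filter.2 ⟨Finset.mem_univ _,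
      Quotient.sound (Perm.SameCycle.symm ⟨i, by simp [Perm.iterate_eq_pow]⟩)⟩
  · exact iterate_injOn_Iio_minimalPeriod (by simpa using hi) (by simpa using hj) e
  · obtain ⟨n, rfl⟩ := (Perm.SameCycle.symm
      (Quotient.exact (Finset.mem_filter.1 hb).2)).exists_nat_pow_eq
    exact ⟨n % minimalPeriod σ d, Finset.mem_range.2 (Nat.mod_lt _ (per_pos σ d)),
      by rw [iterate_mod_minimalPeriod_eq, Perm.iterate_eq_pow]⟩

theorem cyc_edge [Fintype D] (α : Perm D) (h : ∀ d, α d ≠ d) :
    2 * (cyc α : ℤ) ≤ Fintype.card D := by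
  have := cyc_le_sum α (fun _ => 1) 2 fun d => by
    have h1 := per_pos α d
    have h2 : minimalPeriod α d ≠ 1 := fun e => h d (minimalPeriod_eq_one_iff_isFixedPt.1 e)
    simp only [Finset.sum_const, Finset.card_range, nsmul_eq_mul, mul_one]
    omega
  simpa using this

/-- a list which `φ` rotates -/
def Rd (φ : Perm D) (l : List D) : Prop := l.map φ = l.rotate 1 ∧ l.Nodup

variable {φ : Perm D} {fs : Multiset (List D)}

theorem Fs.rd (h : Fs φ fs) {l : List D} (hl : l ∈ fs) : Rd φ l :=
  ⟨h.rot l hl, Multiset.coe_nodup.1 ((Multiset.nodup_bind.1 h.nd).1 l hl)⟩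

theorem Rd.swap {A B : List D} (h : Rd φ (A ++ B)) : Rd φ (B ++ A) :=
  ⟨by rw [← List.rotate_append_length_eq A B, List.map_rotate, h.1, List.rotate_rotate,
    List.rotate_rotate, add_comm], List.nodup_append_comm.1 h.2⟩

theorem map_uniq {a b : D} {A A' : List D} (h : (a :: A).map φ = A ++ [b])
    (h' : (a :: A').map φ = A' ++ [b]) (n : b ∉ A) (n' : b ∉ A') : A = A' := by
  induction A generalizing a A' with
  | nil =>
    rcases A' with _ | ⟨c, A'⟩
    · rfl
    · simp only [List.map_cons, List.cons_append, List.cons.injEq, List.nil_append] at h h'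
      exact absurd (by rw [← h.1, h'.1]; simp) n'
  | cons c A ih =>
    rcases A' with _ | ⟨c', A'⟩
    · simp only [List.map_cons, List.cons_append, List.cons.injEq, List.nil_append] at h h'
      exact absurd (by rw [← h'.1, h.1]; simp) n
    · rw [List.map_cons, List.cons_append, List.cons.injEq] at h h'
      obtain rfl : c = c' := h.1.symm.trans h'.1
      rw [ih h.2 h'.2 (fun k => n (by simp [k])) fun k => n' (by simp [k])]

open Classical in
/-- the rest of the face of `d`, read from `d` -/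
noncomputable def rd (φ : Perm D) (d : D) : List D :=
  if h : ∃ A, Rd φ (d :: A) then h.choose else []

theorem Rd.eq {d : D} {A : List D} (h : Rd φ (d :: A)) : rd φ d = A := by
  have e : ∃ A, Rd φ (d :: A) := ⟨A, h⟩
  have h' := e.choose_spec
  rw [rd, dif_pos e]
  exact map_uniq (h'.1.trans (rot_cons _ _)) (h.1.trans (rot_cons _ _))
    (List.nodup_cons.1 h'.2).1 (List.nodup_cons.1 h.2).1

theorem Rd.mid {d : D} {A B : List D} (h : Rd φ (A ++ d :: B)) : rd φ d = B ++ A := h.swap.eq

theorem Fs.rd_self (h : Fs φ fs) (d : D) : Rd φ (d :: VK.rd φ d) := by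
  obtain ⟨l, hl, hd⟩ := h.all d
  obtain ⟨A, B, rfl⟩ := List.append_of_mem hd
  rw [(h.rd hl).mid]
  exact (h.rd hl).swap

theorem Fs.rd_next (h : Fs φ fs) (d : D) : φ d :: VK.rd φ (φ d) = VK.rd φ d ++ [d] := by
  have h1 := h.rd_self d
  have h2 := h1.1
  rw [rot_cons] at h2
  have h3 : Rd φ (VK.rd φ d ++ [d]) := Rd.swap (A := [d]) h1
  rw [← h2] at h3 ⊢
  rw [List.map_cons] at h3 ⊢
  rw [h3.eq]

theorem Rd.map_rd {l : List D} (h : Rd φ l) :
    l.map (fun d => d :: rd φ d) = (List.range l.length).map l.rotate := by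
  refine List.ext_getElem (by simp) fun i h1 h2 => ?_
  have hi : i < l.length := by simpa using h1
  have e : l.take i ++ l[i] :: l.drop (i + 1) = l := by
    rw [← List.drop_eq_getElem_cons, List.take_append_drop]
  simp only [List.getElem_map, List.getElem_range]
  rw [List.rotate_eq_drop_append_take hi.le, List.drop_eq_getElem_cons hi,
    Rd.mid (A := l.take i) (B := l.drop (i + 1)) (by rwa [e])]
  rfl

theorem Fs.sum [Fintype D] (h : Fs φ fs) (g : D → ℤ) :
    ∑ d, g d = (fs.map fun l => (l.map g).sum).sum := by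
  have e : (Finset.univ : Finset D).val = fs.bind fun l => (l : Multiset D) :=
    (Multiset.Nodup.ext Finset.univ.nodup h.nd).2 fun d => by simpa using h.all d
  rw [Finset.sum, e, Multiset.map_bind, Multiset.sum_bind]
  simp

theorem Fs.cyc_le [Finite D] (h : Fs φ fs) : cyc φ ≤ fs.card := by
  classical
  letI : Fintype (Quotient (Perm.SameCycle.setoid φ)) := Fintype.ofFinite _
  have : (Finset.univ : Finset (Quotient (Perm.SameCycle.setoid φ))).val.map some ≤
      fs.map fun l => l.head?.map (Quotient.mk _) := by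
    refine (Multiset.le_iff_subset (Finset.univ.nodup.map (Option.some_injective _))).2
      fun q hq => ?_
    obtain ⟨q, -, rfl⟩ := Multiset.mem_map.1 hq
    obtain ⟨d, rfl⟩ := Quotient.exists_rep q
    obtain ⟨l, hl, hd⟩ := h.all d
    refine Multiset.mem_map.2 ⟨l, hl, ?_⟩
    obtain ⟨A, B, rfl⟩ := List.append_of_mem hd
    rcases A with _ | ⟨a, A⟩
    · rfl
    · have h1 := h.rot _ hl
      rw [List.map_append, List.cons_append, rot_cons,
        show A ++ d :: B ++ [a] = (A ++ [d]) ++ (B ++ [a]) by simp] at h1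
      exact congrArg some (Quotient.sound (sc_of_map (List.append_inj h1 (by simp)).1))
  have := Multiset.card_le_card this
  rw [cyc, Nat.card_eq_fintype_card]
  simpa using this

/-- the combinatorial Gauss-Bonnet inequality -/
theorem gauss_bonnet [Fintype D] {α : Perm D} {o : List D} (h : Fs φ (o ::ₘ fs))
    (hg : Gen0 φ α) (hα : ∀ d, α d ≠ d) (ho : o ≠ []) (v u : D → ℤ) (N : ℤ) (hN : 0 ≤ N)
    (hv : ∀ d, N ≤ ∑ i ∈ Finset.range (minimalPeriod (φ * α) d), v ((φ * α)^[i] d))
    (he : ∀ d, v d + v (α d) + u d + u (α d) ≤ N) (hf : ∀ l ∈ fs, N ≤ (l.map u).sum) :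
    (o.map u).sum ≤ -N := by
  have h1 := cyc_le_sum _ v N hv
  have h2 := cyc_edge α hα
  have h3 := h.cyc_le
  have h4 := h.sum u
  have h5 : fs.card • N ≤ (fs.map fun l => (l.map u).sum).sum := by
    rw [← Multiset.card_map (fun l => (l.map u).sum) fs]
    refine Multiset.card_nsmul_le_sum fun x hx => ?_
    obtain ⟨l, hl, rfl⟩ := Multiset.mem_map.1 hx
    exact hf l hl
  have h6 := Finset.sum_le_card_nsmul Finset.univ _ _ fun d _ => he d
  simp only [Finset.sum_add_distrib, Equiv.sum_comp α, Finset.card_univ] at h6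
  have h7 : 1 ≤ MP_bfaad3_co.comp φ α := by
    obtain ⟨a, -⟩ := List.exists_mem_of_ne_nil o ho
    have : Nonempty (Quotient (conn φ α)) := ⟨Quotient.mk _ a⟩
    exact Nat.card_pos
  unfold Gen0 at hg
  rw [Nat.card_eq_fintype_card] at hg
  rw [Multiset.map_cons, Multiset.sum_cons] at h4
  rw [Multiset.card_cons] at h3
  rw [nsmul_eq_mul] at h5 h6
  have h8 : (Fintype.card D : ℤ) + 2 ≤ 2 * fs.card + 2 * cyc (φ * α) := by omega
  nlinarith [mul_le_mul_of_nonneg_left h8 hN]

end Pool.Agent.Lib.VK
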