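import Pool.Agent.Lib.VK.WT

/-!
# The weight test modulo a group of symmetries
-/

namespace Pool.Agent.Lib.VK

variable {X G Q : Type} [Group G] [Group Q] [MulAction Q (X × Bool)]

/-- the action on corners -/
def act (g : Q) (p : Bool × List (X × Bool)) : Bool × List (X × Bool) := (p.1, p.2.map (g • ·))

/-- the corner `z` can follow the corner `x` round a vertex -/
def Gl (x z : Bool × List (X × Bool)) : Prop := ∃ a A B, x.2 = a :: A ∧ z.2 = B ++ [bar a]

theorem act_act (g h : Q) (p : Bool × List (X × Bool)) : act g (act h p) = act (g * h) p := by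
  simp [act, mul_smul]

theorem Gl.act (hb : ∀ (g : Q) (l : X × Bool), g • bar l = bar (g • l)) (g : Q)
    {x z : Bool × List (X × Bool)} (h : Gl x z) : Gl (act g x) (act g z) := by
  obtain ⟨a, A, B, h1, h2⟩ := h
  exact ⟨g • a, A.map (g • ·), B.map (g • ·), by simp [VK.act, h1], by simp [VK.act, h2, hb]⟩

theorem bar_bar (x : X × Bool) : bar (bar x) = x := by simp [bar]

theorem link_test {f : FreeGroup X →* G} {c : List (X × Bool) → ℕ}
    (hb : ∀ (g : Q) (l : X × Bool), g • bar l = bar (g • l))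
    (C : Set (Bool × List (X × Bool))) (hC : ∀ (g : Q), ∀ p ∈ C, act g p ∈ C)
    (hrot : ∀ s A B, (s, A ++ B) ∈ C → (s, B ++ A) ∈ C)
    (hinv : ∀ r, (false, r) ∈ C → (false, FreeGroup.invRev r) ∈ C)
    (h1 : ∀ x, (false, [x]) ∉ C) (hf : ∀ r, (false, r) ∈ C → f (FreeGroup.mk r) = 1)
    (hc : ∀ A B, c (A ++ B) = c (B ++ A)) {w : List (X × Bool)} (hw : w ≠ []) (hwC : (true, w) ∈ C)
    (F : Bool × List (X × Bool) → Bool × List (X × Bool) → Prop)
    (hF : ∀ n x, VCyc f {r | (false, r) ∈ C} c w n x → ∀ i, ¬ F (x i) (x (i + 1)))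
    (hF1 : ∀ (g : Q) x z, F (act g x) (act g z) → F x z)
    (hF2 : ∀ a A B s t, F (s, a :: A) (t, B ++ [bar a]) → F (t, bar a :: B) (s, A ++ [a]))
    (u : Bool → ℕ → ℤ) (N : ℤ) (hN : 0 ≤ N)
    (hu : ∀ r, (false, r) ∈ C → N ≤ r.length * u false r.length)
    (ho : -N < w.length * u true w.length)
    (n : ℕ) (nd : ℕ → Bool × List (X × Bool)) (W H : ℕ → ℕ → ℤ) (root : ℕ → Prop)
    (inj : ∀ j < n, ∀ k < n, nd j = nd k → j = k)
    (H1 : ∀ p ∈ C, ∃ (g : Q) (r : ℕ), r < n ∧ root r ∧ nd r = act g p)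
    (H2 : ∀ j < n, ∀ z ∈ C, Gl (nd j) z → ∃ k < n, nd k = z)
    (H3 : ∀ j < n, ∀ j' < n, ∀ k < n, ∀ k' < n, ∀ (g : Q) a A B s t, nd j = (s, a :: A) →
      nd j' = (t, B ++ [bar a]) → ¬ F (nd j) (nd j') → nd k = act g (t, bar a :: B) →
      nd k' = act g (s, A ++ [a]) →
      W j j' + W k k' + u s (A.length + 1) + u t (B.length + 1) ≤ N)
    (H4 : ∀ r < n, root r → N ≤ H r r ∧ ∀ k < n,
      (Gl (nd r) (nd k) → ¬ F (nd r) (nd k) → H r k ≤ W r k) ∧
      ∀ j < n, Gl (nd j) (nd k) → ¬ F (nd j) (nd k) → H r k ≤ H r j + W j k) :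
    FreeGroup.mk w ∉ Subgroup.normalClosure (FreeGroup.mk '' {r | (false, r) ∈ C}) := by
  classical
  let S : Bool × List (X × Bool) → Bool × List (X × Bool) → Set ℤ := fun x z =>
    {y | ∃ (g : Q) (j k : ℕ), j < n ∧ k < n ∧ nd j = act g x ∧ nd k = act g z ∧ y = W j k}
  have ok : ∀ p, Ok {r | (false, r) ∈ C} w p → p ∈ C := by
    rintro ⟨_ | _, r⟩ ⟨k1, k2⟩
    · exact k1 rfl
    · obtain ⟨i, hi, e⟩ := List.isRotated_iff_mod.1 (k2 rfl)
      rw [List.rotate_eq_drop_append_take hi] at e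
      change _ = r at e
      rw [← e]
      exact hrot _ _ _ (by rwa [List.take_append_drop])
  have ne : ∀ x ∈ C, ∀ z ∈ C, Gl x z → (S x z).Nonempty := fun x hx z hz hg => by
    obtain ⟨g, r, r1, -, r2⟩ := H1 x hx
    obtain ⟨k, k1, k2⟩ := H2 r r1 _ (hC g z hz) (r2 ▸ hg.act hb g)
    exact ⟨_, g, r, k, r1, k1, r2, k2, rfl⟩
  have bdd : ∀ x z, BddAbove (S x z) := fun x z =>
    (((Set.finite_Iio n).image2 W (Set.finite_Iio n)).subset (by
      rintro _ ⟨g, j, k, hj, hk, -, -, rfl⟩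
      exact ⟨j, hj, k, hk, rfl⟩)).bddAbove
  refine weight_test (f := f) (c := c) hinv (hrot false) h1 hf hc hw
    (fun x z => if F x z then -u x.1 x.2.length else sSup (S x z)) (fun p => u p.1 p.2.length)
    N hN (fun m x hx => ?_) (fun a A B s t o1 o2 => ?_) (fun r hr => ?_) ?_
  · obtain ⟨g, r, r1, r2, r3⟩ := H1 _ (ok _ (hx.ok 0))
    have gl : ∀ i, Gl (act g (x i)) (act g (x (i + 1))) := fun i => Gl.act hb g (hx.glue i)
    have ex : ∀ i, ∃ k < n, nd k = act g (x i) := fun i => by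
      induction i with
      | zero => exact ⟨r, r1, r3⟩
      | succ i ih =>
        obtain ⟨j, j1, j2⟩ := ih
        exact H2 j j1 _ (hC g _ (ok _ (hx.ok _))) (j2 ▸ gl i)
    choose k k1 k2 using ex
    have nF : ∀ i, ¬ F (nd (k i)) (nd (k (i + 1))) := fun i e =>
      hF m x hx i (hF1 g _ _ (by rwa [k2, k2] at e))
    have le : ∀ i, W (k i) (k (i + 1)) ≤ if F (x i) (x (i + 1)) then
        -u (x i).1 (x i).2.length else sSup (S (x i) (x (i + 1))) := fun i => by
      rw [if_neg (hF m x hx i)]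
      exact le_csSup (bdd _ _) ⟨g, _, _, k1 _, k1 _, k2 _, k2 _, rfl⟩
    have e0 : k 0 = r := inj _ (k1 0) _ r1 (by rw [k2, r3])
    have em : k m = r := inj _ (k1 m) _ r1 (by rw [k2, r3, ← hx.per 0, zero_add])
    obtain ⟨q1, q2⟩ := H4 r r1 r2
    have key : ∀ i, H r (k (i + 1)) ≤ ∑ j ∈ Finset.range (i + 1), W (k j) (k (j + 1)) := by
      intro i
      induction i with
      | zero =>
        rw [Finset.sum_range_one, e0]
        exact (q2 _ (k1 _)).1 (by rw [r3, k2]; exact gl 0) (e0 ▸ nF 0)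
      | succ i ih =>
        have := (q2 _ (k1 (i + 1 + 1))).2 _ (k1 (i + 1)) (by rw [k2, k2]; exact gl _) (nF _)
        rw [Finset.sum_range_succ]
        omega
    obtain ⟨m, rfl⟩ := Nat.exists_eq_succ_of_ne_zero hx.pos.ne'
    have := key m
    rw [show k (m + 1) = r from em] at this
    exact q1.trans (this.trans (Finset.sum_le_sum fun i _ => le i))
  · by_cases e : F (s, a :: A) (t, B ++ [bar a])
    · rw [if_pos e, if_pos (hF2 _ _ _ _ _ e)]
      dsimp only
      omega
    · have e' : ¬ F (t, bar a :: B) (s, A ++ [a]) := fun k => e (by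
        have := hF2 (bar a) B A t s (by rwa [bar_bar])
        rwa [bar_bar] at this)
      rw [if_neg e, if_neg e']
      have c1 := ok _ o1
      have c2 := ok _ o2
      have n1 := ne _ c1 (t, B ++ [bar a]) (hrot t [bar a] B c2) ⟨a, A, B, rfl, rfl⟩
      have n2 := ne _ c2 (s, A ++ [a]) (hrot s [a] A c1) ⟨bar a, B, A, rfl, by rw [bar_bar]⟩
      have : sSup (S (s, a :: A) (t, B ++ [bar a])) ≤ N - u s (A.length + 1) -
          u t (B.length + 1) - sSup (S (t, bar a :: B) (s, A ++ [a])) := by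
        refine csSup_le n1 ?_
        rintro _ ⟨g, j, j', j1, j2, j3, j4, rfl⟩
        have : sSup (S (t, bar a :: B) (s, A ++ [a])) ≤ N - u s (A.length + 1) -
            u t (B.length + 1) - W j j' := by
          refine csSup_le n2 ?_
          rintro _ ⟨g', k, k', k1, k2, k3, k4, rfl⟩
          have := H3 j j1 j' j2 k k1 k' k2 (g' * g⁻¹) (g • a) (A.map (g • ·)) (B.map (g • ·)) s t
            (by rw [j3]; rfl) (by rw [j4]; simp [act, hb])
            (fun k => e (hF1 g _ _ (by rwa [j3, j4] at k)))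
            (by rw [k3]; simp [act, ← hb, mul_smul]) (by rw [k4]; simp [act, mul_smul])
          simp only [List.length_map] at this
          omega
        omega
      simp only [List.length_cons]
      omega
  · simpa using hu r hr
  · simpa using ho

/-- two inner corners reading inverse words -/
def Mir (x z : Bool × List (X × Bool)) : Prop :=
  x.1 = false ∧ z.1 = false ∧ z.2 = FreeGroup.invRev x.2

theorem invRev_fix {B : List (X × Bool)} (hB : FreeGroup.IsReduced B)
    (e : FreeGroup.invRev B = B) : B = [] := by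
  have h1 : FreeGroup.mk B ^ 2 = 1 := by
    rw [pow_two, mul_eq_one_iff_eq_inv, FreeGroup.inv_mk, e]
  have h2 : FreeGroup.mk B = 1 := (pow_eq_one_iff_left two_ne_zero).1 h1
  classical
  have := congrArg FreeGroup.toWord h2
  rwa [FreeGroup.toWord_mk, hB.reduce_eq, FreeGroup.toWord_one] at this

theorem VCyc.not_mir {f : FreeGroup X →* G} {R : Set (List (X × Bool))} {w : List (X × Bool)}
    {c : List (X × Bool) → ℕ} {n : ℕ} {x : ℕ → Bool × List (X × Bool)} (h : VCyc f R c w n x)
    (hR : ∀ r ∈ R, FreeGroup.IsReduced r) (hc : ∀ r ∈ R, 0 < c r) (i : ℕ) :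
    ¬ Mir (x i) (x (i + 1)) := by
  rintro ⟨m1, m2, m3⟩
  have r1 := (h.ok i).1 m1
  by_cases hn : n = 1
  · subst hn
    rw [h.per] at m3
    obtain ⟨a, A, B, e, -⟩ := h.glue i
    rw [invRev_fix (hR _ r1) m3.symm] at e
    cases e
  · have := h.min i 1 0 (by have := h.pos; omega) (fun j hj => by
      obtain rfl | rfl : j = 0 ∨ j = 1 := by omega
      exacts [m1, m2]) (fun a b hab hb => by
      obtain rfl : b = 1 := by omega
      obtain rfl : a = 0 := by omega
      rintro ⟨A, B, -, hB, e1, e2, -⟩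
      rw [add_zero] at e1
      rw [m3, e1, FreeGroup.invRev_append] at e2
      have := hR _ r1
      rw [e1] at this
      exact hB (invRev_fix (List.IsChain.right_of_append this)
        (List.append_inj e2 (by simp)).1)) (by
      simp only [fan, add_zero, m3, ← FreeGroup.inv_mk, inv_mul_cancel]
      exact Area.one)
    have := hc _ r1
    simp only [Finset.sum_range_succ, Finset.range_zero, Finset.sum_empty, add_zero] at *
    omega

end Pool.Agent.Lib.VK
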