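import Pool.Agent.Lib.VK.Link
import Pool.Agent.Lib.VK.Conv

/-!
# Relative diagrams: normal form of a least counterexample
-/

namespace Pool.Agent.Lib.VK

open Equiv Pool.Agent.Lib.MP_bfaad3_co Function

section Area

variable {X : Type} {R : Set (List (X × Bool))} {c : List (X × Bool) → ℕ}

theorem Area.conj {g : FreeGroup X} {k : ℕ} (h : Area R c g k) (u : FreeGroup X) :
    Area R c (u * g * u⁻¹) k := by
  induction h with
  | one => simpa using Area.one
  | @mul g k v r hr _ ih =>
    have := ih.mul (u * v) hr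
    rwa [show u * v * FreeGroup.mk r * (u * v)⁻¹ * (u * g * u⁻¹) =
      u * (v * FreeGroup.mk r * v⁻¹ * g) * u⁻¹ by group] at this

theorem Area.append {g g' : FreeGroup X} {k k' : ℕ} (h : Area R c g k) (h' : Area R c g' k') :
    Area R c (g * g') (k + k') := by
  induction h with
  | one => simpa using h'
  | @mul g k v r hr _ ih =>
    have := ih.mul v hr
    rwa [← mul_assoc, ← add_assoc] at this

theorem Area.single {r : List (X × Bool)} (hr : r ∈ R) : Area R c (FreeGroup.mk r) (c r) := by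
  simpa using (Area.one (R := R) (c := c)).mul 1 hr

theorem area_of_mem' (hR : ∀ r ∈ R, ∃ k, Area R c (FreeGroup.mk r)⁻¹ k) {g : FreeGroup X}
    (hg : g ∈ Subgroup.normalClosure (FreeGroup.mk '' R)) : ∃ k, Area R c g k := by
  refine Subgroup.closure_induction_left (p := fun g _ => ∃ k, Area R c g k) ⟨0, Area.one⟩
    (fun x hx y _ ⟨k, hk⟩ => ?_) (fun x hx y _ ⟨k, hk⟩ => ?_) hg
  · obtain ⟨_, ⟨r, hr, rfl⟩, hc⟩ := Group.mem_conjugatesOfSet_iff.1 hx
    obtain ⟨u, rfl⟩ := isConj_iff.1 hc
    exact ⟨_, hk.mul u hr⟩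
  · obtain ⟨_, ⟨r, hr, rfl⟩, hc⟩ := Group.mem_conjugatesOfSet_iff.1 hx
    obtain ⟨u, rfl⟩ := isConj_iff.1 hc
    obtain ⟨m, hm⟩ := hR r hr
    exact ⟨_, by simpa only [mul_inv_rev, inv_inv, mul_assoc] using (hm.conj u).append hk⟩

end Area

section Map

variable {X G : Type} [Group G] {f : FreeGroup X →* G} {D : Type} {α φ : Perm D}
  {lab : D → X × Bool} {pot : D → G} {F T : Multiset (List D)}

theorem IsMap.pot_sc [Finite D] (h : IsMap f α φ lab pot F) {a b : D}
    (hs : (φ * α).SameCycle a b) : pot a = pot b :=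
  perm_sc_le (s := Setoid.ker pot) (fun d => by
    change pot d = pot (φ (α d))
    rw [h.p1, h.p2, h.hlab, mul_assoc, ← map_mul, mk_bar, map_one, mul_one]) hs

theorem Rd.sc {l : List D} (h : Rd φ l) {a b : D} (ha : a ∈ l) (hb : b ∈ l) : φ.SameCycle a b := by
  classical
  obtain ⟨A, B, rfl⟩ := List.append_of_mem ha
  have h1 : Rd φ (a :: (B ++ A)) := h.swap
  have h2 : b ∈ a :: (B ++ A) := by
    simp only [List.mem_append, List.mem_cons] at hb ⊢
    tauto
  rcases List.mem_cons.1 h2 with rfl | h2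
  · exact Perm.SameCycle.refl _ _
  · obtain ⟨C, E, e⟩ := List.append_of_mem h2
    have h3 := h1.1
    rw [rot_cons, e, ← List.cons_append, List.map_append,
      show C ++ b :: E ++ [a] = (C ++ [b]) ++ (E ++ [a]) by simp] at h3
    exact sc_of_map (List.append_inj h3 (by simp)).1

open Classical in
theorem IsMap.cut [Finite D] (h : IsMap f α φ lab pot F) (b : D) :
    Sph f ((F.filter fun l => ∀ d ∈ l, conn φ α b d).map (List.map lab)) := by
  have key : ∀ g : Perm D, (∀ d, conn φ α d (g d)) → ∀ d, conn φ α b (g d) ↔ conn φ α b d :=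
    fun g hg d => ⟨fun k => (conn φ α).trans' k ((conn φ α).symm' (hg d)),
      fun k => (conn φ α).trans' k (hg d)⟩
  rw [← Multiset.filter_add_not (fun l => ∀ d ∈ l, conn φ α b d) F, add_comm] at h
  refine h.restrict _ (key α (perm_conn_b φ α)) (key φ (perm_conn_a φ α)) (fun l hl d hd k => ?_)
    fun l hl => (Multiset.mem_filter.1 hl).2
  refine (Multiset.mem_filter.1 hl).2 fun e he => (conn φ α).trans' k ?_
  exact perm_sc_le (perm_conn_a φ α) ((h.faces.rd (Multiset.mem_add.2 (Or.inl hl))).sc hd he)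

theorem cyc_swap_sc [Finite D] [DecidableEq D] {a b : D} (ne : a ≠ b)
    (hs : (φ * α).SameCycle a b) :
    Nat.card D - cyc (Equiv.swap a b * φ * α) < Nat.card D - cyc (φ * α) := by
  have h1 := cyc_swap_same _ a b ne hs
  have h2 := perm_cyc_le_card (φ * α * Equiv.swap a b)
  rw [mul_assoc, cyc_mul_comm]
  omega

end Map

variable {X V G : Type} [Group V] [Group G]

/-- the value in `V` -/
def pv : FreeGroup (X ⊕ V) →* V := FreeGroup.lift (Sum.elim (fun _ => 1) id)

/-- words in the letters of `V` -/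
def VW (w : List ((X ⊕ V) × Bool)) : Prop := w ≠ [] ∧ ∀ l ∈ w, l.1.isRight = true

/-- the relators of `V` -/
def TT (X V : Type) [Group V] : Set (List ((X ⊕ V) × Bool)) :=
  {w | VW w ∧ pv (FreeGroup.mk w) = 1}

/-- exceptional faces -/
def Ex (w : List ((X ⊕ V) × Bool)) : Prop := VW w ∧ pv (FreeGroup.mk w) ≠ 1

omit [Group V] in
theorem VW.app {A B : List ((X ⊕ V) × Bool)} (hA : A ≠ []) (hB : B ≠ []) :
    VW (A ++ B) ↔ VW A ∧ VW B := by
  simp only [VW, List.mem_append, or_imp, forall_and, hA, hB, ne_eq, List.append_eq_nil_iff]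
  tauto

omit [Group V] in
theorem VW.swap {A B : List ((X ⊕ V) × Bool)} (h : VW (A ++ B)) : VW (B ++ A) := by
  simp only [VW, List.mem_append, ne_eq, List.append_eq_nil_iff] at h ⊢
  exact ⟨fun k => h.1 k.symm, fun l hl => h.2 l hl.symm⟩

theorem Ex.swap {A B : List ((X ⊕ V) × Bool)} (h : Ex (A ++ B)) : Ex (B ++ A) := by
  refine ⟨h.1.swap, fun e => h.2 ?_⟩
  rw [← FreeGroup.mul_mk, map_mul] at e ⊢
  exact mul_eq_one_comm.1 e

/-- total weight -/
def ms {β : Type} (g : β → ℕ) (M : Multiset β) : ℕ := (M.map g).sum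

theorem ms_cons {β : Type} (g : β → ℕ) (a : β) (M : Multiset β) :
    ms g (a ::ₘ M) = g a + ms g M := by simp [ms]

theorem ms_mono {β : Type} (g : β → ℕ) {M M' : Multiset β} (h : M ≤ M') : ms g M ≤ ms g M' := by
  obtain ⟨T, rfl⟩ := Multiset.le_iff_exists_add.1 h
  simp [ms]

open Classical in
/-- number of exceptional faces -/
noncomputable def nE (M : Multiset (List ((X ⊕ V) × Bool))) : ℕ := M.countP Ex

open Classical in
theorem nE_cons (w : List ((X ⊕ V) × Bool)) (M : Multiset (List ((X ⊕ V) × Bool))) :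
    nE (w ::ₘ M) = nE M + if Ex w then 1 else 0 := Multiset.countP_cons _ _ _

theorem nE_zero {M : Multiset (List ((X ⊕ V) × Bool))} : nE M = 0 ↔ ∀ r ∈ M, ¬ Ex r := by
  classical
  exact Multiset.countP_eq_zero

/-- the words of the faces of a counterexample -/
def Valid (R : Set (List ((X ⊕ V) × Bool))) (M : Multiset (List ((X ⊕ V) × Bool))) : Prop :=
  (∀ r ∈ M, r ∈ R ∨ VW r) ∧ nE M = 1

/-- vertex darts -/
def Vf {D : Type} (lab : D → (X ⊕ V) × Bool) (F : Multiset (List D)) (d : D) : Prop :=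
  ∃ l ∈ F, d ∈ l ∧ VW (l.map lab)

theorem two_le_nE {β : Type} {g : β → List ((X ⊕ V) × Bool)} {M : Multiset β} {a b : β}
    (ha : a ∈ M) (hb : b ∈ M) (ne : a ≠ b) (pa : Ex (g a)) (pb : Ex (g b)) :
    2 ≤ nE (M.map g) := by
  obtain ⟨M, rfl⟩ := Multiset.exists_cons_of_mem ha
  obtain ⟨M, rfl⟩ := Multiset.exists_cons_of_mem
    ((Multiset.mem_cons.1 hb).resolve_left ne.symm)
  rw [Multiset.map_cons, Multiset.map_cons, nE_cons, nE_cons, if_pos pa, if_pos pb]
  omega

theorem exists_nf {f : FreeGroup (X ⊕ V) →* G} {R : Set (List ((X ⊕ V) × Bool))}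
    {c : List ((X ⊕ V) × Bool) → ℕ} (hc : ∀ w, VW w → c w = 0) (hR : ∀ r ∈ R, ¬ VW r)
    (hinv : ∀ r ∈ R, ∃ k, Area (R ∪ TT X V) c (FreeGroup.mk r)⁻¹ k)
    (hf : ∀ r ∈ R ∪ TT X V, f (FreeGroup.mk r) = 1) {v : V} (hv : v ≠ 1)
    (hm : FreeGroup.of (Sum.inr v) ∈ Subgroup.normalClosure (FreeGroup.mk '' (R ∪ TT X V))) :
    ∃ (D : Type) (_ : Finite D) (α φ : Perm D) (lab : D → (X ⊕ V) × Bool) (pot : D → G)
      (o : List D) (fs : Multiset (List D)), IsMap f α φ lab pot (o ::ₘ fs) ∧ VW (o.map lab) ∧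
      (∀ l ∈ fs, l.map lab ∈ R ∪ TT X V) ∧
      (∀ S W k, S ≤ fs → Glue α S W → Area (R ∪ TT X V) c (FreeGroup.mk (W.map lab)) k →
        (S.map fun l => c (l.map lab)).sum ≤ k) ∧
      (∀ a b, Vf lab (o ::ₘ fs) a → Vf lab (o ::ₘ fs) b → (φ * α).SameCycle a b → a = b) ∧
      ∀ d, Vf lab (o ::ₘ fs) d → ¬ Vf lab (o ::ₘ fs) (α d) := by
  classical
  let St : ℕ → ℕ → ℕ → Prop := fun k n m => ∃ (D : Type) (_ : Finite D) (α φ : Perm D)
    (lab : D → (X ⊕ V) × Bool) (pot : D → G) (F : Multiset (List D)), IsMap f α φ lab pot F ∧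
      Valid R (F.map (List.map lab)) ∧ ms c (F.map (List.map lab)) = k ∧
      ms List.length (F.map (List.map lab)) = n ∧ Nat.card D - cyc (φ * α) = m
  have sp : ∀ M, Sph f M → Valid R M → ∃ m, St (ms c M) (ms List.length M) m := by
    rintro _ ⟨D, _, α, φ, lab, pot, F, h, rfl⟩ hM
    exact ⟨_, D, inferInstance, α, φ, lab, pot, F, h, hM, rfl, rfl, rfl⟩
  have nex : ∀ r ∈ R ∪ TT X V, ¬ Ex r := by
    rintro r (hr | hr) k
    exacts [hR r hr k.1, k.2 hr.2]
  have val : ∀ w M, Ex w → (∀ r ∈ M, r ∈ R ∪ TT X V) → Valid R (w ::ₘ M) := fun w M hw hM =>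
    ⟨fun r hr => by
      rcases Multiset.mem_cons.1 hr with rfl | hr
      exacts [Or.inr hw.1, (hM r hr).imp_right fun k => k.1], by
      rw [nE_cons, if_pos hw, nE_zero.2 fun r hr => nex r (hM r hr)]⟩
  have ex : ∃ k n m, St k n m := by
    have hw1 : f (FreeGroup.mk [(Sum.inr v, true)]) = 1 := by
      have : Subgroup.normalClosure (FreeGroup.mk '' (R ∪ TT X V)) ≤ f.ker :=
        Subgroup.normalClosure_le_normal (by rintro _ ⟨r, hr, rfl⟩; exact hf r hr)
      exact this hm
    obtain ⟨k, hk⟩ := area_of_mem' (c := c) (R := R ∪ TT X V) (by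
      rintro r (hr | hr)
      · exact hinv r hr
      · rw [FreeGroup.inv_mk]
        refine ⟨_, Area.single (Or.inr ⟨⟨by simpa [FreeGroup.invRev] using hr.1.1, fun l hl => ?_⟩, ?_⟩)⟩
        · simp only [FreeGroup.invRev, List.mem_reverse, List.mem_map] at hl
          obtain ⟨a, ha, rfl⟩ := hl
          exact hr.1.2 a ha
        · rw [← FreeGroup.inv_mk, map_inv, hr.2, inv_one]) (inv_mem hm)
    have h1 := ((Sph.nil (f := f)).congr
      (B := [(Sum.inr v, true)] ++ FreeGroup.invRev [(Sum.inr v, true)]) (by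
      rw [← FreeGroup.mul_mk, ← FreeGroup.inv_mk, mul_inv_cancel]; rfl)).split hw1
    rw [Multiset.cons_swap] at h1
    obtain ⟨M, m1, -, m3⟩ := h1.area hf hk FreeGroup.inv_mk.symm
    rw [Multiset.add_cons, add_zero] at m3
    exact ⟨_, _, sp _ m3 (val _ _ ⟨⟨by simp, by simp⟩, by simpa [pv] using hv⟩ m1)⟩
  obtain ⟨D, _, α, φ, lab, pot, F, h, hV, e1, e2, e3⟩ :=
    Nat.find_spec (Nat.find_spec (Nat.find_spec ex))
  have K1 : ∀ M, Sph f M → Valid R M → ms c (F.map (List.map lab)) ≤ ms c M :=
    fun M h1 h2 => e1 ▸ Nat.find_min' ex ⟨_, sp M h1 h2⟩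
  have K2 : ∀ M, Sph f M → Valid R M → ms c M ≤ ms c (F.map (List.map lab)) →
      ms List.length (F.map (List.map lab)) ≤ ms List.length M := fun M h1 h2 h3 => by
    rw [e2]
    refine Nat.find_min' _ ?_
    rw [← e1, le_antisymm (K1 M h1 h2) h3]
    exact sp M h1 h2
  have K3 : ∀ (φ' : Perm D) F', IsMap f α φ' lab pot F' → Valid R (F'.map (List.map lab)) →
      ms c (F'.map (List.map lab)) = ms c (F.map (List.map lab)) →
      ms List.length (F'.map (List.map lab)) =
        ms List.length (F.map (List.map lab)) →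
      Nat.card D - cyc (φ * α) ≤ Nat.card D - cyc (φ' * α) := fun φ' F' h1 h2 h3 h4 => by
    rw [e3]
    exact Nat.find_min' _ ⟨D, inferInstance, α, φ', lab, pot, F', h1, h2, h3.trans e1,
      h4.trans e2, rfl⟩
  clear e1 e2 e3
  have N1 : ∀ a b, Vf lab F a → Vf lab F b → (φ * α).SameCycle a b → a = b := by
    rintro a b ⟨la, a1, a2, a3⟩ ⟨lb, b1, b2, b3⟩ hs
    by_contra ne
    have hp : ∀ d, pot ((Equiv.swap a b * φ) d) = pot d * f (FreeGroup.mk [lab d]) := fun d => by
      rw [Perm.mul_apply, comp_swap (h.pot_sc hs), h.p1]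
    have lt := cyc_swap_sc ne hs
    obtain ⟨T, rfl⟩ := Multiset.exists_cons_of_mem a1
    obtain ⟨A1, A2, rfl⟩ := List.append_of_mem a2
    have h' := h.swap
    rw [List.map_append] at a3
    have a4 := a3.swap
    rw [← List.map_append] at a4
    have ea : Ex ((A1 ++ a :: A2).map lab) ↔ Ex ((a :: A2 ++ A1).map lab) := by
      rw [List.map_append, List.map_append]
      exact ⟨Ex.swap, Ex.swap⟩
    have la : (A1 ++ a :: A2).length = (A2 ++ A1).length + 1 := by simp; omega
    have ca := hc _ a3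
    rw [← List.map_append] at ca
    obtain ⟨v1, v2⟩ := hV
    simp only [Multiset.map_cons, ms_cons, nE_cons, ea, ca, List.length_map,
      la, Multiset.mem_cons, forall_eq_or_imp] at K1 K2 K3 v1 v2
    rw [List.cons_append] at h' a4 v2
    rcases Multiset.mem_cons.1 b1 with rfl | b1
    · obtain ⟨A, B, e⟩ : ∃ A B, A2 ++ A1 = A ++ b :: B := by
        refine List.append_of_mem ?_
        simp only [List.mem_append, List.mem_cons] at b2 ⊢
        rcases b2 with k | k | k
        exacts [Or.inr k, absurd k.symm ne, Or.inl k]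
      rw [e] at h' a4 v2 K2 K3
      rw [← List.cons_append] at h' a4 v2
      obtain ⟨s1, s2⟩ := h'.faces.split
      have h2 : IsMap f α (Equiv.swap a b * φ) lab pot ((a :: A) ::ₘ (b :: B) ::ₘ T) :=
        ⟨s1, gen0_face φ α h.gen _ _ hs, h.inv, h.hlab, hp, h.p2⟩
      rw [List.map_append] at a4 v2
      obtain ⟨w1, w2⟩ := (VW.app (by simp) (by simp)).1 a4
      have hP : ∀ r ∈ ((a :: A) ::ₘ (b :: B) ::ₘ T).map (List.map lab), r ∈ R ∨ VW r := by
        simp only [Multiset.map_cons, Multiset.mem_cons, forall_eq_or_imp]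
        exact ⟨Or.inr w1, Or.inr w2, v1.2⟩
      by_cases hx : Ex ((a :: A).map lab) ∧ Ex ((b :: B).map lab)
      · have nc : ¬ conn (Equiv.swap a b * φ) α a b := by
          let _ := Fintype.ofFinite D
          exact Conv.not_conn_split h.gen ne s2 hs
        have key : ∀ a b A B, IsMap f α (Equiv.swap a b * φ) lab pot ((a :: A) ::ₘ (b :: B) ::ₘ T) →
            Ex ((a :: A).map lab) → VW ((b :: B).map lab) → ¬ conn (Equiv.swap a b * φ) α a b →
            (∀ l ∈ T, Ex (l.map lab) → ¬ ∀ d ∈ l, conn (Equiv.swap a b * φ) α a d) →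
            ∃ M, Sph f M ∧ Valid R M ∧ ms c M ≤ ms c (T.map (List.map lab)) ∧
              ms List.length M ≤ A.length + 1 +
                ms List.length (T.map (List.map lab)) := by
          intro a b A B h2 x1 x2 nc hT
          have h3 := h2.cut a
          rw [Multiset.filter_cons_of_pos _ (fun d hd => perm_sc_le (perm_conn_a _ _)
              ((h2.faces.rd (Multiset.mem_cons_self _ _)).sc (by simp) hd)),
            Multiset.filter_cons_of_neg _ (fun k => nc (k b (by simp))), Multiset.map_cons] at h3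
          have le := Multiset.map_le_map (f := List.map lab)
            (Multiset.filter_le (fun l => ∀ d ∈ l, conn (Equiv.swap a b * φ) α a d) T)
          refine ⟨_, h3, ⟨fun r hr => ?_, ?_⟩, ?_, ?_⟩
          · rcases Multiset.mem_cons.1 hr with rfl | hr
            exacts [Or.inr x1.1, v1.2 r (Multiset.mem_of_le le hr)]
          · rw [nE_cons, if_pos x1, nE_zero.2 fun r hr k => ?_]
            obtain ⟨l, hl, rfl⟩ := Multiset.mem_map.1 hr
            exact hT l (Multiset.mem_filter.1 hl).1 k (Multiset.mem_filter.1 hl).2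
          · rw [ms_cons, hc _ x1.1, zero_add]
            exact ms_mono _ le
          · rw [ms_cons, List.length_map, List.length_cons]
            exact Nat.add_le_add_left (ms_mono _ le) _
        by_cases hT : ∀ l ∈ T, Ex (l.map lab) → ¬ ∀ d ∈ l, conn (Equiv.swap a b * φ) α a d
        · obtain ⟨M, m1, m2, m3, m4⟩ := key a b A B h2 hx.1 w2 nc hT
          have := K2 M m1 m2 (by omega)
          simp only [List.length_append, List.length_cons] at this
          omega
        · obtain ⟨l, hl, x1, x2⟩ : ∃ l ∈ T, Ex (l.map lab) ∧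
              ∀ d ∈ l, conn (Equiv.swap a b * φ) α a d := by
            by_contra k
            exact hT fun l hl x1 x2 => k ⟨l, hl, x1, x2⟩
          rw [swap_comm, Multiset.cons_swap] at h2
          rw [swap_comm] at nc x2
          obtain ⟨M, m1, m2, m3, m4⟩ := key b a B A h2 hx.2 w1
            (fun k => nc ((conn _ _).symm' k)) fun l' hl' x3 x4 => by
              have : l = l' := by
                by_contra k
                have := two_le_nE (g := List.map lab) hl hl' k x1 x3
                omega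
              subst this
              obtain ⟨d, hd⟩ := List.exists_mem_of_ne_nil l fun k => x1.1.1 (by rw [k]; rfl)
              exact nc ((conn _ _).trans' (x2 d hd) ((conn _ _).symm' (x4 d hd)))
          have := K2 M m1 m2 (by omega)
          simp only [List.length_append, List.length_cons] at this
          omega
      · refine absurd (K3 _ _ h2 ⟨hP, ?_⟩ ?_ ?_) (not_le.2 lt)
        · simp only [Multiset.map_cons, nE_cons]
          simp only [Ex, w1, w2, a4, true_and, ← FreeGroup.mul_mk, map_mul] at hx v2 ⊢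
          by_cases k1 : pv (FreeGroup.mk ((a :: A).map lab)) = 1
          · simpa only [k1, one_mul, ne_eq, not_true, if_false, add_zero] using v2
          · have k2 : pv (FreeGroup.mk ((b :: B).map lab)) = 1 := by tauto
            simpa only [k2, mul_one, ne_eq, not_true, if_false, add_zero] using v2
        · simp only [Multiset.map_cons, ms_cons, hc _ w1, hc _ w2, zero_add]
        · simp only [Multiset.map_cons, ms_cons, List.length_map, List.length_append,
            List.length_cons]
          omega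
    · obtain ⟨T, rfl⟩ := Multiset.exists_cons_of_mem b1
      obtain ⟨B1, B2, rfl⟩ := List.append_of_mem b2
      rw [Multiset.cons_swap] at h'
      replace h' := h'.swap
      rw [Multiset.cons_swap, List.cons_append] at h'
      rw [List.map_append] at b3
      have b4 := b3.swap
      rw [← List.map_append, List.cons_append] at b4
      have eb : Ex ((B1 ++ b :: B2).map lab) ↔ Ex ((b :: (B2 ++ B1)).map lab) := by
        rw [← List.cons_append, List.map_append, List.map_append]
        exact ⟨Ex.swap, Ex.swap⟩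
      have cb := hc _ b3
      rw [← List.map_append] at cb
      simp only [Multiset.map_cons, ms_cons, nE_cons, eb, cb,
        List.length_map, Multiset.mem_cons, forall_eq_or_imp] at K3 v1 v2
      have w : VW ((a :: (A2 ++ A1) ++ b :: (B2 ++ B1)).map lab) := by
        rw [List.map_append]
        exact (VW.app (by simp) (by simp)).2 ⟨a4, b4⟩
      refine absurd (K3 _ _ ⟨h'.faces.merge, gen0_face φ α h.gen _ _ hs, h.inv, h.hlab, hp, h.p2⟩
        ⟨?_, ?_⟩ ?_ ?_) (not_le.2 lt)
      · simp only [Multiset.map_cons, Multiset.mem_cons, forall_eq_or_imp]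
        exact ⟨Or.inr w, v1.2.2⟩
      · simp only [Multiset.map_cons, nE_cons]
        rw [List.map_append] at w ⊢
        simp only [Ex, w, a4, b4, true_and, ← FreeGroup.mul_mk, map_mul] at v2 ⊢
        by_cases k1 : pv (FreeGroup.mk ((a :: (A2 ++ A1)).map lab)) = 1
        · simpa only [k1, one_mul, ne_eq, not_true, if_false, add_zero] using v2
        · by_cases k2 : pv (FreeGroup.mk ((b :: (B2 ++ B1)).map lab)) = 1
          · simpa only [k2, mul_one, ne_eq, not_true, if_false, add_zero] using v2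
          · simp only [ne_eq, k1, k2, not_false_iff, if_true] at v2
            omega
      · simp only [Multiset.map_cons, ms_cons, hc _ w, zero_add]
      · simp only [Multiset.map_cons, ms_cons, List.length_map, List.length_append,
          List.length_cons]
        omega
  have N2 : ∀ d, Vf lab F d → ¬ Vf lab F (α d) := by
    have nx : ∀ d, Vf lab F d → Vf lab F (φ d) := fun d ⟨l, l1, l2, l3⟩ =>
      ⟨l, l1, ((h.faces.rd l1).mem_next d).2 l2, l3⟩
    intro d h1 h2
    have e1 : α d = φ d := N1 _ _ h2 (nx d h1) ⟨1, by simp [h.inv]⟩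
    have e2 : d = φ (α d) := N1 _ _ h1 (nx _ h2) ⟨1, by simp⟩
    have ne : d ≠ α d := fun e => by
      have := h.hlab d
      rw [← e] at this
      simpa [bar] using congrArg Prod.snd this
    obtain ⟨l, l1, l2, l3⟩ := h1
    obtain ⟨T, rfl⟩ := Multiset.exists_cons_of_mem l1
    obtain ⟨A, B, rfl⟩ := List.append_of_mem l2
    have e3 : B ++ A = [α d] := (h.faces.rd l1).mid.symm.trans
      (Rd.eq ⟨by simp [← e1, ← e2], by simpa using ne⟩)
    have h' := h.swap
    rw [List.cons_append, e3] at h'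
    have nx : ¬ Ex ((A ++ d :: B).map lab) := fun k => by
      rw [List.map_append] at k
      refine k.swap.2 ?_
      rw [← List.map_append, List.cons_append, e3]
      change pv (FreeGroup.mk ([lab d] ++ [lab (α d)])) = 1
      rw [← FreeGroup.mul_mk, h.hlab, mk_bar, map_one]
    obtain ⟨v1, v2⟩ := hV
    rw [Multiset.map_cons] at v1 v2
    rw [nE_cons, if_neg nx] at v2
    have := K2 _ (h'.digon (h.hlab d)) ⟨fun r hr => v1 r (Multiset.mem_cons_of_mem hr), v2⟩
      (by simp [ms_cons])
    simp only [Multiset.map_cons, ms_cons, List.length_map, List.length_append,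
      List.length_cons] at this
    omega
  obtain ⟨v1, v2⟩ := hV
  obtain ⟨w, hw, xw⟩ : ∃ w ∈ F.map (List.map lab), Ex w := by
    by_contra k
    have := nE_zero.2 fun r hr x => k ⟨r, hr, x⟩
    omega
  obtain ⟨o, ho, rfl⟩ := Multiset.mem_map.1 hw
  obtain ⟨fs, rfl⟩ := Multiset.exists_cons_of_mem ho
  rw [Multiset.map_cons, nE_cons, if_pos xw] at v2
  have m1 : ∀ l ∈ fs, l.map lab ∈ R ∪ TT X V := fun l hl => by
    refine (v1 _ (Multiset.mem_map_of_mem _ (Multiset.mem_cons_of_mem hl))).imp_right fun k =>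
      ⟨k, by_contra fun k' => ?_⟩
    exact nE_zero.1 (by omega : _ = 0) _ (Multiset.mem_map_of_mem _ hl) ⟨k, k'⟩
  refine ⟨D, inferInstance, α, φ, lab, pot, o, fs, h, xw.1, m1, fun S W k hS hg hk => ?_, N1, N2⟩
  obtain ⟨T, rfl⟩ := Multiset.le_iff_exists_add.1 hS
  rw [← Multiset.add_cons] at h
  obtain ⟨φ', h3⟩ := h.glue hg
  obtain ⟨M', n1, n2, n3⟩ := Sph.area (L := o.map lab ::ₘ T.map (List.map lab)) hf hk
    ⟨D, inferInstance, α, φ', lab, pot, _, h3, by simp⟩ rfl
  rw [Multiset.add_cons] at n3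
  have := K1 _ n3 (val _ _ xw fun r hr => by
    rcases Multiset.mem_add.1 hr with hr | hr
    · exact n1 r hr
    · obtain ⟨l, hl, rfl⟩ := Multiset.mem_map.1 hr
      exact m1 l (Multiset.mem_add.2 (Or.inr hl)))
  simp only [ms, Multiset.map_add, Multiset.sum_add, n2, Multiset.map_map, Multiset.map_cons,
    Multiset.sum_cons] at this
  simpa [Function.comp_def] using this

end Pool.Agent.Lib.VK
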