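import Pool.Agent.Lib.VK.Rel1

/-!
# Complexes of groups with one vertex group: twisted cells and areas
-/

namespace Pool.Agent.Lib.VK

open Equiv Function

/-- positions of cells, their edge letters and corner labels, and the edge groups:
`Tw e k k'` stands for `k e = e k'` -/
structure Cx (X V I : Type) where
  lab : I → X × Bool
  nxt : I → I
  eta : I → V
  len : I → ℕ
  cost : I → ℕ
  Tw : X × Bool → V → V → Prop

variable {X V I : Type} [Group V] (C : Cx X V I)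

structure Cx.Ok : Prop where
  len_pos : ∀ p, 0 < C.len p
  cost_pos : ∀ p, 0 < C.cost p
  len_nxt : ∀ p, C.len (C.nxt p) = C.len p
  cost_nxt : ∀ p, C.cost (C.nxt p) = C.cost p
  tw_one : ∀ e, C.Tw e 1 1
  tw_div : ∀ e a a' b b', C.Tw e a a' → C.Tw e b b' → C.Tw e (a⁻¹ * b) (a'⁻¹ * b')
  tw_bar : ∀ e a a', C.Tw e a a' → C.Tw (bar e) a' a
  tw_inj : ∀ e a, C.Tw e 1 a → a = 1

/-- the value of a letter -/
def ex {Γ : Type} [Group Γ] (x : X → Γ) (e : X × Bool) : Γ := if e.2 then x e.1 else (x e.1)⁻¹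

theorem ex_bar {Γ : Type} [Group Γ] (x : X → Γ) (e : X × Bool) : ex x (bar e) = (ex x e)⁻¹ := by
  rcases e with ⟨e, _ | _⟩ <;> simp [ex, bar]

/-- the product along `n` edges of a cell -/
def Cx.U {Γ : Type} [Group Γ] (x : X → Γ) (ι : V →* Γ) : I → ℕ → Γ
  | _, 0 => 1
  | p, n + 1 => ex x (C.lab p) * ι (C.eta p) * Cx.U x ι (C.nxt p) n

/-- an area function -/
structure Cx.AreaS {Γ : Type} [Group Γ] (x : X → Γ) (ι : V →* Γ) (A : Γ → ℕ → Prop) : Prop where
  one : A 1 0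
  mul : ∀ {g h m n}, A g m → A h n → A (g * h) (m + n)
  conj : ∀ {g m} (u), A g m → A (u * g * u⁻¹) m
  mono : ∀ {g m n}, A g m → m ≤ n → A g n
  big : ∀ {e k k'}, C.Tw e k k' → A (ex x e * ι k' * (ex x e)⁻¹ * (ι k)⁻¹) 1
  cell : ∀ p, C.nxt^[C.len p] p = p → A (C.U x ι p (C.len p)) (C.cost p)

/-- edge letters -/
def xl (V : Type) (e : X × Bool) : (X ⊕ V) × Bool := (Sum.inl e.1, e.2)

/-- vertex letters -/
def vl (X : Type) (h : V) : (X ⊕ V) × Bool := (Sum.inr h, true)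

/-- twisted paths along a cell -/
inductive Cx.Path : I → V → List ((X ⊕ V) × Bool) → I → V → ℕ → Prop
  | nil (p : I) (k : V) : Cx.Path p k [] p k 0
  | cons {p p' : I} {k k' k₂ k₃ : V} {w : List ((X ⊕ V) × Bool)} {n : ℕ} :
      C.Tw (C.lab p) k k' → Cx.Path (C.nxt p) k₂ w p' k₃ n →
      Cx.Path p k (xl V (C.lab p) :: vl X (k' * C.eta p * k₂⁻¹) :: w) p' k₃ (n + 1)

def Cx.Cell (w : List ((X ⊕ V) × Bool)) (p : I) : Prop := ∃ k, C.Path p k w p k (C.len p)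

def Cx.Big (w : List ((X ⊕ V) × Bool)) : Prop :=
  ∃ e k k', C.Tw e k k' ∧ w = [xl V e, vl X k', xl V (bar e), vl X k⁻¹]

def Cx.R : Set (List ((X ⊕ V) × Bool)) := {w | C.Big w ∨ ∃ p, C.Cell w p}

open Classical in
noncomputable def Cx.c (w : List ((X ⊕ V) × Bool)) : ℕ :=
  if VW w then 0 else if C.Big w then 1 else sInf {n | ∃ p, C.Cell w p ∧ n = C.cost p}

/-- the free product of `V` and the free group on `X` -/
abbrev G0 (X V : Type) [Group V] : Type :=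
  FreeGroup (X ⊕ V) ⧸ Subgroup.normalClosure (FreeGroup.mk '' TT X V)

def pr : FreeGroup (X ⊕ V) →* G0 X V := QuotientGroup.mk' _

theorem pr_T {w : List ((X ⊕ V) × Bool)} (h : w ∈ TT X V) : pr (FreeGroup.mk w) = 1 :=
  (QuotientGroup.eq_one_iff _).2 (Subgroup.subset_normalClosure ⟨w, h, rfl⟩)

def vv (X : Type) {V : Type} [Group V] : V →* G0 X V :=
  MonoidHom.mk' (fun h => pr (FreeGroup.of (Sum.inr h))) fun a b => by
    have := pr_T (X := X) (w := [(Sum.inr a, true), (Sum.inr b, true), (Sum.inr (a * b), false)])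
      ⟨⟨by simp, by simp⟩, by simp [pv]⟩
    change pr (FreeGroup.of (Sum.inr a) * FreeGroup.of (Sum.inr b) *
      (FreeGroup.of (Sum.inr (a * b)))⁻¹) = 1 at this
    rw [map_mul, map_mul, map_inv, mul_inv_eq_one] at this
    exact this.symm

def xx (V : Type) [Group V] (x : X) : G0 X V := pr (FreeGroup.of (Sum.inl x))

theorem pr_x (e : X × Bool) (w : List ((X ⊕ V) × Bool)) :
    pr (FreeGroup.mk (xl V e :: w)) = ex (xx V) e * pr (FreeGroup.mk w) := by
  rw [show xl V e :: w = [xl V e] ++ w from rfl, ← FreeGroup.mul_mk, map_mul]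
  rcases e with ⟨e, _ | _⟩
  · exact congrArg (· * _) (map_inv pr (FreeGroup.of (Sum.inl e)))
  · rfl

theorem pr_v (h : V) (w : List ((X ⊕ V) × Bool)) :
    pr (FreeGroup.mk (vl X h :: w)) = vv X h * pr (FreeGroup.mk w) := by
  rw [show vl X h :: w = [vl X h] ++ w from rfl, ← FreeGroup.mul_mk, map_mul]
  rfl

theorem pr_nil : pr (FreeGroup.mk ([] : List ((X ⊕ V) × Bool))) = 1 := map_one pr

/-- area in the free product -/
def Cx.Ar (g : G0 X V) (m : ℕ) : Prop :=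
  ∃ a k, pr a = g ∧ k ≤ m ∧ Area (C.R ∪ TT X V) C.c a k

variable {C}

theorem Cx.c_V {w : List ((X ⊕ V) × Bool)} (h : VW w) : C.c w = 0 := if_pos h

theorem T_inv {r : List ((X ⊕ V) × Bool)} (hr : r ∈ TT X V) : FreeGroup.invRev r ∈ TT X V := by
  refine ⟨⟨by simpa [FreeGroup.invRev] using hr.1.1, fun l hl => ?_⟩, ?_⟩
  · simp only [FreeGroup.invRev, List.mem_reverse, List.mem_map] at hl
    obtain ⟨a, ha, rfl⟩ := hl
    exact hr.1.2 a ha
  · rw [← FreeGroup.inv_mk, map_inv, hr.2, inv_one]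

theorem Cx.Ar.lift {a : FreeGroup (X ⊕ V)} {m : ℕ} (h : C.Ar (pr a) m) :
    ∃ k ≤ m, Area (C.R ∪ TT X V) C.c a k := by
  obtain ⟨b, k, e, hk, h⟩ := h
  have h1 : b⁻¹ * a ∈ Subgroup.normalClosure (FreeGroup.mk '' TT X V) := QuotientGroup.eq.1 e
  have h2 : Area (C.R ∪ TT X V) C.c (b⁻¹ * a) 0 := by
    refine Subgroup.closure_induction_left (p := fun g _ => Area (C.R ∪ TT X V) C.c g 0) Area.one
      (fun x hx y _ hk => ?_) (fun x hx y _ hk => ?_) h1
    · obtain ⟨_, ⟨r, hr, rfl⟩, hc⟩ := Group.mem_conjugatesOfSet_iff.1 hx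
      obtain ⟨u, rfl⟩ := isConj_iff.1 hc
      have := hk.mul u (Or.inr hr)
      rwa [Cx.c_V hr.1] at this
    · obtain ⟨_, ⟨r, hr, rfl⟩, hc⟩ := Group.mem_conjugatesOfSet_iff.1 hx
      obtain ⟨u, rfl⟩ := isConj_iff.1 hc
      have := hk.mul u (Or.inr (T_inv hr))
      rw [Cx.c_V (T_inv hr).1, ← FreeGroup.inv_mk] at this
      simpa only [mul_inv_rev, inv_inv, mul_assoc] using this
  exact ⟨k, hk, by simpa using h.append h2⟩

theorem Cx.Path.one (h : C.Ok) (p : I) (n : ℕ) : ∃ w, C.Path p 1 w (C.nxt^[n] p) 1 n ∧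
    pr (FreeGroup.mk w) = C.U (xx V) (vv X) p n := by
  induction n generalizing p with
  | zero => exact ⟨[], Cx.Path.nil _ _, pr_nil⟩
  | succ n ih =>
    obtain ⟨w, h1, h2⟩ := ih (C.nxt p)
    exact ⟨_, h1.cons (h.tw_one _), by rw [pr_x, pr_v, h2, Cx.U]; simp [mul_assoc]⟩

theorem Cx.c_big {w : List ((X ⊕ V) × Bool)} (h : C.Big w) : C.c w = 1 := by
  rw [Cx.c, if_neg, if_pos h]
  obtain ⟨e, k, k', -, rfl⟩ := h
  exact fun k => by simpa [xl] using k.2 (xl V e) (by simp)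

theorem Cx.c_cell (h : C.Ok) {w : List ((X ⊕ V) × Bool)} {p : I} (hw : C.Cell w p) :
    C.c w ≤ C.cost p := by
  unfold Cx.c
  split_ifs
  · exact Nat.zero_le _
  · exact h.cost_pos p
  · exact Nat.sInf_le ⟨p, hw, rfl⟩

theorem Cx.ar_cell (h : C.Ok) {w : List ((X ⊕ V) × Bool)} {p : I} (hw : C.Cell w p) :
    C.Ar (pr (FreeGroup.mk w)) (C.cost p) :=
  ⟨_, _, rfl, Cx.c_cell h hw, Area.single (Or.inl (Or.inr ⟨p, hw⟩))⟩

theorem Cx.areaS (h : C.Ok) : C.AreaS (xx V) (vv X) C.Ar where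
  one := ⟨1, 0, map_one _, le_rfl, Area.one⟩
  mul := by
    rintro _ _ m n ⟨a, k, rfl, h1, h2⟩ ⟨b, l, rfl, h3, h4⟩
    exact ⟨a * b, k + l, map_mul _ _ _, by omega, h2.append h4⟩
  conj := by
    rintro _ m u ⟨a, k, rfl, h1, h2⟩
    obtain ⟨u, rfl⟩ := QuotientGroup.mk'_surjective _ u
    exact ⟨u * a * u⁻¹, k, by rw [map_mul, map_mul, map_inv]; rfl, h1, h2.conj u⟩
  mono := by
    rintro _ m n ⟨a, k, e, h1, h2⟩ h3
    exact ⟨a, k, e, h1.trans h3, h2⟩
  big := fun {e k k'} ht => ⟨_, _, by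
      rw [pr_x, pr_v, pr_x, pr_v, pr_nil, ex_bar, map_inv]; group,
    (Cx.c_big ⟨e, k, k', ht, rfl⟩).le, Area.single (Or.inl (Or.inl ⟨e, k, k', ht, rfl⟩))⟩
  cell := fun p hp => by
    obtain ⟨w, h1, h2⟩ := Cx.Path.one h p (C.len p)
    rw [hp] at h1
    exact h2 ▸ Cx.ar_cell h ⟨1, h1⟩

theorem Cx.Ok.tw_inv (h : C.Ok) {e : X × Bool} {a a' : V} (ht : C.Tw e a a') :
    C.Tw e a⁻¹ a'⁻¹ := by simpa using h.tw_div e a a' 1 1 ht (h.tw_one e)

theorem Cx.AreaS.big' {Γ : Type} [Group Γ] {x : X → Γ} {ι : V →* Γ} {A : Γ → ℕ → Prop}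
    (hA : C.AreaS x ι A) (h : C.Ok) {e : X × Bool} {k k' : V} (ht : C.Tw e k k') :
    A (ex x e * ι k' * (ex x e)⁻¹ * (ι k)⁻¹)⁻¹ 1 := by
  have := hA.conj (ι k) (hA.big (h.tw_inv ht))
  rw [map_inv, map_inv] at this
  convert this using 1
  group

theorem Cx.Path.untw (h : C.Ok) {p p' : I} {k k₃ : V} {w : List ((X ⊕ V) × Bool)} {n : ℕ}
    (hp : C.Path p k w p' k₃ n) : p' = C.nxt^[n] p ∧ ∃ t, C.Ar t n ∧ C.Ar t⁻¹ n ∧
      pr (FreeGroup.mk w) = t * (vv X k * C.U (xx V) (vv X) p n * (vv X k₃)⁻¹) := by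
  have hA := Cx.areaS h
  induction hp with
  | nil p k => exact ⟨rfl, 1, hA.one, by simpa using hA.one, by simp [pr_nil, Cx.U]⟩
  | @cons p p' k k' k₂ k₃ w n ht _ ih =>
    obtain ⟨e, t, t1, t2, t3⟩ := ih
    refine ⟨e, _, hA.mul (hA.conj (ex (xx V) (C.lab p) * vv X (k' * C.eta p * k₂⁻¹)) t1)
      (hA.big ht), ?_, ?_⟩
    · have := hA.mul (hA.big' h ht) (hA.conj (ex (xx V) (C.lab p) * vv X (k' * C.eta p * k₂⁻¹)) t2)
      rw [add_comm] at this
      convert this using 1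
      group
    · rw [pr_x, pr_v, t3, Cx.U]
      simp only [map_mul, map_inv]
      group

theorem Cx.Path.retw {p p' : I} {k k₃ : V} {w : List ((X ⊕ V) × Bool)} {n : ℕ}
    (hp : C.Path p k w p' k₃ n) (k₄ : V) : ∃ k₅ w', C.Path p k₅ w' p' k₄ n ∧
      (vv X k₅)⁻¹ * pr (FreeGroup.mk w') * vv X k₄ =
        (vv X k)⁻¹ * pr (FreeGroup.mk w) * vv X k₃ := by
  induction hp with
  | nil p k => exact ⟨k₄, [], Cx.Path.nil _ _, by simp [pr_nil]⟩
  | @cons p p' k k' k₂ k₃ w n ht _ ih =>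
    obtain ⟨k₅, w', h1, h2⟩ := ih
    refine ⟨k, _, h1.cons ht, ?_⟩
    rw [pr_x, pr_v, pr_x, pr_v]
    simp only [map_mul, map_inv, mul_assoc] at h2 ⊢
    rw [h2]

theorem Cx.Path.facts {p p' : I} {k k₃ : V} {w : List ((X ⊕ V) × Bool)} {n : ℕ}
    (hp : C.Path p k w p' k₃ n) : w.length = 2 * n ∧ (∀ l ∈ w, l.1.isRight = true → l.2 = true) ∧
      ∀ z : ℤ, (w.map fun l => if l.1.isRight = true then 0 else z).sum = n * z := by
  induction hp with
  | nil p k => simp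
  | cons ht _ ih =>
    refine ⟨by simp [ih.1]; omega, fun l hl => ?_, fun z => by simp [ih.2.2, xl, vl]; ring⟩
    simp only [List.mem_cons] at hl
    rcases hl with rfl | rfl | hl
    · simp [xl]
    · simp [vl]
    · exact ih.2.1 l hl

theorem Cx.R_facts (h : C.Ok) {w : List ((X ⊕ V) × Bool)} (hw : w ∈ C.R) :
    ¬ VW w ∧ ∀ l ∈ w, l.1.isRight = true → l.2 = true := by
  rcases hw with ⟨e, k, k', -, rfl⟩ | ⟨p, k, hp⟩
  · exact ⟨fun k => by simpa [xl] using k.2 (xl V e) (by simp), by simp [xl, vl]⟩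
  · refine ⟨fun hv => ?_, hp.facts.2.1⟩
    have := h.len_pos p
    generalize C.len p = n at hp this
    cases hp with
    | nil => omega
    | cons => simpa [xl] using hv.2 _ List.mem_cons_self

section Deco

variable {D : Type} {φ : Perm D} {lab : D → (X ⊕ V) × Bool}

/-- the dart `d` is the edge of position `(δ d).1` with twist `(δ d).2` -/
def Cx.Step (C : Cx X V I) (φ : Perm D) (lab : D → (X ⊕ V) × Bool) (δ : D → I × V) (d : D) :
    Prop :=
  ∃ k', C.Tw (C.lab (δ d).1) (δ d).2 k' ∧ lab d = xl V (C.lab (δ d).1) ∧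
    lab (φ d) = vl X (k' * C.eta (δ d).1 * (δ (φ (φ d))).2⁻¹) ∧ (δ (φ (φ d))).1 = C.nxt (δ d).1

theorem Cx.Path.deco (h : C.Ok) {p p' : I} {k k₃ : V} {w : List ((X ⊕ V) × Bool)} {n : ℕ}
    (hp : C.Path p k w p' k₃ n) : ∀ (l t : List D) (a b : D), l.map lab = w → l ++ [b] = a :: t →
      l.map φ = t → l.Nodup → b ∉ l.tail → (b ∈ l → (p, k) = (p', k₃)) →
      ∃ δ : D → I × V, δ a = (p, k) ∧ δ b = (p', k₃) ∧ ∀ d ∈ l,
        (C.Step φ lab δ d ∧ φ (φ d) ∈ l ++ [b] ∧ C.len (δ d).1 = C.len p ∧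
          C.cost (δ d).1 = C.cost p) ∨ ∃ d' ∈ l, φ d' = d ∧ (lab d').1.isRight = false ∧
            (lab d).1.isRight = true := by
  classical
  induction hp with
  | nil p k =>
    intro l t a b e1 e2 _ _ _ _
    exact ⟨fun _ => (p, k), rfl, rfl, by simp [List.map_eq_nil_iff.1 e1]⟩
  | @cons p p' k k' k₂ k₃ w n ht _ ih =>
    intro l t a b e1 e2 e3 nd hb hb'
    obtain ⟨d, l, rfl, l1, e1⟩ := List.map_eq_cons_iff.1 e1
    obtain ⟨e, l, rfl, l2, e1⟩ := List.map_eq_cons_iff.1 e1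
    obtain ⟨a', t', e4⟩ := List.exists_cons_of_ne_nil (l := l ++ [b]) (by simp)
    simp only [List.cons_append, List.cons.injEq] at e2
    obtain ⟨rfl, rfl⟩ := e2
    rw [e4] at e3
    simp only [List.map_cons, List.cons.injEq] at e3
    obtain ⟨f1, f2, f3⟩ := e3
    simp only [List.nodup_cons, List.mem_cons, not_or, List.tail_cons] at nd hb
    obtain ⟨δ, d1, d2, d3⟩ := ih l t' a' b e1 e4 f3 nd.2.2 (fun k => hb.2 (List.mem_of_mem_tail k))
      fun k => absurd k hb.2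
    have up : ∀ x ∈ l ++ [b], Function.update δ d (p, k) x = δ x := fun x hx => by
      by_cases e : x = d
      · subst e
        rcases List.mem_append.1 hx with hx | hx
        · exact absurd hx nd.1.2
        · obtain rfl := List.mem_singleton.1 hx
          rw [Function.update_self, d2, hb' (by simp)]
      · exact Function.update_of_ne e _ _
    have ma : a' ∈ l ++ [b] := by rw [e4]; simp
    refine ⟨Function.update δ d (p, k), Function.update_self .., by rw [up b (by simp), d2],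
      fun x hx => ?_⟩
    simp only [List.mem_cons] at hx
    rcases hx with rfl | rfl | hx
    · refine Or.inl ⟨⟨k', ?_⟩, by rw [f1, f2]; simp [ma], by simp, by simp⟩
      rw [f1, f2, up _ ma, d1, Function.update_self]
      exact ⟨ht, l1, l2, rfl⟩
    · exact Or.inr ⟨d, by simp, f1, by rw [l1]; rfl, by rw [l2]; rfl⟩
    · rcases d3 x hx with ⟨s1, s2, s3, s4⟩ | ⟨d', s1, s2⟩
      · have ux := up x (by simp [hx])
        refine Or.inl ⟨?_, by simp only [List.cons_append, List.mem_cons]; tauto,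
          by rw [ux, s3, h.len_nxt], by rw [ux, s4, h.cost_nxt]⟩
        unfold Cx.Step
        rwa [ux, up _ s2]
      · exact Or.inr ⟨d', by simp [s1], s2⟩

/-- decoration of one face -/
theorem Cx.Cell.deco (h : C.Ok) {l : List D} (hl : Rd φ l) {p : I} (hp : C.Cell (l.map lab) p) :
    ∃ δ : D → I × V, ∀ d ∈ l, (C.Step φ lab δ d ∧ C.len (δ d).1 = C.len p ∧
      C.cost (δ d).1 = C.cost p) ∨ ∃ d' ∈ l, φ d' = d ∧ (lab d').1.isRight = false ∧
        (lab d).1.isRight = true := by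
  obtain ⟨k, hp⟩ := hp
  rcases l with _ | ⟨a, t⟩
  · exact ⟨fun _ => (p, k), by simp⟩
  · obtain ⟨δ, -, -, d3⟩ := hp.deco h (a :: t) (t ++ [a]) a a rfl rfl (hl.1.trans (rot_cons _ _))
      hl.2 (List.nodup_cons.1 hl.2).1 fun _ => rfl
    exact ⟨δ, fun d hd => (d3 d hd).imp_left fun s => ⟨s.1, s.2.2⟩⟩

/-- reading a decorated face from a dart -/
theorem Cx.path_iter {δ : D → I × V} {P : D → Prop}
    (hP : ∀ d, P d → C.Step φ lab δ d ∧ P (φ (φ d))) (n : ℕ) {d : D} (hd : P d) :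
    C.Path (δ d).1 (δ d).2 ((List.iterate φ d (2 * n)).map lab) (δ (φ^[2 * n] d)).1
      (δ (φ^[2 * n] d)).2 n := by
  induction n generalizing d with
  | zero => exact Cx.Path.nil _ _
  | succ n ih =>
    obtain ⟨⟨k', s1, s2, s3, s4⟩, s5⟩ := hP d hd
    have := ih s5
    rw [s4] at this
    have h2 := this.cons s1
    rw [← s2, ← s3] at h2
    exact h2

end Deco

end Pool.Agent.Lib.VK
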