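import Pool.Agent.Lib.VK.Rel2

/-!
# Least relative diagrams contain no bigons
-/

namespace Pool.Agent.Lib.VK

open Equiv Function

variable {X V I G : Type} [Group V] [Group G] {C : Cx X V I} {f : FreeGroup (X ⊕ V) →* G}
  {D : Type} {α φ : Perm D} {lab : D → (X ⊕ V) × Bool} {pot : D → G} {o : List D}
  {fs : Multiset (List D)}

theorem Fs.uniq (h : Fs φ fs) {l l' : List D} (hl : l ∈ fs) (hl' : l' ∈ fs) {d : D} (hd : d ∈ l)
    (hd' : d ∈ l') : l = l' := by
  by_contra ne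
  obtain ⟨T, rfl⟩ := Multiset.exists_cons_of_mem hl
  have := h.nd
  rw [Multiset.cons_bind, Multiset.nodup_add, Multiset.disjoint_left] at this
  exact this.2.2 hd (Multiset.mem_bind.2
    ⟨l', (Multiset.mem_cons.1 hl').resolve_left (Ne.symm ne), hd'⟩)

theorem Rd.iter [Finite D] {l : List D} (h : Rd φ l) {d : D} (hd : d ∈ l) :
    d :: rd φ d = List.iterate φ d l.length ∧ φ^[l.length] d = d := by
  classical
  let _ := Fintype.ofFinite D
  obtain ⟨A, B, rfl⟩ := List.append_of_mem hd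
  have h1 : Rd φ (d :: (B ++ A)) := h.swap
  have := Conv.face_iter (h1.1.trans (rot_cons _ _))
  rwa [h.mid, show (A ++ d :: B).length = (B ++ A).length + 1 by simp; omega]

/-- normal form of a least relative diagram -/
structure NF (C : Cx X V I) (f : FreeGroup (X ⊕ V) →* G) (α φ : Perm D)
    (lab : D → (X ⊕ V) × Bool) (pot : D → G) (o : List D) (fs : Multiset (List D)) : Prop where
  map : IsMap f α φ lab pot (o ::ₘ fs)
  out : VW (o.map lab)
  rel : ∀ l ∈ fs, l.map lab ∈ C.R ∪ TT X V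
  min : ∀ S W k, S ≤ fs → Glue α S W → Area (C.R ∪ TT X V) C.c (FreeGroup.mk (W.map lab)) k →
    (S.map fun l => C.c (l.map lab)).sum ≤ k
  n1 : ∀ a b, Vf lab (o ::ₘ fs) a → Vf lab (o ::ₘ fs) b → (φ * α).SameCycle a b → a = b
  n2 : ∀ d, Vf lab (o ::ₘ fs) d → ¬ Vf lab (o ::ₘ fs) (α d)

theorem NF.xa (h : NF C f α φ lab pot o fs) (d : D) : (lab (α d)).1 = (lab d).1 := by
  rw [h.map.hlab]; rfl

omit [Group V] in
theorem Vf.right {F : Multiset (List D)} {d : D} (h : Vf lab F d) : (lab d).1.isRight = true := by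
  obtain ⟨l, -, h1, h2⟩ := h
  exact h2.2 _ (List.mem_map_of_mem h1)

theorem NF.face (h : NF C f α φ lab pot o fs) {d : D} (hd : ¬ Vf lab (o ::ₘ fs) d) :
    ∃ l ∈ fs, d ∈ l ∧ l.map lab ∈ C.R := by
  obtain ⟨l, l1, l2⟩ := h.map.faces.all d
  rcases Multiset.mem_cons.1 l1 with rfl | l3
  · exact absurd ⟨l, l1, l2, h.out⟩ hd
  · exact ⟨l, l3, l2, (h.rel l l3).resolve_right fun k => hd ⟨l, l1, l2, k.1⟩⟩

theorem NF.notV (h : NF C f α φ lab pot o fs) (hC : C.Ok) {l : List D} (hl : l ∈ fs)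
    (hR : l.map lab ∈ C.R) {d : D} (hd : d ∈ l) : ¬ Vf lab (o ::ₘ fs) d := by
  rintro ⟨l', l1, l2, l3⟩
  rw [h.map.faces.uniq l1 (Multiset.mem_cons_of_mem hl) l2 hd] at l3
  exact (Cx.R_facts hC hR).1 l3

theorem NF.vneg (h : NF C f α φ lab pot o fs) (hC : C.Ok) {d : D}
    (h1 : (lab d).1.isRight = true) (h2 : ¬ Vf lab (o ::ₘ fs) d) : Vf lab (o ::ₘ fs) (α d) := by
  by_contra h3
  obtain ⟨l, -, l2, l3⟩ := h.face h2
  obtain ⟨l', -, l4, l5⟩ := h.face h3
  have e1 := (Cx.R_facts hC l3).2 _ (List.mem_map_of_mem l2) h1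
  have e2 := (Cx.R_facts hC l5).2 _ (List.mem_map_of_mem l4) (by rwa [h.xa])
  rw [h.map.hlab] at e2
  simp [bar, e1] at e2

theorem NF.vnext (h : NF C f α φ lab pot o fs) {d : D} (hd : Vf lab (o ::ₘ fs) d) :
    Vf lab (o ::ₘ fs) (φ d) := by
  obtain ⟨l, l1, l2, l3⟩ := hd
  exact ⟨l, l1, ((h.map.faces.rd l1).mem_next d).2 l2, l3⟩

theorem NF.pair (h : NF C f α φ lab pot o fs) {l₁ l₂ : List D} (h1 : l₁ ∈ fs) (h2 : l₂ ∈ fs)
    (ne : l₂ ≠ l₁) {d : D} (d1 : d ∈ l₁) (d2 : α d ∈ l₂) {m : ℕ}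
    (hm : C.Ar (pr (FreeGroup.mk ((rd φ d).map lab)) * pr (FreeGroup.mk ((rd φ (α d)).map lab))) m) :
    C.c (l₁.map lab) + C.c (l₂.map lab) ≤ m := by
  classical
  obtain ⟨A, B, rfl⟩ := List.append_of_mem d1
  obtain ⟨E, K, rfl⟩ := List.append_of_mem d2
  rw [(h.map.faces.rd (Multiset.mem_cons_of_mem h1)).mid,
    (h.map.faces.rd (Multiset.mem_cons_of_mem h2)).mid] at hm
  have g1 : Glue α {A ++ d :: B} (B ++ A ++ [d]) := by
    have := Glue.one (α := α) (A ++ d :: B)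
    rw [show A ++ d :: B = (A ++ [d]) ++ B by simp] at this ⊢
    simpa using this.rot
  obtain ⟨k, k1, k2⟩ := Cx.Ar.lift (C := C)
    (a := FreeGroup.mk ((B ++ A ++ [d] ++ α d :: (K ++ E)).map lab)) (m := m) (by
      rw [show (B ++ A ++ [d] ++ α d :: (K ++ E)).map lab = (B ++ A).map lab ++
        (([lab d] ++ [bar (lab d)]) ++ (K ++ E).map lab) by simp [h.map.hlab],
        ← FreeGroup.mul_mk, ← FreeGroup.mul_mk, ← FreeGroup.mul_mk, mk_bar, one_mul, map_mul]
      exact hm)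
  have := h.min _ _ k ((Multiset.cons_le_of_notMem (by simpa using ne)).2
    ⟨h2, Multiset.singleton_le.2 h1⟩) (g1.add K E) k2
  simp only [Multiset.map_cons, Multiset.sum_cons, Multiset.map_singleton,
    Multiset.sum_singleton] at this
  omega

theorem Cx.exists_cell (hC : C.Ok) {w : List ((X ⊕ V) × Bool)} (hw : w ∈ C.R) (nb : ¬ C.Big w) :
    ∃ p, C.Cell w p ∧ C.c w = C.cost p := by
  rw [Cx.c, if_neg (Cx.R_facts hC hw).1, if_neg nb]
  obtain ⟨p, hp⟩ := hw.resolve_left nb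
  exact Nat.sInf_mem (s := {n | ∃ p, C.Cell w p ∧ n = C.cost p}) ⟨_, p, hp, rfl⟩

omit [Group V] in
theorem xl_inj {e e' : X × Bool} (h : xl V e = xl V e') : e = e' := by
  simp only [xl, Prod.mk.injEq, Sum.inl.injEq] at h
  exact Prod.ext h.1 h.2

theorem Cx.Step.xv {δ : D → I × V} {d : D} (h : C.Step φ lab δ d) :
    (lab d).1.isRight = false ∧ (lab (φ d)).1.isRight = true := by
  obtain ⟨k', -, s1, s2, -⟩ := h
  rw [s1, s2]
  exact ⟨rfl, rfl⟩

/-- a decorated cell -/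
theorem Cx.Cell.read (hC : C.Ok) {l : List D} (hl : Rd φ l) {p : I} (hp : C.Cell (l.map lab) p) :
    ∃ δ : D → I × V, l.length = 2 * C.len p ∧
      (∀ d ∈ l, (lab d).1.isRight = true → (lab (φ d)).1.isRight = false) ∧
      ∀ d ∈ l, (lab d).1.isRight = false → C.Step φ lab δ d ∧ (lab (φ (φ d))).1.isRight = false ∧
        C.len (δ d).1 = C.len p ∧ C.cost (δ d).1 = C.cost p := by
  obtain ⟨δ, h⟩ := hp.deco hC hl
  have h1 : ∀ d ∈ l, (lab d).1.isRight = true → (lab (φ d)).1.isRight = false := fun d hd e => by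
    rcases h (φ d) ((hl.mem_next d).2 hd) with s | ⟨d', -, s1, s2, -⟩
    · exact s.1.xv.1
    · rw [φ.injective s1, e] at s2
      cases s2
  obtain ⟨k, hp'⟩ := hp
  have hlen := hp'.facts.1
  rw [List.length_map] at hlen
  refine ⟨δ, hlen, h1, fun d hd e => ?_⟩
  rcases h d hd with st | ⟨d', -, -, -, s⟩
  · exact ⟨st.1, h1 _ ((hl.mem_next d).2 hd) st.1.xv.2, st.2⟩
  · rw [e] at s
    cases s

theorem Cx.path_rd [Finite D] {l : List D} (hl : Rd φ l) {δ : D → I × V} {n : ℕ}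
    (hn : l.length = 2 * n) (h : ∀ d ∈ l, (lab d).1.isRight = false →
      C.Step φ lab δ d ∧ (lab (φ (φ d))).1.isRight = false) {d : D} (hd : d ∈ l)
    (hx : (lab d).1.isRight = false) :
    C.Path (δ d).1 (δ d).2 (lab d :: (rd φ d).map lab) (δ d).1 (δ d).2 n := by
  have := Cx.path_iter (C := C) (P := fun d => d ∈ l ∧ (lab d).1.isRight = false)
    (fun d hd => ⟨(h d hd.1 hd.2).1, (hl.mem_next _).2 ((hl.mem_next _).2 hd.1),
      (h d hd.1 hd.2).2⟩) n ⟨hd, hx⟩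
  rwa [← hn, ← (hl.iter hd).1, (hl.iter hd).2] at this

theorem Cx.Path.uncons {p p' : I} {k k₃ : V} {a : (X ⊕ V) × Bool} {w : List ((X ⊕ V) × Bool)}
    {n : ℕ} (h : C.Path p k (a :: w) p' k₃ n) : ∃ k' k₂ w' m, C.Tw (C.lab p) k k' ∧
      C.Path (C.nxt p) k₂ w' p' k₃ m ∧ a = xl V (C.lab p) ∧
      w = vl X (k' * C.eta p * k₂⁻¹) :: w' ∧ n = m + 1 := by
  cases h with
  | cons h1 h2 => exact ⟨_, _, _, _, h1, h2, rfl, rfl, rfl⟩

theorem big_read (hC : C.Ok) {l : List D} (hl : Rd φ l) (hb : C.Big (l.map lab)) {x : D}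
    (hx : x ∈ l) (hX : (lab x).1.isRight = false) : ∃ a j j', C.Tw a j j' ∧ lab x = xl V a ∧
      (rd φ x).map lab = [vl X j', xl V (bar a), vl X j⁻¹] := by
  obtain ⟨e, k, k', ht, hw⟩ := hb
  obtain ⟨d, l, rfl, e1, hw⟩ := List.map_eq_cons_iff.1 hw
  obtain ⟨g, l, rfl, e2, hw⟩ := List.map_eq_cons_iff.1 hw
  obtain ⟨d', l, rfl, e3, hw⟩ := List.map_eq_cons_iff.1 hw
  obtain ⟨g', l, rfl, e4, hw⟩ := List.map_eq_cons_iff.1 hw
  rw [List.map_eq_nil_iff.1 hw] at hl hx
  simp only [List.mem_cons, List.not_mem_nil, or_false] at hx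
  rcases hx with rfl | rfl | rfl | rfl
  · exact ⟨e, k, k', ht, e1, by rw [hl.eq]; simp [e2, e3, e4]⟩
  · rw [e2] at hX
    cases hX
  · exact ⟨bar e, k'⁻¹, k⁻¹, hC.tw_inv (hC.tw_bar _ _ _ ht), e3, by
      rw [Rd.mid (A := [d, g]) hl]; simp [e1, e2, e4, bar_bar]⟩
  · rw [e4] at hX
    cases hX

theorem NF.nobig [Finite D] (h : NF C f α φ lab pot o fs) (hC : C.Ok) {l : List D} (hl : l ∈ fs) :
    ¬ C.Big (l.map lab) := by
  intro hb
  have hA := Cx.areaS hC
  have rl := h.map.faces.rd (Multiset.mem_cons_of_mem hl)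
  have cl := Cx.c_big hb
  obtain ⟨e, k, k', ht, hw⟩ := id hb
  obtain ⟨d, l, rfl, e1, hw⟩ := List.map_eq_cons_iff.1 hw
  obtain ⟨g, l, rfl, e2, hw⟩ := List.map_eq_cons_iff.1 hw
  obtain ⟨d', l, rfl, e3, hw⟩ := List.map_eq_cons_iff.1 hw
  obtain ⟨g', l, rfl, e4, hw⟩ := List.map_eq_cons_iff.1 hw
  obtain rfl := List.map_eq_nil_iff.1 hw
  have xd : (lab (α d)).1.isRight = false := by rw [h.xa, e1]; rfl
  have ld : lab (α d) = xl V (bar e) := by rw [h.map.hlab, e1]; rfl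
  obtain ⟨l₂, m1, m2, m3⟩ := h.face (d := α d) fun k => by simp [k.right] at xd
  have r2 := h.map.faces.rd (Multiset.mem_cons_of_mem m1)
  have p1 : pr (FreeGroup.mk ((rd φ d).map lab)) =
      vv X k' * (ex (xx V) e)⁻¹ * (vv X k)⁻¹ := by
    rw [rl.eq]
    simp only [List.map_cons, List.map_nil, e2, e3, e4, pr_x, pr_v, pr_nil, ex_bar, map_inv]
    group
  by_cases hne : l₂ = [d, g, d', g']
  · subst hne
    have ad : α d = d' := by
      simp only [List.mem_cons, List.not_mem_nil, or_false] at m2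
      rcases m2 with q | q | q | q
      · rw [q, e1] at ld
        simpa [bar] using congrArg Prod.snd (xl_inj ld)
      · rw [q, e2] at xd
        cases xd
      · exact q
      · rw [q, e4] at xd
        cases xd
    have ro := rl.1
    simp only [List.map_cons, List.map_nil, List.rotate_cons_succ, List.cons_append,
      List.nil_append, List.rotate_zero, List.cons.injEq] at ro
    have key : ∀ y z x : D, ∀ v : V, y ∈ [d, g, d', g'] → lab y = vl X v → φ y = z → α z = x →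
        φ x = y → v = 1 ∨ o = [α y] := fun y z x v hy q1 q2 q3 q4 => by
      have v1 := h.vneg hC (d := y) (by rw [q1]; rfl) (h.notV hC hl m3 hy)
      have v2 : α y = φ (α y) := h.n1 _ _ v1 (h.vnext v1) ⟨3, by
        simp [zpow_ofNat, pow_succ, h.map.inv, q2, q3, q4]⟩
      obtain ⟨l', a1, a2, a3⟩ := v1
      obtain ⟨A, B, rfl⟩ := List.append_of_mem a2
      have a4 : B ++ A = [] := (h.map.faces.rd a1).mid.symm.trans
        (Rd.eq ⟨by simp [← v2], by simp⟩)
      obtain ⟨rfl, rfl⟩ := List.append_eq_nil_iff.1 a4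
      rcases Multiset.mem_cons.1 a1 with q | q
      · exact Or.inr q.symm
      · have := ((h.rel _ q).resolve_left fun k => (Cx.R_facts hC k).1 a3).2
        simp only [List.nil_append, List.map_cons, List.map_nil, h.map.hlab, q1] at this
        exact Or.inl (by simpa [pv, vl, bar] using this)
    have k1 := key g d' d k' (by simp) e2 ro.2.1 (by rw [← ad, h.map.inv]) ro.1
    have k2 := key g' d d' k⁻¹ (by simp) e4 ro.2.2.2.1 ad ro.2.2.1
    have k3 : k = 1 ∧ k' = 1 := by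
      rcases k1 with rfl | k1
      · exact ⟨hC.tw_inj _ _ (hC.tw_bar _ _ _ ht), rfl⟩
      · rcases k2 with k2 | k2
        · obtain rfl := inv_eq_one.1 k2
          exact ⟨rfl, hC.tw_inj _ _ ht⟩
        · have := rl.2
          rw [k1, List.cons.injEq] at k2
          simp [α.injective k2.1] at this
    obtain ⟨rfl, rfl⟩ := k3
    obtain ⟨m, m4, m5⟩ := Cx.Ar.lift (C := C) (a := FreeGroup.mk ([d, g, d', g'].map lab))
      (m := 0) (by
        simp only [List.map_cons, List.map_nil, e1, e2, e3, e4, pr_x, pr_v, pr_nil, ex_bar]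
        simpa using hA.one)
    have := h.min _ _ m (Multiset.singleton_le.2 hl) (Glue.one _) m5
    rw [Multiset.map_singleton, Multiset.sum_singleton] at this
    omega
  · have key := fun m => h.pair (m := m) hl m1 hne (d := d) (by simp) m2
    rw [p1, cl] at key
    by_cases b2 : C.Big (l₂.map lab)
    · obtain ⟨a, j, j', t1, t2, t3⟩ := big_read hC r2 b2 m2 xd
      obtain rfl := xl_inj (t2.symm.trans ld)
      have := key 1 (by
        have := hA.conj (vv X k') (hA.big (hC.tw_div _ _ _ _ _ (hC.tw_bar _ _ _ ht) t1))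
        rw [t3]
        simp only [pr_x, pr_v, pr_nil, ex_bar, map_inv, map_mul] at this ⊢
        convert this using 1
        group)
      rw [Cx.c_big b2] at this
      omega
    · obtain ⟨p, q1, q2⟩ := Cx.exists_cell hC m3 b2
      obtain ⟨δ, q3, -, q4⟩ := q1.read hC r2
      have q5 := Cx.path_rd r2 q3 (fun d hd e => ⟨(q4 d hd e).1, (q4 d hd e).2.1⟩) m2 xd
      obtain ⟨-, -, q6, q7⟩ := q4 _ m2 xd
      obtain ⟨j', j₂, w, n, t1, t2, t3, t4, t5⟩ := q5.uncons
      have t6 := xl_inj (t3.symm.trans ld)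
      obtain ⟨k₅, w', u1, u2⟩ := t2.retw (k'⁻¹ * (δ (α d)).2)
      have u3 := u1.cons (hC.tw_div _ _ _ _ _ (t6 ▸ hC.tw_bar _ _ _ ht) t1)
      rw [← t5, ← q6] at u3
      have u4 := hA.conj (vv X k') (Cx.ar_cell hC ⟨_, u3⟩)
      have u5 : pr (FreeGroup.mk w') = vv X k₅ * ((vv X j₂)⁻¹ * pr (FreeGroup.mk w) *
          vv X (δ (α d)).2) * (vv X (k'⁻¹ * (δ (α d)).2))⁻¹ := by
        rw [← u2]
        group
      have := key (C.cost (δ (α d)).1) (by
        rw [t4]
        simp only [pr_x, pr_v, u5, t6, ex_bar, map_inv, map_mul] at u4 ⊢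
        convert u4 using 1
        group)
      omega

end Pool.Agent.Lib.VK
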