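import Pool.Agent.Lib.VK.Rel3

/-!
# The relative weight test: the vertex group embeds
-/

namespace Pool.Agent.Lib.VK

open Equiv Function

variable {X V I G : Type} [Group V] [Group G] {C : Cx X V I}

theorem sum_iter {D : Type} (φ : D → D) (g : D → ℤ) (d : D) (n : ℕ) :
    ((List.iterate φ d n).map g).sum = ∑ i ∈ Finset.range n, g (φ^[i] d) := by
  induction n generalizing d with
  | zero => rfl
  | succ n ih => rw [List.iterate, List.map_cons, List.sum_cons, ih, Finset.sum_range_succ',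
      add_comm]; rfl

theorem iter_snoc {D : Type} (φ : D → D) (d : D) (n : ℕ) :
    List.iterate φ d (n + 1) = List.iterate φ d n ++ [φ^[n] d] := by
  induction n generalizing d with
  | zero => rfl
  | succ n ih => rw [List.iterate, ih, List.iterate, List.cons_append, iterate_succ_apply]

theorem lift_x (x : X → G) (ι : V →* G) (e : X × Bool) (w : List ((X ⊕ V) × Bool)) :
    FreeGroup.lift (Sum.elim x ι) (FreeGroup.mk (xl V e :: w)) =
      ex x e * FreeGroup.lift (Sum.elim x ι) (FreeGroup.mk w) := by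
  rcases e with ⟨e, _ | _⟩ <;> simp [xl, ex]

theorem lift_v (x : X → G) (ι : V →* G) (h : V) (w : List ((X ⊕ V) × Bool)) :
    FreeGroup.lift (Sum.elim x ι) (FreeGroup.mk (vl X h :: w)) =
      ι h * FreeGroup.lift (Sum.elim x ι) (FreeGroup.mk w) := by
  simp [vl]

theorem lift_V (x : X → G) (ι : V →* G) {w : List ((X ⊕ V) × Bool)}
    (hw : ∀ l ∈ w, l.1.isRight = true) :
    FreeGroup.lift (Sum.elim x ι) (FreeGroup.mk w) = ι (pv (FreeGroup.mk w)) := by
  induction w with
  | nil => simp [pv]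
  | cons a w ih =>
    rw [show a :: w = [a] ++ w from rfl, ← FreeGroup.mul_mk, map_mul, map_mul, map_mul,
      ih fun l hl => hw l (by simp [hl])]
    rcases a with ⟨a | a, _ | _⟩
    · simpa using hw _ List.mem_cons_self
    · simpa using hw _ List.mem_cons_self
    · simp [pv]
    · simp [pv]

theorem Cx.Path.ev {x : X → G} {ι : V →* G}
    (hx : ∀ e k k', C.Tw e k k' → ι k * ex x e = ex x e * ι k') {p p' : I} {k k₃ : V}
    {w : List ((X ⊕ V) × Bool)} {n : ℕ} (hp : C.Path p k w p' k₃ n) :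
    FreeGroup.lift (Sum.elim x ι) (FreeGroup.mk w) = ι k * C.U x ι p n * (ι k₃)⁻¹ := by
  induction hp with
  | nil p k => simp [Cx.U]
  | cons ht _ ih =>
    rw [lift_x, lift_v, ih, Cx.U, eq_mul_inv_of_mul_eq (hx _ _ _ ht)]
    simp only [map_mul, map_inv]
    group

theorem Cx.map_U {Γ : Type} [Group Γ] (ρ : Γ →* G) (x : X → Γ) (ι : V →* Γ) (p : I) (n : ℕ) :
    ρ (C.U x ι p n) = C.U (fun a => ρ (x a)) (ρ.comp ι) p n := by
  induction n generalizing p with
  | zero => exact map_one ρ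
  | succ n ih =>
    rw [Cx.U, Cx.U, map_mul, map_mul, ih]
    congr 2
    unfold ex
    split_ifs <;> simp

theorem Area.mem {R : Set (List (X × Bool))} {c : List (X × Bool) → ℕ} {g : FreeGroup X} {k : ℕ}
    (h : Area R c g k) : g ∈ Subgroup.normalClosure (FreeGroup.mk '' R) := by
  induction h with
  | one => exact one_mem _
  | @mul g k u r hr _ ih =>
    exact mul_mem (Subgroup.Normal.conj_mem inferInstance _
      (Subgroup.subset_normalClosure (Set.mem_image_of_mem _ hr)) u) ih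

/-- admissible gluing of position `p` to position `q` with twist `κ` -/
def Cx.Adm (C : Cx X V I) (F : I → V → I → Prop) (p : I) (κ : V) (q : I) : Prop :=
  (∃ κ', C.Tw (C.lab p) κ κ') ∧ C.lab q = bar (C.lab p) ∧ ¬ F p κ q

theorem NF.absurd [Inhabited I] {D : Type} [Finite D] {α φ : Perm D} {lab : D → (X ⊕ V) × Bool} {pot : D → G}
    {o : List D} {fs : Multiset (List D)} {fx : X → G} {fv : V →* G}
    (h : NF C (FreeGroup.lift (Sum.elim fx fv)) α φ lab pot o fs) (hC : C.Ok)
    (hx : ∀ e k k', C.Tw e k k' → fv k * ex fx e = ex fx e * fv k') (F : I → V → I → Prop)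
    (hF1 : ∀ p κ q, F p κ q → C.nxt^[C.len p] p = p → C.nxt^[C.len q] q = q →
      ∃ m, C.Ar (C.U (xx V) (vv X) p (C.len p) * (vv X κ * ex (xx V) (C.lab p) *
        C.U (xx V) (vv X) q (C.len q) * (vv X κ * ex (xx V) (C.lab p))⁻¹)) m ∧
        m + C.len p + C.len q + 2 < C.cost p + C.cost q)
    (hF2 : ∀ p κ q, F p κ q → ∀ j, 0 < j → j < C.len p → C.nxt^[j] p = q →
      C.U fx fv p j ≠ fv κ * ex fx (C.lab p))
    (W : I → V → I → ℤ) (u : ℕ → ℤ) (N : ℤ) (hN : 0 ≤ N) (hu : ∀ p, N ≤ C.len p * u (C.len p))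
    (he : ∀ p q κ κ', C.Tw (C.lab p) κ κ' → C.Adm F p κ q → C.Adm F q κ'⁻¹ p →
      W p κ q + W q κ'⁻¹ p + u (C.len p) + u (C.len q) ≤ N)
    (hv : ∀ (n : ℕ) (y : ℕ → I) (κ g : ℕ → V), 0 < n → y n = y 0 →
      (∀ i, C.Adm F (C.nxt (y (i + 1))) (κ i) (y i)) → g 0 = 1 →
      (∀ i, g (i + 1) = C.eta (y (i + 1)) * κ i * g i) →
      (g n = 1 → N ≤ ∑ i ∈ Finset.range n, W (C.nxt (y (i + 1))) (κ i) (y i)) ∧
        -N < ∑ i ∈ Finset.range n, W (C.nxt (y (i + 1))) (κ i) (y i)) : False := by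
  classical
  let _ := Fintype.ofFinite D
  have hA := Cx.areaS hC
  have hm := h.map
  -- decoration
  have loc : ∀ l : List D, ∃ δ : D → I × V, l ∈ fs → l.map lab ∈ C.R →
      (∀ d ∈ l, (lab d).1.isRight = true → (lab (φ d)).1.isRight = false) ∧
      (∀ d ∈ l, (lab d).1.isRight = false → C.Step φ lab δ d ∧
        (lab (φ (φ d))).1.isRight = false ∧ l.length = 2 * C.len (δ d).1 ∧
        C.cost (δ d).1 = C.c (l.map lab)) ∧ ∃ p, l.length = 2 * C.len p ∧ ∀ z : ℤ,
          (l.map fun d => if (lab d).1.isRight = true then 0 else z).sum = C.len p * z := by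
    intro l
    by_cases hl : l ∈ fs ∧ l.map lab ∈ C.R
    · obtain ⟨p, q1, q2⟩ := Cx.exists_cell hC hl.2 (h.nobig hC hl.1)
      obtain ⟨δ, q3, q4, q5⟩ := q1.read hC (hm.faces.rd (Multiset.mem_cons_of_mem hl.1))
      obtain ⟨k, q6⟩ := q1
      refine ⟨δ, fun _ _ => ⟨q4, fun d hd e => ?_, p, q3, fun z => ?_⟩⟩
      · obtain ⟨s1, s2, s3, s4⟩ := q5 d hd e
        exact ⟨s1, s2, by rw [s3, q3], by rw [s4, q2]⟩
      · simpa only [List.map_map, Function.comp_def] using q6.facts.2.2 z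
    · exact ⟨fun _ => (default, 1), fun a b => (hl ⟨a, b⟩).elim⟩
  choose δl hδ using loc
  choose fc fc1 fc2 using hm.faces.all
  let δ : D → I × V := fun d => δl (fc d) d
  have nv : ∀ d, (lab d).1.isRight = false → ¬ Vf lab (o ::ₘ fs) d := fun d hd k => by
    simp [k.right] at hd
  have st : ∀ d, (lab d).1.isRight = false → C.Step φ lab δ d ∧
      (lab (φ (φ d))).1.isRight = false ∧ ∀ l ∈ fs, d ∈ l → l.length = 2 * C.len (δ d).1 ∧
        C.cost (δ d).1 = C.c (l.map lab) := fun d hd => by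
    obtain ⟨l, l1, l2, l3⟩ := h.face (nv d hd)
    have l4 : l ∈ o ::ₘ fs := Multiset.mem_cons_of_mem l1
    have e : ∀ x ∈ l, δ x = δl l x := fun x hx => by
      simp only [δ, hm.faces.uniq (fc1 x) l4 (fc2 x) hx]
    obtain ⟨s1, s2, s3⟩ := (hδ l l1 l3).2.1 d l2 hd
    refine ⟨?_, s2, fun l' m1 m2 => ?_⟩
    · unfold Cx.Step
      rwa [e d l2, e _ (((hm.faces.rd l4).mem_next _).2 (((hm.faces.rd l4).mem_next _).2 l2))]
    · rwa [hm.faces.uniq (Multiset.mem_cons_of_mem m1) l4 m2 l2, e d l2]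
  have vx : ∀ d, (lab d).1.isRight = true → ¬ Vf lab (o ::ₘ fs) d →
      (lab (φ d)).1.isRight = false := fun d h1 h2 => by
    obtain ⟨l, l1, l2, l3⟩ := h.face h2
    exact (hδ l l1 l3).1 d l2 h1
  have ex' : ∀ d, ∃ k', (lab d).1.isRight = false → C.Tw (C.lab (δ d).1) (δ d).2 k' ∧
      lab d = xl V (C.lab (δ d).1) ∧ lab (φ d) = vl X (k' * C.eta (δ d).1 * (δ (φ (φ d))).2⁻¹) ∧
      (δ (φ (φ d))).1 = C.nxt (δ d).1 := fun d => by
    by_cases hd : (lab d).1.isRight = false
    · exact (st d hd).1.imp fun _ s _ => s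
    · exact ⟨1, fun k => (hd k).elim⟩
  choose k' hk using ex'
  have xa : ∀ d, (lab d).1.isRight = false → (lab (α d)).1.isRight = false := fun d hd => by
    rwa [h.xa]
  have lb : ∀ d, (lab d).1.isRight = false → C.lab (δ (α d)).1 = bar (C.lab (δ d).1) :=
    fun d hd => xl_inj (V := V) (by rw [← (hk _ (xa d hd)).2.1, hm.hlab, (hk d hd).2.1]; rfl)
  have tb : ∀ d, (lab d).1.isRight = false → C.Tw (C.lab (δ d).1) (k' (α d)) (δ (α d)).2 :=
    fun d hd => by simpa only [lb d hd, bar_bar] using hC.tw_bar _ _ _ (hk _ (xa d hd)).1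
  have ne : ∀ d, α d ≠ d := fun d e => by
    have := hm.hlab d
    rw [e] at this
    simpa [bar] using congrArg Prod.snd this
  have path : ∀ d, (lab d).1.isRight = false → C.Path (δ d).1 (δ d).2
      (xl V (C.lab (δ d).1) :: (rd φ d).map lab) (δ d).1 (δ d).2 (C.len (δ d).1) := fun d hd => by
    obtain ⟨l, l1, l2, -⟩ := h.face (nv d hd)
    rw [← (hk d hd).2.1]
    exact Cx.path_rd (hm.faces.rd (Multiset.mem_cons_of_mem l1)) ((st d hd).2.2 l l1 l2).1
      (fun d _ e => ⟨(st d e).1, (st d e).2.1⟩) l2 hd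
  have adm : ∀ d, (lab d).1.isRight = false →
      C.Adm F (δ d).1 ((δ d).2⁻¹ * k' (α d)) (δ (α d)).1 := fun d hd => by
    refine ⟨⟨_, hC.tw_div _ _ _ _ _ (hk d hd).1 (tb d hd)⟩, lb d hd, fun hF => ?_⟩
    obtain ⟨l₁, l1, l2, -⟩ := h.face (nv d hd)
    obtain ⟨l₂, l3, l4, -⟩ := h.face (nv _ (xa d hd))
    by_cases e : l₂ = l₁
    · subst e
      have r := hm.faces.rd (Multiset.mem_cons_of_mem l1)
      obtain ⟨i, i1, i2⟩ : ∃ i < l₂.length, α d = φ^[i] d := by
        rw [← List.mem_iterate, ← (r.iter l2).1]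
        obtain ⟨A, B, rfl⟩ := List.append_of_mem l2
        rw [r.mid]
        simp only [List.mem_append, List.mem_cons] at l4 ⊢
        tauto
      have ev : ∀ j, (lab (φ^[2 * j] d)).1.isRight = false := fun j => by
        induction j with
        | zero => exact hd
        | succ j ih =>
          rw [show 2 * (j + 1) = 2 * j + 1 + 1 by ring, iterate_succ_apply', iterate_succ_apply']
          exact (st _ ih).2.1
      obtain ⟨j, rfl | rfl⟩ := Nat.even_or_odd' i
      · have q1 := Cx.path_iter (C := C) (δ := δ) (P := fun d => (lab d).1.isRight = false)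
          (fun d hd => ⟨(st d hd).1, (st d hd).2.1⟩) j hd
        have q2 : ∀ n, pot (φ^[n] d) = pot d *
            FreeGroup.lift (Sum.elim fx fv) (FreeGroup.mk ((List.iterate φ d n).map lab)) := by
          intro n
          induction n with
          | zero => simp
          | succ n ih =>
            rw [iterate_succ_apply', hm.p1, ih, iter_snoc, List.map_append, ← FreeGroup.mul_mk,
              map_mul, mul_assoc]
            rfl
        have q3 := q2 (2 * j)
        rw [q1.ev hx, ← i2, hm.p2, (hk d hd).2.1, lift_x, mul_right_inj] at q3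
        rw [← i2] at q1
        have q4 := ((st d hd).2.2 _ l1 l2).1
        refine hF2 _ _ _ hF j (Nat.pos_of_ne_zero fun e => ne d (by simpa [e] using i2))
          (by omega) (q1.untw hC).1.symm ?_
        rw [map_mul, map_inv, mul_assoc, hx _ _ _ (tb d hd), ← mul_one (ex fx _),
          ← map_one (FreeGroup.lift (Sum.elim fx fv))]
        erw [q3]
        group
      · have := (st _ (ev j)).1.xv.2
        rw [← iterate_succ_apply' φ, ← i2, xa d hd] at this
        cases this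
    · obtain ⟨e1, t₁, a1, -, a2⟩ := (path d hd).untw hC
      obtain ⟨e2, t₂, a3, -, a4⟩ := (path _ (xa d hd)).untw hC
      obtain ⟨m, m1, m2⟩ := hF1 _ _ _ hF e1.symm e2.symm
      have b := (hk _ (xa d hd)).1
      have q := hA.conj (ex (xx V) (C.lab (δ d).1))⁻¹ (hA.mul (hA.mul (hA.mul a1
        (hA.conj (vv X (δ d).2 * C.U (xx V) (vv X) (δ d).1 (C.len (δ d).1) * (vv X (δ d).2)⁻¹ *
          ex (xx V) (C.lab (δ d).1)) (hA.mul a3 (hA.big' hC b)))) (hA.conj (vv X (δ d).2) m1))
        (hA.conj (ex (xx V) (C.lab (δ d).1)) (hA.big b)))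
      rw [pr_x, ← eq_inv_mul_iff_mul_eq] at a2 a4
      have := h.pair l1 l3 e l2 l4 (m := C.len (δ d).1 + (C.len (δ (α d)).1 + 1) + m + 1) (by
        rw [a2, a4]
        simp only [lb d hd, ex_bar, map_mul, map_inv] at q ⊢
        convert q using 1
        group)
      rw [← ((st d hd).2.2 _ l1 l2).2, ← ((st _ (xa d hd)).2.2 _ l3 l4).2] at this
      omega
  let wv : D → ℤ := fun d => W (δ d).1 ((δ d).2⁻¹ * k' (α d)) (δ (α d)).1
  have vX : ∀ d, Vf lab (o ::ₘ fs) d → (lab (φ (α d))).1.isRight = false := fun d hd =>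
    vx _ (by rw [h.xa]; exact hd.right) (h.n2 d hd)
  have tri : ∀ d, Vf lab (o ::ₘ fs) d → φ (α (φ (α (φ d)))) = α d := fun d hd => by
    have h1 := h.vnext hd
    have h2 := xa _ (vX _ h1)
    obtain ⟨l, l1, l2, l3⟩ := h.face (nv _ h2)
    have h3 := h.vnext (h.vneg hC (st _ h2).1.xv.2 (h.notV hC l1 l3
      (((hm.faces.rd (Multiset.mem_cons_of_mem l1)).mem_next _).2 l2)))
    have := φ.injective (h.n1 _ _ h1 h3 ⟨3, by simp [zpow_ofNat, pow_succ]⟩)
    rw [← α.injective.eq_iff, hm.inv]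
    exact this.symm
  have vf : ∀ l ∈ o ::ₘ fs, VW (l.map lab) → (pv (FreeGroup.mk (l.map lab)) = 1 →
      N ≤ (l.map fun d => wv (φ (α d))).sum) ∧ -N < (l.map fun d => wv (φ (α d))).sum := by
    intro l hl hw
    obtain ⟨a, A, rfl⟩ := List.exists_cons_of_ne_nil (l := l) fun e => hw.1 (by rw [e]; rfl)
    obtain ⟨i1, i2⟩ := (hm.faces.rd hl).iter List.mem_cons_self
    rw [(hm.faces.rd hl).eq] at i1
    have v : ∀ i, Vf lab (o ::ₘ fs) (φ^[i] a) := fun i => by
      induction i with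
      | zero => exact ⟨_, hl, List.mem_cons_self, hw⟩
      | succ i ih => rw [iterate_succ_apply']; exact h.vnext ih
    have s := fun i => hk _ (xa _ (vX _ (v (i + 1))))
    have t : ∀ i, φ (α (φ (α (φ^[i + 1] a)))) = α (φ^[i] a) := fun i => by
      rw [iterate_succ_apply']; exact tri _ (v i)
    simp only [t] at s
    have key := hv (a :: A).length (fun i => (δ (α (φ (α (φ^[i] a))))).1)
      (fun i => (δ (φ (α (φ^[i] a)))).2⁻¹ * k' (α (φ (α (φ^[i] a)))))
      (fun i => (k' (α (φ (α (φ^[i] a)))))⁻¹ *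
        (pv (FreeGroup.mk ((List.iterate φ a i).map lab)))⁻¹ * k' (α (φ (α a))))
      (by simp) (by rw [i2]; rfl) (fun i => by rw [← (s i).2.2.2]; exact adm _ (vX _ (v i)))
      (by simp [pv]) (fun i => by
        have e : lab (φ^[i] a) = bar (lab (α (φ^[i] a))) := by rw [hm.hlab, bar_bar]
        rw [iter_snoc, List.map_append, ← FreeGroup.mul_mk, map_mul, List.map_singleton, e,
          (s i).2.2.1]
        simp only [pv, vl, bar, Bool.not_true, FreeGroup.lift_mk, List.map_cons, List.map_nil,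
          List.prod_cons, List.prod_nil, cond_false, Sum.elim_inr, id]
        group)
    simp only [← (s _).2.2.2] at key
    rw [← i1, i2] at key
    have e := sum_iter φ (fun d => wv (φ (α d))) a (a :: A).length
    rw [← i1] at e
    rw [e]
    exact ⟨fun k => key.1 (by rw [k]; simp), key.2⟩
  let θ : D → ℤ := fun d => if (lab d).1.isRight = true then 0 else wv d - N
  have fin := gauss_bonnet hm.faces hm.gen ne (fun e => h.out.1 (by rw [e]; rfl))
    (fun d => if (lab d).1.isRight = true then 0 else N)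
    (fun d => if Vf lab (o ::ₘ fs) d then wv (φ (α d)) else
      (if (lab d).1.isRight = true then 0 else u (C.len (δ d).1)) + θ d - θ (φ d)) N hN
    (fun d => ?_) (fun d => ?_) fun l hl => ?_
  · rw [List.map_congr_left fun d hd => if_pos ⟨o, Multiset.mem_cons_self _ _, hd, h.out⟩] at fin
    exact not_le.2 (vf o (Multiset.mem_cons_self _ _) h.out).2 fin
  · obtain ⟨i, hi⟩ : ∃ i, (lab ((φ * α)^[i] d)).1.isRight = false := by
      by_cases h1 : (lab d).1.isRight = true
      · by_cases h2 : Vf lab (o ::ₘ fs) d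
        · exact ⟨1, vX d h2⟩
        · exact ⟨2, vX _ (h.vnext (h.vneg hC h1 h2))⟩
      · exact ⟨0, by simpa using h1⟩
    refine le_trans ?_ (Finset.single_le_sum (f := fun i =>
      if (lab ((φ * α)^[i] d)).1.isRight = true then 0 else N) (fun j _ => by split_ifs <;> omega)
      (Finset.mem_range.2 (Nat.mod_lt i (per_pos (φ * α) d))))
    simp only [iterate_mod_minimalPeriod_eq, hi, Bool.false_eq_true, if_false, le_refl]
  · by_cases h1 : (lab d).1.isRight = true
    · have h2 : (lab (α d)).1.isRight = true := by rwa [h.xa]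
      by_cases h3 : Vf lab (o ::ₘ fs) d
      · simp [θ, h1, h2, h3, h.n2 d h3, vX d h3]
      · simp [θ, h1, h2, h3, h.vneg hC h1 h3, hm.inv, vx d h1 h3]
    · replace h1 : (lab d).1.isRight = false := by simpa using h1
      have h2 := xa d h1
      have h3 := adm _ h2
      rw [hm.inv, show (δ (α d)).2⁻¹ * k' d = ((k' d)⁻¹ * (δ (α d)).2)⁻¹ by group] at h3
      have := he _ _ _ _ (hC.tw_div _ _ _ _ _ (hk d h1).1 (tb d h1)) (adm d h1) h3
      simp only [θ, wv, h1, h2, nv d h1, nv _ h2, (st d h1).1.xv.2, (st _ h2).1.xv.2, hm.inv,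
        if_true, if_false, Bool.false_eq_true, mul_inv_rev, inv_inv] at this ⊢
      omega
  · rcases h.rel l hl with r | r
    · obtain ⟨p, p1, p2⟩ := (hδ l hl r).2.2
      have r1 := (hm.faces.rd (Multiset.mem_cons_of_mem hl)).1
      have e : (l.map fun d => θ (φ d)).sum = (l.map θ).sum := by
        rw [show (l.map fun d => θ (φ d)) = (l.map φ).map θ by simp, r1]
        exact ((List.rotate_perm l 1).map θ).sum_eq
      rw [List.map_congr_left (g := fun d => (if (lab d).1.isRight = true then 0 else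
        u (C.len p)) + θ d - θ (φ d)) fun d hd => ?_]
      · have e2 := List.sum_map_add (l := l) (f := fun d => (if (lab d).1.isRight = true then 0 else
          u (C.len p)) + θ d - θ (φ d)) (g := fun d => θ (φ d))
        simp only [sub_add_cancel, List.sum_map_add, e, p2] at e2
        have := hu p
        omega
      · rw [if_neg (h.notV hC hl r hd)]
        split_ifs with k
        · rfl
        · have := ((st d (by simpa using k)).2.2 l hl hd).1
          rw [show C.len (δ d).1 = C.len p by omega]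
    · have l1 : l ∈ o ::ₘ fs := Multiset.mem_cons_of_mem hl
      rw [List.map_congr_left fun d hd => if_pos ⟨l, l1, hd, r.1⟩]
      exact (vf l l1 r.1).1 r.2

/-- the relative weight test -/
theorem rel_test [Inhabited I] (hC : C.Ok)
    (hinv : ∀ (Γ : Type) [Group Γ] (x : X → Γ) (ι : V →* Γ) (A : Γ → ℕ → Prop), C.AreaS x ι A →
      ∀ p, C.nxt^[C.len p] p = p → ∃ m, A (C.U x ι p (C.len p))⁻¹ m)
    (fx : X → G) (fv : V →* G) (hx : ∀ e k k', C.Tw e k k' → fv k * ex fx e = ex fx e * fv k')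
    (hc : ∀ p, C.nxt^[C.len p] p = p → C.U fx fv p (C.len p) = 1) (F : I → V → I → Prop)
    (hF1 : ∀ (Γ : Type) [Group Γ] (x : X → Γ) (ι : V →* Γ) (A : Γ → ℕ → Prop), C.AreaS x ι A →
      ∀ p κ q, F p κ q → C.nxt^[C.len p] p = p → C.nxt^[C.len q] q = q →
      ∃ m, A (C.U x ι p (C.len p) * (ι κ * ex x (C.lab p) * C.U x ι q (C.len q) *
        (ι κ * ex x (C.lab p))⁻¹)) m ∧ m + C.len p + C.len q + 2 < C.cost p + C.cost q)
    (hF2 : ∀ p κ q, F p κ q → ∀ j, 0 < j → j < C.len p → C.nxt^[j] p = q →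
      C.U fx fv p j ≠ fv κ * ex fx (C.lab p))
    (W : I → V → I → ℤ) (u : ℕ → ℤ) (N : ℤ) (hN : 0 ≤ N) (hu : ∀ p, N ≤ C.len p * u (C.len p))
    (he : ∀ p q κ κ', C.Tw (C.lab p) κ κ' → C.Adm F p κ q → C.Adm F q κ'⁻¹ p →
      W p κ q + W q κ'⁻¹ p + u (C.len p) + u (C.len q) ≤ N)
    (hv : ∀ (n : ℕ) (y : ℕ → I) (κ g : ℕ → V), 0 < n → y n = y 0 →
      (∀ i, C.Adm F (C.nxt (y (i + 1))) (κ i) (y i)) → g 0 = 1 →
      (∀ i, g (i + 1) = C.eta (y (i + 1)) * κ i * g i) →
      (g n = 1 → N ≤ ∑ i ∈ Finset.range n, W (C.nxt (y (i + 1))) (κ i) (y i)) ∧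
        -N < ∑ i ∈ Finset.range n, W (C.nxt (y (i + 1))) (κ i) (y i)) :
    ∃ (H : Type) (_ : Group H) (x : X → H) (ι : V →* H),
      (∀ e k k', C.Tw e k k' → ι k * ex x e = ex x e * ι k') ∧
      (∀ p, C.nxt^[C.len p] p = p → C.U x ι p (C.len p) = 1) ∧ Injective ι := by
  have hA := Cx.areaS hC
  let N₀ := Subgroup.normalClosure (FreeGroup.mk '' (C.R ∪ TT X V))
  let ρ : G0 X V →* FreeGroup (X ⊕ V) ⧸ N₀ := QuotientGroup.lift _ (QuotientGroup.mk' N₀)
    fun g hg => (QuotientGroup.eq_one_iff g).2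
      (Subgroup.normalClosure_mono (Set.image_mono Set.subset_union_right) hg)
  have k : ∀ g m, C.Ar g m → ρ g = 1 := by
    rintro _ m ⟨a, k, rfl, -, h⟩
    exact (QuotientGroup.eq_one_iff a).2 h.mem
  have e : ∀ a, ρ (ex (xx V) a) = ex (fun a => ρ (xx V a)) a := fun a => by
    unfold ex
    split_ifs <;> simp
  refine ⟨_, inferInstance, fun a => ρ (xx V a), ρ.comp (vv X), fun a j j' ht => ?_,
    fun p hp => by rw [← Cx.map_U]; exact k _ _ (hA.cell p hp),
    (injective_iff_map_eq_one _).2 fun v hv1 => by_contra fun hv2 => ?_⟩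
  · have := k _ _ (hA.big ht)
    simp only [map_mul, map_inv, e, mul_inv_eq_one] at this
    rw [MonoidHom.comp_apply, ← this]
    simp
  · have key := exists_nf (f := FreeGroup.lift (Sum.elim fx fv)) (R := C.R) (c := C.c)
      (fun _ => Cx.c_V) (fun r hr => (Cx.R_facts hC hr).1) (fun r hr => ?_) (fun r hr => ?_) hv2
      ((QuotientGroup.eq_one_iff _).1 hv1)
    · obtain ⟨D, _, α, φ, lab, pot, o, fs, h1, h2, h3, h4, h5, h6⟩ := key
      exact NF.absurd ⟨h1, h2, h3, h4, h5, h6⟩ hC hx F (hF1 _ _ _ _ hA) hF2 W u N hN hu he hv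
    · suffices ∃ m, C.Ar (pr (FreeGroup.mk r)⁻¹) m from
        this.elim fun m hm => hm.lift.imp fun _ k => k.2
      rw [map_inv]
      rcases hr with ⟨a, j, j', ht, rfl⟩ | ⟨p, j, hp⟩
      · refine ⟨1, ?_⟩
        convert hA.big' hC ht using 1
        rw [pr_x, pr_v, pr_x, pr_v, pr_nil, ex_bar, map_inv]
        group
      · obtain ⟨e1, t, -, t1, t2⟩ := hp.untw hC
        obtain ⟨m, hm⟩ := hinv _ _ _ _ hA p e1.symm
        refine ⟨m + C.len p, ?_⟩
        convert hA.mul (hA.conj (vv X j) hm) t1 using 1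
        rw [t2]
        group
    · rcases hr with (⟨a, j, j', ht, rfl⟩ | ⟨p, j, hp⟩) | hr
      · rw [lift_x, lift_v, lift_x, lift_v, ex_bar, ← mul_assoc, ← hx _ _ _ ht, map_inv]
        simp
      · rw [hp.ev hx, hc p (hp.untw hC).1.symm, mul_one, mul_inv_cancel]
      · rw [lift_V _ _ hr.1.2, hr.2, map_one]

end Pool.Agent.Lib.VK
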