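import Pool.Agent.Lib.VK.Dia

/-!
# Spherical diagrams: the van Kampen lemma and area-minimal diagrams
-/

namespace Pool.Agent.Lib.VK

open Equiv Pool.Agent.Lib.MP_bfaad3_co
open FreeGroup (invRev Red mul_mk inv_mk)

variable {X G : Type} [Group G]

/-- the inverse letter -/
def bar (x : X × Bool) : X × Bool := (x.1, !x.2)

theorem mk_bar (x : X × Bool) : FreeGroup.mk [x] * FreeGroup.mk [bar x] = 1 := by
  rw [mul_eq_one_iff_eq_inv', inv_mk]; rfl

/-- labelled genus zero maps with a potential in `G` -/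
structure IsMap (f : FreeGroup X →* G) {D : Type} (α φ : Perm D) (lab : D → X × Bool)
    (pot : D → G) (fs : Multiset (List D)) : Prop where
  faces : Fs φ fs
  gen : Gen0 φ α
  inv : ∀ d, α (α d) = d
  hlab : ∀ d, lab (α d) = bar (lab d)
  p1 : ∀ d, pot (φ d) = pot d * f (FreeGroup.mk [lab d])
  p2 : ∀ d, pot (α d) = pot d * f (FreeGroup.mk [lab d])

/-- there is a spherical diagram whose faces read the words of `L` -/
def Sph (f : FreeGroup X →* G) (L : Multiset (List (X × Bool))) : Prop :=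
  ∃ (D : Type) (_ : Finite D) (α φ : Perm D) (lab : D → X × Bool) (pot : D → G)
    (fs : Multiset (List D)), IsMap f α φ lab pot fs ∧ fs.map (List.map lab) = L

variable {f : FreeGroup X →* G}

section Map

variable {D : Type} {α φ : Perm D} {lab : D → X × Bool} {pot : D → G} {T : Multiset (List D)}

theorem pot_of_map (p1 : ∀ d, pot (φ d) = pot d * f (FreeGroup.mk [lab d])) {a b : D} {A : List D}
    (h : (a :: A).map φ = A ++ [b]) : pot b = pot a * f (FreeGroup.mk ((a :: A).map lab)) := by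
  induction A generalizing a with
  | nil =>
    have : φ a = b := by simpa using h
    rw [← this, p1]; rfl
  | cons c A ih =>
    simp only [List.map_cons, List.cons_append, List.cons.injEq] at h
    rw [ih (a := c) (by simpa using h.2), ← h.1, p1, mul_assoc, ← map_mul, mul_mk, h.1]
    rfl

theorem IsMap.swap {A B : List D} (h : IsMap f α φ lab pot ((A ++ B) ::ₘ T)) :
    IsMap f α φ lab pot ((B ++ A) ::ₘ T) := { h with faces := h.faces.swap }

theorem comp_swap {β : Type} [DecidableEq D] {g : D → β} {a b : D} (h : g a = g b) (d : D) :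
    g (Equiv.swap a b d) = g d := apply_swap_eq_self h d

variable [Finite D]

/-- two corners of one face: the potential differs by the word between them -/
theorem IsMap.pot_face {a b : D} {A B : List D}
    (h : IsMap f α φ lab pot ((a :: A ++ b :: B) ::ₘ T)) :
    pot b = pot a * f (FreeGroup.mk ((a :: A).map lab)) := by
  have h1 := h.faces.rot (a :: A ++ b :: B) (by simp)
  rw [List.map_append, List.cons_append, rot_cons,
    show A ++ b :: B ++ [a] = (A ++ [b]) ++ (B ++ [a]) by simp] at h1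
  exact pot_of_map h.p1 (List.append_inj h1 (by simp)).1

theorem IsMap.split {A B : List D} (h : IsMap f α φ lab pot ((A ++ B) ::ₘ T))
    (hA : f (FreeGroup.mk (A.map lab)) = 1) : ∃ φ', IsMap f α φ' lab pot (A ::ₘ B ::ₘ T) := by
  classical
  rcases A with _ | ⟨a, A⟩
  · exact ⟨φ, { h with faces := Fs.nil.2 h.faces }⟩
  rcases B with _ | ⟨b, B⟩
  · refine ⟨φ, { h with faces := ?_ }⟩
    rw [Multiset.cons_swap, Fs.nil]
    simpa using h.faces
  obtain ⟨h1, h2⟩ := h.faces.split
  have h3 := h.pot_face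
  rw [hA, mul_one] at h3
  exact ⟨_, h1, gen0_split' h.gen h2, h.inv, h.hlab,
    fun d => by rw [Perm.mul_apply, comp_swap h3.symm, h.p1], h.p2⟩

/-- two different faces are merged along an edge -/
theorem IsMap.merge {d : D} {A B : List D}
    (h : IsMap f α φ lab pot ((A ++ [d]) ::ₘ (α d :: B) ::ₘ T)) :
    ∃ φ', IsMap f α φ' lab pot ((A ++ [d] ++ α d :: B) ::ₘ T) := by
  classical
  obtain ⟨a, A', e⟩ : ∃ a A', A ++ [d] = a :: A' := by
    rcases A with _ | ⟨a, A⟩
    · exact ⟨d, [], rfl⟩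
    · exact ⟨a, A ++ [d], rfl⟩
  have h0 : φ d = a := by
    have h1 := h.faces.rot (A ++ [d]) (by simp)
    rw [List.map_append, e, rot_cons] at h1
    simpa using (List.append_inj' h1 rfl).2
  rw [e] at h ⊢
  have hs : (φ * α).SameCycle a (α d) :=
    Perm.SameCycle.symm ⟨1, by simp [h.inv, h0]⟩
  have h3 : pot a = pot (α d) := by rw [← h0, h.p1, h.p2]
  exact ⟨_, h.faces.merge, gen0_face φ α h.gen _ _ hs, h.inv, h.hlab,
    fun d => by rw [Perm.mul_apply, comp_swap h3, h.p1], h.p2⟩

/-- restriction to an invariant set of darts -/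
theorem IsMap.restrict {S : Multiset (List D)} (h : IsMap f α φ lab pot (S + T)) (p : D → Prop)
    (hα : ∀ d, p (α d) ↔ p d) (hφ : ∀ d, p (φ d) ↔ p d) (hS : ∀ l ∈ S, ∀ d ∈ l, ¬ p d)
    (hT : ∀ l ∈ T, ∀ d ∈ l, p d) : Sph f (T.map (List.map lab)) := by
  classical
  let r : List D → List {d // p d} := List.filterMap fun d => if h : p d then some ⟨d, h⟩ else none
  have hr : ∀ l : List D, (∀ d ∈ l, p d) → (r l).map Subtype.val = l := fun l hl => by
    induction l with
    | nil => rfl
    | cons a l ih =>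
      have ha := hl a (by simp)
      simp only [r, List.filterMap_cons, dif_pos ha, List.map_cons]
      rw [ih fun d hd => hl d (by simp [hd])]
  refine ⟨{d // p d}, inferInstance, α.subtypePerm hα, φ.subtypePerm hφ, fun d => lab d.1,
    fun d => pot d.1, T.map r, ⟨⟨fun l hl => ?_, ?_, fun d => ?_⟩, gen0_sub φ α h.gen p hφ hα,
      fun d => Subtype.ext (h.inv d.1), fun d => h.hlab d.1, fun d => h.p1 d.1,
      fun d => h.p2 d.1⟩, ?_⟩
  · obtain ⟨m, hm, rfl⟩ := Multiset.mem_map.1 hl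
    refine List.map_injective_iff.2 Subtype.val_injective ?_
    rw [List.map_rotate, hr m (hT m hm), ← h.faces.rot m (by simp [hm]), List.map_map]
    conv_rhs => rw [← hr m (hT m hm), List.map_map]
    rfl
  · refine Multiset.Nodup.of_map Subtype.val ?_
    have := h.faces.nd
    rw [Multiset.add_bind] at this
    have e : (T.bind fun l => Multiset.map Subtype.val (r l : Multiset {d // p d})) =
        T.bind fun l => (l : Multiset D) :=
      Multiset.bind_congr fun l hl => by rw [Multiset.map_coe, hr l (hT l hl)]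
    rw [Multiset.bind_map, Multiset.map_bind, e]
    exact (Multiset.nodup_add.1 this).2.1
  · obtain ⟨l, hl, hd⟩ := h.faces.all d.1
    rcases Multiset.mem_add.1 hl with hl | hl
    · exact absurd d.2 (hS l hl _ hd)
    · refine ⟨r l, Multiset.mem_map_of_mem r hl, ?_⟩
      rw [← hr l (hT l hl)] at hd
      obtain ⟨e, he, he'⟩ := List.mem_map.1 hd
      rwa [← Subtype.ext he']
  · rw [Multiset.map_map]
    refine Multiset.map_congr rfl fun l hl => ?_
    conv_rhs => rw [← hr l (hT l hl), List.map_map]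
    rfl

/-- a face `x x⁻¹` can be removed -/
theorem IsMap.digon {d₁ d₂ : D} (h : IsMap f α φ lab pot ([d₁, d₂] ::ₘ T))
    (hl : lab d₂ = bar (lab d₁)) : Sph f (T.map (List.map lab)) := by
  classical
  have h1 := h.faces.rot [d₁, d₂] (by simp)
  have f1 : φ d₁ = d₂ := by simpa using congrArg List.head? h1
  have f2 : φ d₂ = d₁ := by simpa using congrArg List.getLast? h1
  obtain ⟨-, -, -, -, n5⟩ := nd_facts (a := d₁) (b := d₂) (A := []) (B := []) h.faces.nd
  have ne : ∀ {u v : D}, lab v = bar (lab u) → u ≠ v := fun {u v} e e' => by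
    subst e'
    simpa [bar] using congrArg Prod.snd e
  have n1 : d₁ ≠ d₂ := ne hl
  have n2 : d₁ ≠ α d₁ := ne (h.hlab d₁)
  let τ : Perm D := Equiv.swap d₂ (α d₁)
  have t1 : τ d₁ = d₁ := swap_apply_of_ne_of_ne n1 n2
  have tl : ∀ d, lab (τ d) = lab d := comp_swap (by rw [hl, h.hlab])
  have tp : ∀ d, pot (τ d) = pot d := comp_swap (by rw [← f1, h.p1, h.p2])
  have g1 : Gen0 (φ * τ) α := by
    rw [mul_swap_eq_swap_mul, f2]
    exact gen0_face φ α h.gen _ _ ⟨1, by simp⟩
  have g2 : Gen0 (τ * (φ * τ)) α := by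
    refine gen0_split' g1 (Perm.SameCycle.symm ⟨2, ?_⟩)
    have e1 : (φ * τ) (α d₁) = d₁ := by rw [Perm.mul_apply, swap_apply_right, f2]
    have e2 : (φ * τ) d₁ = d₂ := by rw [Perm.mul_apply, t1, f1]
    rw [zpow_two, Perm.mul_apply, e1, e2]
  have g3 : Gen0 φ (τ * α * τ) := by
    have := gen0_equiv τ _ _ g2
    convert this using 1 <;> ext d <;> simp [τ, permCongr_apply]
  have a1 : (τ * α * τ) d₁ = d₂ := by
    rw [Perm.mul_apply, Perm.mul_apply, t1, swap_apply_right]
  have inv' : ∀ d, (τ * α * τ) ((τ * α * τ) d) = d := fun d => by simp [τ, h.inv]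
  have a2 : (τ * α * τ) d₂ = d₁ := by rw [← a1, inv']
  have key : ∀ (g : Perm D), g d₁ = d₂ → g d₂ = d₁ → ∀ d,
      (g d ≠ d₁ ∧ g d ≠ d₂) ↔ (d ≠ d₁ ∧ d ≠ d₂) := fun g e1 e2 d => by
    rw [and_comm]
    exact and_congr (e1 ▸ g.injective.ne_iff) (by rw [← g.injective.ne_iff (y := d₂), e2])
  have hm : IsMap f (τ * α * τ) φ lab pot ({[d₁, d₂]} + T) :=
    ⟨h.faces, g3, inv', fun d => by rw [Perm.mul_apply, Perm.mul_apply, tl, h.hlab, tl], h.p1,
      fun d => by rw [Perm.mul_apply, Perm.mul_apply, tp, h.p2, tp, tl]⟩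
  refine hm.restrict (fun d => d ≠ d₁ ∧ d ≠ d₂) (key _ a1 a2) (key _ f1 f2) (fun l hl d hd => ?_)
    fun l hl d hd => ⟨fun e => (n5 l hl).1 (e ▸ hd), fun e => (n5 l hl).2 (e ▸ hd)⟩
  rw [Multiset.mem_singleton.1 hl] at hd
  simp only [List.mem_cons, List.not_mem_nil, or_false] at hd
  tauto

/-- a spur `x x⁻¹` can be inserted -/
theorem IsMap.spur {A : List D} (h : IsMap f α φ lab pot (A ::ₘ T)) (x : X × Bool) :
    Sph f ((x :: bar x :: A.map lab) ::ₘ T.map (List.map lab)) := by
  classical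
  let s : Perm Bool := Equiv.swap false true
  let lab' : D ⊕ Bool → X × Bool := Sum.elim lab fun b => if b then bar x else x
  have base : ∀ g : G, IsMap f (sumCongr α s) (sumCongr φ s) lab'
      (Sum.elim pot fun b => if b then g * f (FreeGroup.mk [x]) else g)
      ([Sum.inr false, Sum.inr true] ::ₘ A.map Sum.inl ::ₘ T.map (List.map Sum.inl)) := by
    intro g
    have q : ∀ b : Bool, (if s b then g * f (FreeGroup.mk [x]) else g) =
        (if b then g * f (FreeGroup.mk [x]) else g) * f (FreeGroup.mk [if b then bar x else x]) := by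
      rintro (_ | _)
      · simp [s]
      · have : s true = false := by simp [s]
        simp only [this, Bool.false_eq_true, if_false, if_true]
        rw [mul_assoc, ← map_mul, mk_bar, map_one, mul_one]
    refine ⟨⟨fun l hl => ?_, ?_, ?_⟩, gen0_sum h.gen gen0_bool, ?_, ?_, ?_, ?_⟩
    · rcases Multiset.mem_cons.1 hl with rfl | hl
      · simp [s]
      · rw [← Multiset.map_cons] at hl
        obtain ⟨m, hm, rfl⟩ := Multiset.mem_map.1 hl
        rw [← List.map_rotate, ← h.faces.rot m hm, List.map_map, List.map_map]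
        rfl
    · rw [← Multiset.map_cons, Multiset.cons_bind, Multiset.bind_map, Multiset.nodup_add]
      simp only [← Multiset.map_coe, ← Multiset.map_bind]
      refine ⟨by simp, h.faces.nd.map Sum.inl_injective, ?_⟩
      simp [Multiset.disjoint_right]
    · rintro (d | b)
      · obtain ⟨l, hl, hd⟩ := h.faces.all d
        refine ⟨l.map Sum.inl, Multiset.mem_cons_of_mem ?_, List.mem_map_of_mem hd⟩
        rw [← Multiset.map_cons]
        exact Multiset.mem_map_of_mem _ hl
      · exact ⟨_, Multiset.mem_cons_self _ _, by cases b <;> simp⟩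
    · rintro (d | b)
      · simp [h.inv]
      · simp [s]
    · rintro (d | _ | _)
      · exact h.hlab d
      · simp [s, lab']
      · simp [s, lab', bar]
    · rintro (d | b)
      · exact h.p1 d
      · exact q b
    · rintro (d | b)
      · exact h.p2 d
      · exact q b
  have e : (T.map (List.map Sum.inl)).map (List.map lab') = T.map (List.map lab) := by
    rw [Multiset.map_map]
    exact Multiset.map_congr rfl fun l _ => by simp [lab', Function.comp_def]
  rcases A with _ | ⟨a, A⟩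
  · have h1 := base 1
    rw [Multiset.cons_swap] at h1
    exact ⟨_, inferInstance, _, _, lab', _, _, { h1 with faces := Fs.nil.1 h1.faces },
      by rw [Multiset.map_cons, e]; rfl⟩
  · have h1 := base (pot a)
    have nc : ¬ conn (sumCongr φ s) (sumCongr α s) (Sum.inr false) (Sum.inl a) := fun k => by
      have := perm_conn_le (s := Setoid.ker Sum.isLeft) (by rintro (d | b) <;> rfl)
        (by rintro (d | b) <;> rfl) k
      cases this
    refine ⟨_, inferInstance, _, _, lab', _, _, ⟨h1.faces.merge, gen0_join h1.gen nc, h1.inv,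
      h1.hlab, fun d => (comp_swap (a := Sum.inr false) (b := Sum.inl a) rfl _).trans (h1.p1 d),
      h1.p2⟩, ?_⟩
    rw [Multiset.map_cons, e]
    simp [lab', Function.comp_def]

end Map

theorem Sph.cons {A : List (X × Bool)} {L : Multiset (List (X × Bool))} (h : Sph f (A ::ₘ L)) :
    ∃ (D : Type) (_ : Finite D) (α φ : Perm D) (lab : D → X × Bool) (pot : D → G)
      (l : List D) (T : Multiset (List D)), IsMap f α φ lab pot (l ::ₘ T) ∧ l.map lab = A ∧
        T.map (List.map lab) = L := by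
  classical
  obtain ⟨D, _, α, φ, lab, pot, fs, h1, h2⟩ := h
  obtain ⟨l, hl, e1, e2⟩ := (Multiset.map_eq_cons _ _ _ _).2 h2
  exact ⟨D, inferInstance, α, φ, lab, pot, l, fs.erase l, by rwa [Multiset.cons_erase hl], e1, e2⟩

variable {A B : List (X × Bool)} {L : Multiset (List (X × Bool))}

theorem Sph.nil : Sph f ([] ::ₘ 0) :=
  ⟨Empty, inferInstance, 1, 1, Empty.elim, Empty.elim, [] ::ₘ 0,
    ⟨⟨by simp, by simp, fun d => d.elim⟩, by
      have : comp (1 : Perm Empty) 1 = 0 := Nat.card_of_isEmpty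
      unfold Gen0; rw [this]; simp, fun d => d.elim, fun d => d.elim, fun d => d.elim,
      fun d => d.elim⟩, by simp⟩

theorem Sph.drop (h : Sph f ([] ::ₘ L)) : Sph f L := by
  obtain ⟨D, _, α, φ, lab, pot, l, T, h1, h2, h3⟩ := h.cons
  rw [List.map_eq_nil_iff.1 h2] at h1
  exact ⟨D, inferInstance, α, φ, lab, pot, T, { h1 with faces := Fs.nil.1 h1.faces }, h3⟩

theorem Sph.addnil (h : Sph f L) : Sph f ([] ::ₘ L) := by
  obtain ⟨D, _, α, φ, lab, pot, T, h1, h3⟩ := h
  exact ⟨D, inferInstance, α, φ, lab, pot, [] ::ₘ T, { h1 with faces := Fs.nil.2 h1.faces },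
    by rw [Multiset.map_cons, h3]; rfl⟩

theorem Sph.swap (h : Sph f ((A ++ B) ::ₘ L)) : Sph f ((B ++ A) ::ₘ L) := by
  obtain ⟨D, _, α, φ, lab, pot, l, T, h1, h2, rfl⟩ := h.cons
  obtain ⟨l1, l2, rfl, rfl, rfl⟩ := List.map_eq_append_iff.1 h2
  exact ⟨D, inferInstance, α, φ, lab, pot, _, h1.swap, by simp⟩

theorem Sph.split (h : Sph f ((A ++ B) ::ₘ L)) (hA : f (FreeGroup.mk A) = 1) : Sph f (A ::ₘ B ::ₘ L) := by
  obtain ⟨D, _, α, φ, lab, pot, l, T, h1, h2, rfl⟩ := h.cons
  obtain ⟨l1, l2, rfl, rfl, rfl⟩ := List.map_eq_append_iff.1 h2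
  obtain ⟨φ', h3⟩ := h1.split hA
  exact ⟨D, inferInstance, α, φ', lab, pot, _, h3, by simp⟩

theorem Sph.fold {x : X × Bool} (h : Sph f ((x :: bar x :: A) ::ₘ L)) : Sph f (A ::ₘ L) := by
  have h0 := Sph.split (A := [x, bar x]) h (by
    rw [show [x, bar x] = [x] ++ [bar x] from rfl, ← mul_mk, mk_bar, map_one])
  obtain ⟨D, _, α, φ, lab, pot, l, T, h1, h2, h3⟩ := h0.cons
  obtain ⟨d₁, l, rfl, e1, h2⟩ := List.map_eq_cons_iff.1 h2
  obtain ⟨d₂, l, rfl, e2, h2⟩ := List.map_eq_cons_iff.1 h2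
  rw [List.map_eq_nil_iff.1 h2] at h1
  exact h3 ▸ h1.digon (by rw [e1, e2])

theorem Sph.unfold (x : X × Bool) (h : Sph f (A ::ₘ L)) : Sph f ((x :: bar x :: A) ::ₘ L) := by
  obtain ⟨D, _, α, φ, lab, pot, l, T, h1, rfl, rfl⟩ := h.cons
  exact h1.spur x

theorem sph_step (h : Red.Step A B) : Sph f (A ::ₘ L) ↔ Sph f (B ::ₘ L) := by
  rcases h with ⟨⟩
  rename_i L₁ L₂ x b
  exact ⟨fun h => (Sph.fold (x := (x, b)) (A := L₂ ++ L₁) h.swap).swap,
    fun h => Sph.swap (A := (x, b) :: (x, !b) :: L₂) (h.swap.unfold (x, b))⟩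

theorem sph_red (h : Red A B) : Sph f (A ::ₘ L) ↔ Sph f (B ::ₘ L) := by
  induction h with
  | refl => rfl
  | tail _ h ih => exact ih.trans (sph_step h)

theorem Sph.congr (h : Sph f (A ::ₘ L)) (e : FreeGroup.mk A = FreeGroup.mk B) : Sph f (B ::ₘ L) := by
  obtain ⟨C, h1, h2⟩ := Red.exact.1 e
  exact (sph_red h2).2 ((sph_red h1).1 h)

/-- products of conjugates of relators with total cost `k` -/
inductive Area (R : Set (List (X × Bool))) (c : List (X × Bool) → ℕ) : FreeGroup X → ℕ → Prop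
  | one : Area R c 1 0
  | mul {g : FreeGroup X} {k : ℕ} (u : FreeGroup X) {r : List (X × Bool)} :
      r ∈ R → Area R c g k → Area R c (u * FreeGroup.mk r * u⁻¹ * g) (c r + k)

variable {R : Set (List (X × Bool))} {c : List (X × Bool) → ℕ}

theorem Sph.area (hR : ∀ r ∈ R, f (FreeGroup.mk r) = 1) {g : FreeGroup X} {k : ℕ} (hg : Area R c g k)
    (h : Sph f (A ::ₘ L)) (e : FreeGroup.mk A = g) :
    ∃ M : Multiset (List (X × Bool)), (∀ r ∈ M, r ∈ R) ∧ (M.map c).sum = k ∧ Sph f (M + L) := by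
  induction hg generalizing A L with
  | one => exact ⟨0, by simp, by simp, by simpa using (h.congr (B := []) e).drop⟩
  | @mul g k u r hr _ ih =>
    obtain ⟨U, rfl⟩ := Quot.exists_rep u
    obtain ⟨W, rfl⟩ := Quot.exists_rep g
    have h1 := (h.congr (B := (U ++ (r ++ invRev U)) ++ W) (by
      rw [e, ← mul_mk, ← mul_mk, ← mul_mk, ← inv_mk, ← mul_assoc]; rfl)).split (by
      rw [← mul_mk, ← mul_mk, ← inv_mk, map_mul, map_mul, hR r hr, one_mul, ← map_mul,
        mul_inv_cancel, map_one])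
    have h2 := h1.swap.congr (B := r) (by
      rw [← mul_mk, ← mul_mk, ← inv_mk, inv_mul_cancel_right])
    rw [Multiset.cons_swap] at h2
    obtain ⟨M, m1, m2, m3⟩ := ih h2 rfl
    refine ⟨r ::ₘ M, by simpa [hr] using m1, by simp [m2], ?_⟩
    rwa [Multiset.add_cons, ← Multiset.cons_add] at m3

theorem area_of_mem (hR : ∀ r ∈ R, invRev r ∈ R) {g : FreeGroup X}
    (hg : g ∈ Subgroup.normalClosure (FreeGroup.mk '' R)) : ∃ k, Area R c g k := by
  refine Subgroup.closure_induction_left (p := fun g _ => ∃ k, Area R c g k) ⟨0, Area.one⟩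
    (fun x hx y _ ⟨k, hk⟩ => ?_) (fun x hx y _ ⟨k, hk⟩ => ?_) hg
  · obtain ⟨_, ⟨r, hr, rfl⟩, hc⟩ := Group.mem_conjugatesOfSet_iff.1 hx
    obtain ⟨u, rfl⟩ := isConj_iff.1 hc
    exact ⟨_, hk.mul u hr⟩
  · obtain ⟨_, ⟨r, hr, rfl⟩, hc⟩ := Group.mem_conjugatesOfSet_iff.1 hx
    obtain ⟨u, rfl⟩ := isConj_iff.1 hc
    have := hk.mul (c := c) u (hR r hr)
    rw [← inv_mk] at this
    exact ⟨_, by simpa only [mul_inv_rev, inv_inv, mul_assoc] using this⟩

/-- `W` is the boundary of the faces of `S` glued along a tree of edges -/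
inductive Glue {D : Type} (α : Perm D) : Multiset (List D) → List D → Prop
  | one (l : List D) : Glue α {l} l
  | rot {S : Multiset (List D)} {A B : List D} : Glue α S (A ++ B) → Glue α S (B ++ A)
  | add {S : Multiset (List D)} {A : List D} {d : D} (B C : List D) :
      Glue α S (A ++ [d]) → Glue α ((C ++ α d :: B) ::ₘ S) (A ++ [d] ++ α d :: (B ++ C))

theorem IsMap.glue {D : Type} [Finite D] {α : Perm D} {lab : D → X × Bool} {pot : D → G}
    {S : Multiset (List D)} {W : List D} (hg : Glue α S W) :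
    ∀ {φ : Perm D} {T : Multiset (List D)}, IsMap f α φ lab pot (S + T) →
      ∃ φ', IsMap f α φ' lab pot (W ::ₘ T) := by
  induction hg with
  | one l => exact fun h => ⟨_, h⟩
  | rot _ ih => exact fun h => (ih h).imp fun _ h => h.swap
  | @add S A d B C _ ih =>
    intro φ T h
    rw [Multiset.cons_add] at h
    have h1 := h.swap
    rw [← Multiset.add_cons] at h1
    obtain ⟨φ', h2⟩ := ih h1
    exact h2.merge

/-- the van Kampen lemma with a diagram of least cost -/
theorem exists_min (hR : ∀ r ∈ R, invRev r ∈ R) (hf : ∀ r ∈ R, f (FreeGroup.mk r) = 1)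
    (c : List (X × Bool) → ℕ) {w : List (X × Bool)}
    (hw : FreeGroup.mk w ∈ Subgroup.normalClosure (FreeGroup.mk '' R)) :
    ∃ (D : Type) (_ : Finite D) (α φ : Perm D) (lab : D → X × Bool) (pot : D → G)
      (o : List D) (fs : Multiset (List D)), IsMap f α φ lab pot (o ::ₘ fs) ∧ o.map lab = w ∧
      (∀ l ∈ fs, l.map lab ∈ R) ∧
      ∀ S W k, S ≤ fs → Glue α S W → Area R c (FreeGroup.mk (W.map lab)) k →
        (S.map fun l => c (l.map lab)).sum ≤ k := by
  classical
  have hw1 : f (FreeGroup.mk w) = 1 := by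
    have : Subgroup.normalClosure (FreeGroup.mk '' R) ≤ f.ker :=
      Subgroup.normalClosure_le_normal (by rintro _ ⟨r, hr, rfl⟩; exact hf r hr)
    exact this hw
  have ex : ∃ n, ∃ M : Multiset (List (X × Bool)), (∀ r ∈ M, r ∈ R) ∧ (M.map c).sum = n ∧
      Sph f (w ::ₘ M) := by
    obtain ⟨k, hk⟩ := area_of_mem (c := c) hR (inv_mem hw)
    have h1 := ((Sph.nil (f := f)).congr (B := w ++ invRev w) (by
      rw [← mul_mk, ← inv_mk, mul_inv_cancel]; rfl)).split hw1
    rw [Multiset.cons_swap] at h1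
    obtain ⟨M, m1, m2, m3⟩ := h1.area hf hk inv_mk.symm
    exact ⟨k, M, m1, m2, by rwa [Multiset.add_cons, add_zero] at m3⟩
  obtain ⟨M, m1, m2, m3⟩ := Nat.find_spec ex
  obtain ⟨D, _, α, φ, lab, pot, o, fs, h1, h2, rfl⟩ := m3.cons
  refine ⟨D, inferInstance, α, φ, lab, pot, o, fs, h1, h2,
    fun l hl => m1 _ (Multiset.mem_map_of_mem _ hl), fun S W k hS hg hk => ?_⟩
  obtain ⟨T, rfl⟩ := Multiset.le_iff_exists_add.1 hS
  rw [← Multiset.add_cons] at h1
  obtain ⟨φ', h3⟩ := h1.glue hg
  obtain ⟨M', n1, n2, n3⟩ := Sph.area (L := w ::ₘ T.map (List.map lab)) hf hk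
    ⟨D, inferInstance, α, φ', lab, pot, _, h3, by simp [h2]⟩ rfl
  have := Nat.find_min' ex ⟨M' + T.map (List.map lab), fun r hr => by
    rcases Multiset.mem_add.1 hr with hr | hr
    · exact n1 r hr
    · exact m1 r (by simp only [Multiset.map_add, Multiset.mem_add]; exact Or.inr hr),
    rfl, by rwa [Multiset.add_cons] at n3⟩
  rw [← m2] at this
  simp only [Multiset.map_add, Multiset.sum_add, n2, Multiset.map_map] at this
  simpa [Function.comp_def] using this

end Pool.Agent.Lib.VK
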