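import Pool.Agent.Lib.VK.GB

/-!
# The weight test for least cost van Kampen diagrams
-/

namespace Pool.Agent.Lib.VK

open Equiv Pool.Agent.Lib.MP_bfaad3_co Function

variable {X G : Type} [Group G]

/-- `x` and `y` are two readings of one cyclic word and the part between them dies in `G` -/
def Touch (f : FreeGroup X →* G) (x y : List (X × Bool)) : Prop :=
  ∃ A B, A ≠ [] ∧ B ≠ [] ∧ x = A ++ B ∧ y = B ++ A ∧ f (FreeGroup.mk A) = 1

/-- the product `x k ⋯ x 1 * x 0` -/
def fan (x : ℕ → List (X × Bool)) : ℕ → FreeGroup X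
  | 0 => FreeGroup.mk (x 0)
  | k + 1 => FreeGroup.mk (x (k + 1)) * fan x k

/-- a corner: a relator, or (flag `true`) a rotation of the outer word -/
def Ok (R : Set (List (X × Bool))) (w : List (X × Bool)) (p : Bool × List (X × Bool)) : Prop :=
  (p.1 = false → p.2 ∈ R) ∧ (p.1 = true → w ~r p.2)

/-- what is known about the corners `x 0, …, x (n-1)` round a vertex of a least cost diagram -/
structure VCyc (f : FreeGroup X →* G) (R : Set (List (X × Bool))) (c : List (X × Bool) → ℕ)
    (w : List (X × Bool)) (n : ℕ) (x : ℕ → Bool × List (X × Bool)) : Prop where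
  pos : 0 < n
  per : ∀ i, x (i + n) = x i
  ok : ∀ i, Ok R w (x i)
  glue : ∀ i, ∃ a A B, (x i).2 = a :: A ∧ (x (i + 1)).2 = B ++ [bar a]
  pinch : ∀ i j, 0 < j → j < n → (x i).1 = true → (x (i + j)).1 = true →
    Touch f (x i).2 (x (i + j)).2
  min : ∀ i k m, k < n → (∀ j ≤ k, (x (i + j)).1 = false) →
    (∀ a b, a < b → b ≤ k → ¬ Touch f (x (i + a)).2 (x (i + b)).2) →
    Area R c (fan (fun j => (x (i + j)).2) k) m → ∑ j ∈ Finset.range (k + 1), c (x (i + j)).2 ≤ m

variable {f : FreeGroup X →* G} {D : Type} {α φ : Perm D} {lab : D → X × Bool} {pot : D → G}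
  {o : List D} {fs : Multiset (List D)} {c : List (X × Bool) → ℕ}

theorem Rd.mem_next {l : List D} (h : Rd φ l) (d : D) : φ d ∈ l ↔ d ∈ l := by
  rw [← List.mem_rotate (n := 1), ← h.1, List.mem_map_of_injective φ.injective]

theorem IsMap.touch (h : IsMap f α φ lab pot fs) {l : List D} (hl : l ∈ fs) {a b : D}
    (ha : a ∈ l) (hb : b ∈ l) (ne : a ≠ b) (e : pot b = pot a) :
    Touch f ((a :: rd φ a).map lab) ((b :: rd φ b).map lab) := by
  obtain ⟨A, B, rfl⟩ := List.append_of_mem ha
  have h1 : Rd φ (a :: (B ++ A)) := (h.faces.rd hl).swap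
  have h2 : b ∈ B ++ A := by
    simp only [List.mem_append, List.mem_cons] at hb ⊢
    rcases hb with hb | hb | hb
    · exact Or.inr hb
    · exact absurd hb.symm ne
    · exact Or.inl hb
  obtain ⟨C, E, e'⟩ := List.append_of_mem h2
  rw [e'] at h1
  have h3 := h1.1
  rw [rot_cons, ← List.cons_append, List.map_append,
    show C ++ b :: E ++ [a] = (C ++ [b]) ++ (E ++ [a]) by simp] at h3
  have h4 := pot_of_map h.p1 (List.append_inj h3 (by simp)).1
  refine ⟨(a :: C).map lab, (b :: E).map lab, by simp, by simp, by rw [h1.eq]; simp,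
    by rw [Rd.mid (A := a :: C) h1]; simp, ?_⟩
  rw [e] at h4
  exact left_eq_mul.1 h4

theorem IsMap.fan (h : IsMap f α φ lab pot (o ::ₘ fs)) (h1 : ∀ d, [d] ∉ fs)
    (hc : ∀ A B, c (A ++ B) = c (B ++ A)) {e : ℕ → D} (he : ∀ j, e (j + 1) = φ (α (e j))) (k : ℕ)
    (hi : ∀ j ≤ k, e j ∉ o) (hd : ∀ a b, a < b → b ≤ k → ∀ l ∈ fs, e a ∈ l → e b ∉ l) :
    ∃ S A, S ≤ fs ∧ Glue α S (e k :: A) ∧
      FreeGroup.mk ((e k :: A).map lab) = VK.fan (fun j => (e j :: rd φ (e j)).map lab) k ∧
      (S.map fun l => c (l.map lab)).sum =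
        ∑ j ∈ Finset.range (k + 1), c ((e j :: rd φ (e j)).map lab) ∧
      ∀ l ∈ S, ∃ j ≤ k, e j ∈ l := by
  have face : ∀ d, d ∉ o → ∃ A B, A ++ d :: B ∈ fs ∧ rd φ d = B ++ A ∧
      c ((A ++ d :: B).map lab) = c ((d :: rd φ d).map lab) := fun d hd => by
    obtain ⟨l, hl, hd'⟩ := h.faces.all d
    obtain ⟨A, B, rfl⟩ := List.append_of_mem hd'
    have e := (h.faces.rd hl).mid
    rcases Multiset.mem_cons.1 hl with rfl | hl
    · exact absurd hd' hd
    · exact ⟨A, B, hl, e, by rw [List.map_append, hc, e]; simp⟩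
  induction k with
  | zero =>
    obtain ⟨A, B, m1, m2, m3⟩ := face (e 0) (hi 0 le_rfl)
    exact ⟨{A ++ e 0 :: B}, B ++ A, Multiset.singleton_le.2 m1, (Glue.one _).rot,
      by rw [← m2]; rfl, by simpa using m3, fun l hl => ⟨0, le_rfl, by
        rw [Multiset.mem_singleton.1 hl]; simp⟩⟩
  | succ k ih =>
    obtain ⟨S, A, s1, s2, s3, s4, s5⟩ := ih (fun j hj => hi j (by omega))
      fun a b hab hb => hd a b hab (by omega)
    have ro := h.faces.rd (Multiset.mem_cons_self o fs)
    obtain ⟨C, B, m1, m2, m3⟩ := face (α (e k)) (by rw [← ro.mem_next, ← he]; exact hi _ le_rfl)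
    have rf := h.faces.rd (Multiset.mem_cons_of_mem m1)
    have mem : e (k + 1) ∈ C ++ α (e k) :: B := by rw [he, rf.mem_next]; simp
    have nx := h.faces.rd_next (α (e k))
    rw [← he, m2] at nx
    obtain ⟨Q, q1, q2⟩ : ∃ Q, B ++ C = e (k + 1) :: Q ∧ rd φ (e (k + 1)) = Q ++ [α (e k)] := by
      rcases hBC : B ++ C with _ | ⟨y, Q⟩
      · obtain ⟨rfl, rfl⟩ := List.append_eq_nil_iff.1 hBC
        exact absurd m1 (h1 _)
      · rw [hBC, List.cons_append, List.cons.injEq] at nx
        exact ⟨Q, by rw [nx.1], nx.2⟩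
    have g := Glue.add B C (Glue.rot (A := [e k]) s2)
    rw [q1, show A ++ [e k] ++ α (e k) :: e (k + 1) :: Q =
      (A ++ [e k, α (e k)]) ++ e (k + 1) :: Q by simp] at g
    refine ⟨_, _, (Multiset.cons_le_of_notMem fun k' => ?_).2 ⟨m1, s1⟩, g.rot, ?_, ?_,
      fun l hl => ?_⟩
    · obtain ⟨j, hj, hj'⟩ := s5 _ k'
      exact hd j (k + 1) (by omega) le_rfl _ m1 hj' mem
    · have b1 := mk_bar (lab (e k))
      have b2 := mul_eq_one_comm.1 b1
      rw [VK.fan, ← s3, q2]
      have e1 : (e (k + 1) :: (Q.append (A ++ [e k, α (e k)]))).map lab =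
          (e (k + 1) :: Q).map lab ++ (A.map lab ++ ([lab (e k)] ++ [bar (lab (e k))])) := by
        simp [h.hlab]
      have e2 : (e (k + 1) :: (Q ++ [α (e k)])).map lab =
          (e (k + 1) :: Q).map lab ++ [bar (lab (e k))] := by simp [h.hlab]
      have e3 : (e k :: A).map lab = [lab (e k)] ++ A.map lab := rfl
      rw [e1, e2, e3]
      simp only [← FreeGroup.mul_mk]
      rw [b1, mul_one, mul_assoc, ← mul_assoc (FreeGroup.mk [bar _]), b2, one_mul]
    · rw [Multiset.map_cons, Multiset.sum_cons, s4, Finset.sum_range_succ _ (k + 1), add_comm,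
        m3, nx, m2]
      congr 1
      rw [List.map_append (l₁ := B ++ C), hc]
      rfl
    · rcases Multiset.mem_cons.1 hl with rfl | hl
      · exact ⟨k + 1, le_rfl, mem⟩
      · exact (s5 l hl).imp fun j hj => ⟨by omega, hj.2⟩

/-- the weight test: `v` are weights of consecutive corners round a vertex, `u` weights of
corners inside their face -/
theorem weight_test {R : Set (List (X × Bool))} (hR : ∀ r ∈ R, FreeGroup.invRev r ∈ R)
    (hrot : ∀ A B, A ++ B ∈ R → B ++ A ∈ R) (h1 : ∀ x, [x] ∉ R)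
    (hf : ∀ r ∈ R, f (FreeGroup.mk r) = 1) (hc : ∀ A B, c (A ++ B) = c (B ++ A))
    {w : List (X × Bool)} (hw : w ≠ [])
    (v : Bool × List (X × Bool) → Bool × List (X × Bool) → ℤ) (u : Bool × List (X × Bool) → ℤ)
    (N : ℤ) (hN : 0 ≤ N)
    (hv : ∀ n x, VCyc f R c w n x → N ≤ ∑ i ∈ Finset.range n, v (x i) (x (i + 1)))
    (he : ∀ a A B s t, Ok R w (s, a :: A) → Ok R w (t, bar a :: B) →
      v (s, a :: A) (t, B ++ [bar a]) + v (t, bar a :: B) (s, A ++ [a]) + u (s, a :: A) +
        u (t, bar a :: B) ≤ N)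
    (hu : ∀ r ∈ R, N ≤ ((List.range r.length).map fun i => u (false, r.rotate i)).sum)
    (ho : -N < ((List.range w.length).map fun i => u (true, w.rotate i)).sum) :
    FreeGroup.mk w ∉ Subgroup.normalClosure (FreeGroup.mk '' R) := by
  classical
  intro hmem
  obtain ⟨D, _, α, φ, lab, pot, o, fs, h, rfl, m1, m2⟩ := exists_min hR hf c hmem
  let _ : Fintype D := Fintype.ofFinite D
  let P : D → Bool × List (X × Bool) := fun d => (decide (d ∈ o), (d :: rd φ d).map lab)
  have ro := h.faces.rd (Multiset.mem_cons_self o fs)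
  have ok : ∀ d, Ok R (o.map lab) (P d) := fun d => by
    refine ⟨fun k => ?_, fun k => ?_⟩
    · obtain ⟨l, hl, hd⟩ := h.faces.all d
      obtain ⟨A, B, rfl⟩ := List.append_of_mem hd
      have e := (h.faces.rd hl).mid
      rcases Multiset.mem_cons.1 hl with rfl | hl
      · exact absurd hd (by simpa [P] using k)
      · have := m1 _ hl
        rw [List.map_append] at this
        simpa [P, e] using hrot _ _ this
    · obtain ⟨A, B, rfl⟩ := List.append_of_mem (show d ∈ o by simpa [P] using k)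
      simp only [P, ro.mid]
      exact (List.isRotated_append (l := A) (l' := d :: B)).map lab
  have nx : ∀ d, P (φ d) = (decide (d ∈ o), (rd φ d).map lab ++ [lab d]) := fun d => by
    simp only [P, h.faces.rd_next, ro.mem_next, List.map_append]
    rfl
  have sm : ∀ l s, Rd φ l → (∀ d ∈ l, decide (d ∈ o) = s) → (l.map fun d => u (P d)).sum =
      ((List.range (l.map lab).length).map fun i => u (s, (l.map lab).rotate i)).sum :=
    fun l s hl hs => by
      have := congrArg (List.map fun m : List D => u (s, m.map lab)) hl.map_rd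
      simp only [List.map_map, Function.comp_def, List.map_rotate] at this
      rw [List.length_map, ← this]
      exact congrArg List.sum (List.map_congr_left fun d hd => by simp only [P, hs d hd])
  have pv : ∀ d i, pot ((φ * α)^[i] d) = pot d := fun d i => by
    induction i with
    | zero => rfl
    | succ i ih =>
      rw [iterate_succ_apply', Perm.mul_apply, h.p1, h.p2, h.hlab, mul_assoc, ← map_mul, mk_bar,
        map_one, mul_one, ih]
  have inj : ∀ d i a b, a < b → b < minimalPeriod (φ * α) d →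
      (φ * α)^[i + a] d ≠ (φ * α)^[i + b] d := fun d i a b hab hb e => by
    rw [iterate_add_apply, iterate_add_apply] at e
    exact hab.ne (iterate_injOn_Iio_minimalPeriod (hab.trans hb) hb
      ((φ * α).injective.iterate i e))
  refine absurd (gauss_bonnet h.faces h.gen (fun d e => ?_) (fun e => hw (by rw [e]; rfl))
    (fun d => v (P d) (P (φ (α d)))) (fun d => u (P d)) N hN (fun d => ?_) (fun d => ?_)
    fun l hl => ?_) ?_
  · have := h.hlab d
    rw [e] at this
    simpa [bar] using congrArg Prod.snd this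
  · have := hv (minimalPeriod (φ * α) d) (fun i => P ((φ * α)^[i] d))
      ⟨per_pos _ _, fun i => by rw [iterate_add_apply, iterate_minimalPeriod], fun i => ok _,
        fun i => ⟨_, _, _, rfl, by rw [iterate_succ_apply', Perm.mul_apply, nx, h.hlab]⟩,
        fun i j j0 jn k1 k2 => h.touch (Multiset.mem_cons_self o fs) (by simpa [P] using k1)
          (by simpa [P] using k2) (inj d i 0 j j0 jn) (by rw [pv, pv]),
        fun i k m kn k1 k2 k3 => ?_⟩
    · simpa only [iterate_succ_apply', Perm.mul_apply] using this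
    · obtain ⟨S, A, s1, s2, s3, s4, -⟩ := h.fan (c := c) (fun d k => h1 _ (m1 _ k)) hc
        (e := fun j => (φ * α)^[i + j] d) (fun j => iterate_succ_apply' _ (i + j) _) k
        (fun j hj => by simpa [P] using k1 j hj) fun a b hab hb l hl ha hb' =>
          k2 a b hab hb (h.touch (Multiset.mem_cons_of_mem hl) ha hb'
            (inj d i a b hab (by omega)) (by rw [pv, pv]))
      rw [← s4]
      exact m2 S _ m s1 s2 (by rw [s3]; exact k3)
  · have := he (lab d) ((rd φ d).map lab) ((rd φ (α d)).map lab) _ _ (ok d)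
      (by rw [← h.hlab]; exact ok (α d))
    rw [h.inv, nx, nx, h.hlab]
    simpa only [P, List.map_cons, h.hlab] using this
  · rw [sm l false (h.faces.rd (Multiset.mem_cons_of_mem hl)) fun d hd => ?_]
    · exact hu _ (m1 l hl)
    · have := h.faces.nd
      rw [Multiset.cons_bind, Multiset.nodup_add, Multiset.disjoint_right] at this
      simpa using this.2.2 (Multiset.mem_bind.2 ⟨l, hl, hd⟩)
  · rw [sm o true ro fun d hd => by simpa using hd]
    exact not_le.2 ho

end Pool.Agent.Lib.VK
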